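import Pool.Agent.P.MP_f30597_gt.CP.Defs

/-! Definitions: right-angled Coxeter groups, top cycles of flag complexes. -/

namespace Pool.Agent.P.MP_f30597_gt.DV

variable {r : ℕ} (K : SimpleGraph (Fin r))

/-- The relators `s ^ 2` for the vertices and `(s t) ^ 2` for the edges of the graph. -/
def rels : Set (FreeGroup (Fin r)) :=
  {x | ∃ s, x = FreeGroup.of s ^ 2} ∪
    {x | ∃ s t, K.Adj s t ∧ x = (FreeGroup.of s * FreeGroup.of t) ^ 2}

/-- The right-angled Coxeter group of the graph. -/
abbrev RAC : Type := PresentedGroup (rels K)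

/-- The sign character, which sends every generator to `-1`. -/
def sgnW : RAC K →* ℤˣ :=
  PresentedGroup.toGroup (f := fun _ => -1) (by
    rintro _ (⟨s, rfl⟩ | ⟨s, t, -, rfl⟩) <;> simp)

/-- `a` is a nonzero simplicial `(n - 1)`-cycle of the flag complex of the graph; a simplex is the
increasing list of its vertices. -/
structure IsTopCycle (n : ℕ) (a : List (Fin r) →₀ ℤ) : Prop where
  ne : a ≠ 0
  simplex : ∀ l ∈ a.support, l.length = n ∧ l.Pairwise fun s t => s < t ∧ K.Adj s t
  cycle : SI.bd a = 0

end Pool.Agent.P.MP_f30597_gt.DV
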