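import Pool.Agent.P.MP_f30597_gt.CP.IfaceC
import Pool.Agent.P.MP_f30597_gt.DV.Defs

/-! Definitions used in the steps. -/

namespace Pool.Agent.P.MP_f30597_gt.DV

open Finset SI CP
open scoped Classical

set_option linter.unusedSectionVars false

noncomputable section

/-! ### Chains in a set with an action -/

section Chains

variable {X Y : Type}

/-- chains of lists of length `k` -/
abbrev Ln (k : ℕ) : Submodule ℤ (Bar X) := On fun l => l.length = k

theorem bd_eq' (u : Bar X) : bd u = bdZ u := by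
  simp [bd, bdZ, Finsupp.linearCombination_apply, smul_sum, mul_comm]

theorem mp_mp {Z : Type} (f : X → Y) (g : Y → Z) (u : Bar X) :
    mp g (mp f u) = mp (fun x => g (f x)) u :=
  all_eq (mp g ∘ₗ mp f) _ (fun l => by
    rw [LinearMap.comp_apply, mp_sx, mp_sx, mp_sx, List.map_map]; rfl) u

theorem mp_ln (f : X → Y) {k : ℕ} {u : Bar X} (hu : u ∈ Ln k) : mp f u ∈ Ln k :=
  mp_on f (fun l hl => by rw [List.length_map, hl]) hu

/-- chains that vanish in the coinvariants -/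
def Triv (G X : Type) [Group G] [MulAction G X] (k : ℕ) : Submodule ℤ (Bar X) :=
  Submodule.span ℤ {u | ∃ (g : G) (l : List X), l.length = k ∧ u = sx (l.map (g • ·)) - sx l}

/-- chains that are boundaries in the coinvariants -/
def Nul (G X : Type) [Group G] [MulAction G X] (k : ℕ) : Submodule ℤ (Bar X) :=
  Triv G X k ⊔ (Ln (k + 1)).map bdZ

/-- a multiple of the top homology dies in the orbit complex -/
def KillsQ (G : Type) [Group G] [MulAction G Y] (y : Y) (n : ℕ) : Prop :=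
  ∃ m : ℤ, m ≠ 0 ∧ ∀ z ∈ Len (G := G) (n + 1), co (bd z) = 0 →
    m • mp (fun g : G => g • y) z ∈ Nul G Y (n + 1)

variable {G : Type} [Group G] [MulAction G X] [MulAction G Y]

theorem triv_mp (g : G) {k : ℕ} {u : Bar X} (hu : u ∈ Ln k) :
    mp (g • ·) u - u ∈ Triv G X k :=
  on_map (mp (g • ·) - LinearMap.id) (Triv G X k) (fun l hl => by
    rw [LinearMap.sub_apply, mp_sx]
    exact Submodule.subset_span ⟨g, l, hl, rfl⟩) hu

theorem triv_map {M : Type} [AddCommGroup M] (f : Bar X →ₗ[ℤ] M) (P : Submodule ℤ M) {k : ℕ}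
    (h : ∀ (g : G) (l : List X), l.length = k → f (sx (l.map (g • ·))) - f (sx l) ∈ P) {u : Bar X}
    (hu : u ∈ Triv G X k) : f u ∈ P := by
  have : Triv G X k ≤ P.comap f := Submodule.span_le.2 (by
    rintro _ ⟨g, l, hl, rfl⟩
    change f _ ∈ P
    rw [map_sub]
    exact h g l hl)
  exact this hu

theorem nul_of_triv {k : ℕ} {u : Bar X} (hu : u ∈ Triv G X k) : u ∈ Nul G X k :=
  Submodule.mem_sup_left hu

theorem nul_bd {k : ℕ} {u : Bar X} (hu : u ∈ Ln (k + 1)) : bdZ u ∈ Nul G X k :=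
  Submodule.mem_sup_right ⟨u, hu, rfl⟩

theorem nul_map {M : Type} [AddCommGroup M] (f : Bar X →ₗ[ℤ] M) (P : Submodule ℤ M) {k : ℕ}
    (h : ∀ (g : G) (l : List X), l.length = k → f (sx (l.map (g • ·))) - f (sx l) ∈ P)
    (h' : ∀ u ∈ Ln (k + 1), f (bdZ u) ∈ P) {u : Bar X} (hu : u ∈ Nul G X k) : f u ∈ P := by
  obtain ⟨a, ha, _, ⟨b, hb, rfl⟩, rfl⟩ := Submodule.mem_sup.1 hu
  rw [map_add]
  exact add_mem (triv_map f P h ha) (h' b hb)

/-- equivariant maps preserve the null chains -/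
theorem nul_mp (f : X → Y) (hf : ∀ (g : G) x, f (g • x) = g • f x) {k : ℕ} {u : Bar X}
    (hu : u ∈ Nul G X k) : mp f u ∈ Nul G Y k :=
  nul_map (mp f) _ (fun g l hl => nul_of_triv (Submodule.subset_span ⟨g, l.map f, by simpa,
    by simp [mp_sx, Function.comp_def, hf]⟩)) (fun u hu => bd_mp f u ▸ nul_bd (mp_ln f hu)) hu

/-- the transfer from the coinvariants twisted by `ε` -/
def tf {W : Type} [Group W] (ε : W →* ℤˣ) (H : Subgroup W) [H.FiniteIndex] (X : Type)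
    [MulAction W X] : Bar X →ₗ[ℤ] Bar X :=
  letI := Fintype.ofFinite (W ⧸ H)
  ∑ q : W ⧸ H, (ε q.out : ℤ) • mp (q.out⁻¹ • ·)

end Chains

/-! ### The Coxeter group -/

variable {r : ℕ} (K : SimpleGraph (Fin r))

/-- a generator -/
abbrev gn (s : Fin r) : RAC K := PresentedGroup.of s

theorem gn_sq (s : Fin r) : gn K s * gn K s = 1 := by
  have := PresentedGroup.one_of_mem (rels := rels K) (Or.inl ⟨s, rfl⟩)
  rwa [map_pow, sq] at this

theorem gn_inv (s : Fin r) : (gn K s)⁻¹ = gn K s := inv_eq_of_mul_eq_one_right (gn_sq K s)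

variable {K} in
theorem gn_comm {s t : Fin r} (h : K.Adj s t) : gn K s * gn K t = gn K t * gn K s := by
  have := PresentedGroup.one_of_mem (rels := rels K) (Or.inr ⟨s, t, h, rfl⟩)
  rw [map_pow, sq, map_mul] at this
  refine (eq_inv_of_mul_eq_one_left this).trans ?_
  change (gn K s * gn K t)⁻¹ = _
  rw [mul_inv_rev, gn_inv, gn_inv]

theorem sgn_gn (s : Fin r) : sgnW K (gn K s) = -1 := PresentedGroup.toGroup.of _

theorem word_ind {P : RAC K → Prop} (h1 : P 1) (h2 : ∀ s g, P g → P (gn K s * g)) (g : RAC K) :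
    P g := by
  have hg : g ∈ Subgroup.closure (Set.range (gn K)) := by
    rw [PresentedGroup.closure_range_of]; trivial
  induction hg using Subgroup.closure_induction_left with
  | one => exact h1
  | mul_left x hx y _ ih => obtain ⟨s, rfl⟩ := hx; exact h2 s y ih
  | inv_mul_cancel x hx y _ ih => obtain ⟨s, rfl⟩ := hx; rw [gn_inv]; exact h2 s y ih

/-- the special subgroup -/
def par (T : Finset (Fin r)) : Subgroup (RAC K) := Subgroup.closure (gn K '' (T : Set (Fin r)))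

/-- the product of the generators in a set -/
def wU (U : Finset (Fin r)) : RAC K := (U.toList.map (gn K)).prod

/-- cliques -/
def Cq (T : Finset (Fin r)) : Prop := ∀ s ∈ T, ∀ t ∈ T, s ≠ t → K.Adj s t

/-- sets whose non-edges form a matching -/
def InA (T : Finset (Fin r)) : Prop :=
  ∀ s ∈ T, ∀ t ∈ T, ∀ u ∈ T, ¬K.Adj s t → ¬K.Adj s u → s = t ∨ s = u ∨ t = u

theorem cq_empty : Cq K ∅ := by simp [Cq]

variable {K} in
theorem Cq.inA {T : Finset (Fin r)} (h : Cq K T) : InA K T :=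
  fun s hs t ht _ _ h1 _ => Or.inl (by_contra fun e => h1 (h s hs t ht e))

/-- cosets of special subgroups -/
abbrev Cos (p : Finset (Fin r) → Prop) : Type := Σ T : {T // p T}, RAC K ⧸ par K T.1

/-- the cubes -/
abbrev XX : Type := Cos K (Cq K)

/-- the cubes and the flats -/
abbrev YY : Type := Cos K (InA K)

/-- the coset of `1` -/
def ptX (T : Finset (Fin r)) : XX K :=
  if h : Cq K T then ⟨⟨T, h⟩, (1 : RAC K)⟩ else ⟨⟨∅, cq_empty K⟩, (1 : RAC K)⟩

/-- the coset of `1` -/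
def ptY (T : Finset (Fin r)) : YY K :=
  if h : InA K T then ⟨⟨T, h⟩, (1 : RAC K)⟩ else ⟨⟨∅, (cq_empty K).inA⟩, (1 : RAC K)⟩

/-- the inclusion -/
def inc (x : XX K) : YY K := ⟨⟨x.1.1, x.1.2.inA⟩, x.2⟩

theorem inc_smul (g : RAC K) (x : XX K) : inc K (g • x) = g • inc K x := rfl

variable {K} in
theorem inc_pt {T : Finset (Fin r)} (h : Cq K T) : inc K (ptX K T) = ptY K T := by
  rw [ptX, ptY, dif_pos h, dif_pos h.inA]; rfl

/-- lists of cliques -/
def Cl (I : List (Finset (Fin r))) : Prop := ∀ σ ∈ I, Cq K σ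

/-- lists of cliques with a common vertex -/
def Na (I : List (Finset (Fin r))) : Prop := Cl K I ∧ ∃ t, ∀ σ ∈ I, t ∈ σ

/-- lists of cliques with two opposite parts -/
def Nb (I : List (Finset (Fin r))) : Prop := Cl K I ∧ ∃ ρ μ : Finset (Fin r), ρ.Nonempty ∧
  μ.Nonempty ∧ Disjoint ρ μ ∧ ∀ σ ∈ I, (σ ∩ (ρ ∪ μ) = ρ ∨ σ ∩ (ρ ∪ μ) = μ) ∧
    ∀ s ∈ σ, s ∉ ρ ∪ μ → ∀ t ∈ ρ ∪ μ, K.Adj s t

/-- the recurrent lists -/
def Ns (I : List (Finset (Fin r))) : Prop := Na K I ∨ Nb K I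

/-- cocycles on lists of cliques of length `k` which vanish on the lists with property `p` -/
structure Coc (p : List (Finset (Fin r)) → Prop) (k : ℕ) (ψ : List (Finset (Fin r)) → ℝ) :
    Prop where
  van : ∀ I, I.length = k → p I → ψ I = 0
  coc : ∀ I, I.length = k + 1 → Cl K I → ev ψ (bdZ (sx I)) = 0

/-- The descent relation: `D s g` says that `s` is a left descent of `g`. The half-spaces are the
sets `{y | D t (g * y)}`. -/
structure Desc where
  D : Fin r → RAC K → Prop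
  one : ∀ s, ¬D s 1
  flip : ∀ s g, D s (gn K s * g) ↔ ¬D s g
  comm : ∀ s t g, K.Adj s t → (D s (gn K t * g) ↔ D s g)
  clq : ∀ s t g, D s g → D t g → s ≠ t → K.Adj s t
  ind : ∀ P : RAC K → Prop, P 1 → (∀ s g, ¬D s g → P g → P (gn K s * g)) → ∀ g, P g
  edge : ∀ s t g, ¬D t g → D t (g * gn K s) → ∀ y, D t (g * y) ↔ D s y
  nest : ∀ s t g, ¬K.Adj s t → ∀ x₁ x₂ x₃ x₄, D s x₁ → D t (g * x₁) → D s x₂ → ¬D t (g * x₂) →
    ¬D s x₃ → D t (g * x₃) → ¬D s x₄ → ¬D t (g * x₄) → False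

variable {K} (d : Desc K)

/-- the descent set -/
def Desc.ds (g : RAC K) : Finset (Fin r) := univ.filter fun s => d.D s g

/-- the labels of the walls between `1` and `x` -/
def Desc.Us (x : RAC K) : Set (Fin r) := {t | ∃ g, ¬d.D t g ∧ d.D t (g * x)}

/-- the local list of a list of vertices -/
def Desc.lv (l : List (RAC K)) (v : RAC K) : List (Finset (Fin r)) :=
  l.map fun x => d.ds (v⁻¹ * x)

/-- the local simplex of a cube -/
def Desc.sg (x : XX K) (v : RAC K) : Finset (Fin r) :=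
  univ.filter fun s => ∃ y : RAC K, (y : RAC K ⧸ par K x.1.1) = x.2 ∧ d.D s (v⁻¹ * y)

/-- the local list of a list of cubes -/
def Desc.lc (l : List (XX K)) (v : RAC K) : List (Finset (Fin r)) := l.map fun x => d.sg x v

/-- the cochain on lists of cubes given by a local cochain -/
def Desc.cps (ψ : List (Finset (Fin r)) → ℝ) (l : List (XX K)) : ℝ :=
  ∑ᶠ v, ((sgnW K v : ℤ) : ℝ) * ψ (d.lc l v)

theorem Desc.mem_ds {s : Fin r} {g : RAC K} : s ∈ d.ds g ↔ d.D s g := by simp [Desc.ds]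

theorem Desc.cq_ds (g : RAC K) : Cq K (d.ds g) :=
  fun s hs t ht => d.clq s t g (d.mem_ds.1 hs) (d.mem_ds.1 ht)

theorem Desc.ex {g : RAC K} (h : g ≠ 1) : ∃ s, d.D s g :=
  (d.ind (fun g => g = 1 ∨ ∃ s, d.D s g) (Or.inl rfl)
    (fun s g h _ => Or.inr ⟨s, (d.flip s g).2 h⟩) g).resolve_left h

/-- the other orientation of `edge` -/
theorem Desc.edge' {s t : Fin r} {g : RAC K} (h1 : d.D t g) (h2 : ¬d.D t (g * gn K s))
    (y : RAC K) : d.D t (g * y) ↔ ¬d.D s y := by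
  rw [← d.edge s t (gn K t * g) (by rwa [d.flip, not_not]) (by rwa [mul_assoc, d.flip]) y,
    mul_assoc, d.flip, not_not]

/-! ### The local cocycle of a facet -/

/-- the product of the jumps of the indicators -/
def jump : List (Fin r) → List (Finset (Fin r)) → ℝ
  | [], _ => 1
  | s :: l, σ :: τ :: I => ((if s ∈ τ then 1 else 0) - if s ∈ σ then 1 else 0) * jump l (τ :: I)
  | _ :: _, _ => 0

/-! ### The carriers -/

variable (K)

/-- the non-edge graph on `C` is connected and has an edge -/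
def Con (C : Finset (Fin r)) : Prop := (∃ p ∈ C, ∃ q ∈ C, p ≠ q ∧ ¬K.Adj p q) ∧
  ∀ C' ⊆ C, C'.Nonempty → (∀ s ∈ C', ∀ t ∈ C, ¬K.Adj s t → t ∈ C') → C' = C

/-- a chosen non-edge -/
def ed (C : Finset (Fin r)) : Finset (Fin r) :=
  if h : ∃ e : Finset (Fin r), ∃ p ∈ C, ∃ q ∈ C, p ≠ q ∧ ¬K.Adj p q ∧ e = {p, q} then h.choose
  else ∅

variable {K} in
theorem Con.ed_spec {C : Finset (Fin r)} (h : Con K C) :
    ∃ p ∈ C, ∃ q ∈ C, p ≠ q ∧ ¬K.Adj p q ∧ ed K C = {p, q} := by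
  obtain ⟨p, hp, q, hq, h1, h2⟩ := h.1
  have e : ∃ e : Finset (Fin r), ∃ p ∈ C, ∃ q ∈ C, p ≠ q ∧ ¬K.Adj p q ∧ e = {p, q} :=
    ⟨_, p, hp, q, hq, h1, h2, rfl⟩
  rw [ed, dif_pos e]
  exact e.choose_spec

/-- a component of the non-edge graph with exactly two traces -/
structure Pair (I : List (Finset (Fin r))) (ρ μ : Finset (Fin r)) : Prop where
  dis : Disjoint ρ μ
  ex₁ : ∃ σ ∈ I, σ ∩ (ρ ∪ μ) = ρ
  ex₂ : ∃ σ ∈ I, σ ∩ (ρ ∪ μ) = μ
  all : ∀ σ ∈ I, σ ∩ (ρ ∪ μ) = ρ ∨ σ ∩ (ρ ∪ μ) = μ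
  adj : ∀ σ ∈ I, ∀ s ∈ σ, s ∉ ρ ∪ μ → ∀ t ∈ ρ ∪ μ, K.Adj s t
  con : Con K (ρ ∪ μ)

/-- the simplices of the carrier -/
def Phi (I : List (Finset (Fin r))) : Set (Finset (Fin r)) :=
  {T | InA K T ∧ (∀ s ∈ T, ∃ σ ∈ I, s ∈ σ) ∧ ∀ ρ μ, Pair K I ρ μ →
    T ∩ (ρ ∪ μ) ⊆ ρ ∨ T ∩ (ρ ∪ μ) ⊆ μ ∨ T ∩ (ρ ∪ μ) = ed K (ρ ∪ μ)}

/-- lists of simplices with a common vertex -/
def Dw (Φ : Set (Finset (Fin r))) (l : List (Finset (Fin r))) : Prop :=
  (∀ T ∈ l, T ∈ Φ) ∧ ∃ t, ∀ T ∈ l, t ∈ T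

/-- the lists with property `p` form an acyclic augmented complex -/
def Acy {X : Type} (p : List X → Prop) : Prop :=
  ∀ k, ∀ u ∈ On fun l => p l ∧ l.length = k, bdZ u = 0 →
    ∃ u' ∈ On fun l => p l ∧ l.length = k + 1, bdZ u' = u

/-! ### The reflection representation -/

/-- the bilinear form on the basis -/
def bf (s t : Fin r) : ℤ := if s = t then 1 else if K.Adj s t then 0 else -1

/-- the reflection -/
def rf (s : Fin r) : Module.End ℤ (Fin r → ℤ) where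
  toFun x := x - (2 * ∑ t, bf K s t * x t) • Pi.single s 1
  map_add' x y := by
    simp only [Pi.add_apply, mul_add, sum_add_distrib, add_smul]; abel
  map_smul' m x := by
    simp only [Pi.smul_apply, smul_eq_mul, RingHom.id_apply, smul_sub, smul_smul, mul_sum]
    congr 3
    funext t
    ring

/-- a representation by the reflections in which every root is positive or negative -/
structure Rep where
  ρ : RAC K →* Module.End ℤ (Fin r → ℤ)
  gen : ∀ s, ρ (gn K s) = rf K s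
  dich : ∀ g s, 0 ≤ ρ g (Pi.single s 1) ∨ ρ g (Pi.single s 1) ≤ 0
  clq : ∀ g s t, ρ g (Pi.single s 1) ≤ 0 → ρ g (Pi.single t 1) ≤ 0 → s ≠ t → K.Adj s t
  ind : ∀ P : RAC K → Prop, P 1 →
    (∀ s g, 0 ≤ ρ g (Pi.single s 1) → P g → P (g * gn K s)) → ∀ g, P g

end

end Pool.Agent.P.MP_f30597_gt.DV
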