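import Pool.Agent.P.MP_f30597_gt.DV.Base

/-! Statements of the steps. -/

namespace Pool.Agent.P.MP_f30597_gt.DV

open Finset SI CP
open scoped Classical

noncomputable section

/-! ### The Coxeter group -/

-- deps:
def S_REP : Prop := ∀ (r : ℕ) (K : SimpleGraph (Fin r)), Nonempty (Rep K)

-- deps:
def S_NEST : Prop := ∀ (r : ℕ) (K : SimpleGraph (Fin r)) (R : Rep K) (s t : Fin r) (u : RAC K),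
  ¬K.Adj s t → ∀ x₁ x₂ x₃ x₄ : RAC K,
    R.ρ x₁ (Pi.single s 1) ≤ 0 → R.ρ (x₁ * u) (Pi.single t 1) ≤ 0 →
    R.ρ x₂ (Pi.single s 1) ≤ 0 → 0 ≤ R.ρ (x₂ * u) (Pi.single t 1) →
    0 ≤ R.ρ x₃ (Pi.single s 1) → R.ρ (x₃ * u) (Pi.single t 1) ≤ 0 →
    0 ≤ R.ρ x₄ (Pi.single s 1) → 0 ≤ R.ρ (x₄ * u) (Pi.single t 1) → False

-- deps: REP NEST
def S_DESC : Prop := ∀ (r : ℕ) (K : SimpleGraph (Fin r)), Nonempty (Desc K)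

-- deps: REP
-- imports: Pool.Agent.P.MP_f30597_gt.CP.TSOFIC
def S_SOFW : Prop := ∀ (r : ℕ) (K : SimpleGraph (Fin r)) (G : Subgroup (RAC K)), IsSofic G

-- deps:
def S_HULL : Prop := ∀ (r : ℕ) (K : SimpleGraph (Fin r)) (d : Desc K) (x : RAC K)
  (U : Set (Fin r)), (∀ t ∈ U, ∀ s ∈ d.Us x, ¬K.Adj t s → s ∈ U) →
  ∀ (g : RAC K) (t : Fin r), t ∈ U → ¬d.D t g → d.D t (g * x) →
    ∃ s ∈ U, ∀ y, d.D t (g * y) → d.D s y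

-- deps:
def S_CUBE : Prop := ∀ (r : ℕ) (K : SimpleGraph (Fin r)) (d : Desc K),
  (∀ (x : XX K) (v : RAC K), ∃ U, d.sg x v = d.ds (v⁻¹ * (x.2.out * wU K U))) ∧
  (∀ T, Cq K T → d.sg (ptX K T) 1 = T ∧ ∀ v, d.ds v⁻¹ ⊆ d.sg (ptX K T) v) ∧
  (∀ (g : RAC K) (x : XX K) (v : RAC K), d.sg (g • x) (g * v) = d.sg x v) ∧
  ∀ T, Cq K T → ∀ w ∈ par K T, w * w = 1

-- deps: HULL
def S_FINH : Prop := ∀ (r : ℕ) (K : SimpleGraph (Fin r)) (d : Desc K) (l : List (RAC K)),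
  l ≠ [] → {v | ¬Na K (d.lv l v)}.Finite

-- deps:
def S_PAIR : Prop := ∀ (r : ℕ) (K : SimpleGraph (Fin r)) (d : Desc K) (l : List (RAC K))
  (v v' : RAC K), d.lv l v = d.lv l v' → ¬Na K (d.lv l v) →
  (∀ s, d.D s (v⁻¹ * v') → ¬d.D s (v'⁻¹ * v)) ∧
  ∀ σ ∈ d.lv l v, ∀ s ∈ σ, d.D s (v⁻¹ * v') ∨ d.D s (v'⁻¹ * v) ∨
    ∀ t ∈ d.Us (v⁻¹ * v'), K.Adj s t

-- deps: HULL
def S_SEG : Prop := ∀ (r : ℕ) (K : SimpleGraph (Fin r)) (d : Desc K) (N : ℕ) (v : ℕ → RAC K),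
  (∀ i j k, i < j → j < k → k ≤ N → ∀ s, d.D s ((v j)⁻¹ * v i) → ¬d.D s ((v j)⁻¹ * v k)) →
  ∀ i j, i < j → j < N → ∀ (s t : Fin r) (g h : RAC K), ¬K.Adj s t →
    ¬d.D s (g * v i) → d.D s (g * v (i + 1)) → ¬d.D t (h * v j) → d.D t (h * v (j + 1)) →
    ∀ y, d.D t (h * y) → d.D s (g * y)

-- deps: HULL SEG
def S_HOM : Prop := ∀ (r : ℕ) (K : SimpleGraph (Fin r)) (d : Desc K), ∃ N : ℕ, 0 < N ∧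
  ∀ (v : ℕ → RAC K) (F B U : Set (Fin r)) (l : List (RAC K)), v 0 ≠ v 1 → Disjoint F B →
  (∀ i j, i < j → j ≤ N → {s | d.D s ((v i)⁻¹ * v j)} = F ∧ {s | d.D s ((v j)⁻¹ * v i)} = B ∧
    d.Us ((v i)⁻¹ * v j) = U) → (∀ i ≤ N, d.lv l (v i) = d.lv l (v 0)) →
  (∀ σ ∈ d.lv l (v 0), ∀ s ∈ σ, s ∈ F ∨ s ∈ B ∨ ∀ t ∈ U, K.Adj s t) → Nb K (d.lv l (v 0))

-- deps: PAIR HOM
-- imports: Pool.Agent.P.MP_61d55c_co.Ramsey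
def S_REC : Prop := ∀ (r : ℕ) (K : SimpleGraph (Fin r)) (d : Desc K) (m : ℕ), ∃ B : ℕ,
  ∀ l : List (RAC K), l.length = m → ∀ A : Finset (RAC K), (∀ v ∈ A, ¬Ns K (d.lv l v)) →
    A.card ≤ B

-- deps: CUBE FINH
def S_CPA : Prop := ∀ (r : ℕ) (K : SimpleGraph (Fin r)) (d : Desc K) (n : ℕ)
  (ψ : List (Finset (Fin r)) → ℝ), Coc K (Na K) (n + 1) ψ →
  (∀ (g : RAC K) (l : List (XX K)),
    d.cps ψ (l.map (g • ·)) = ((sgnW K g : ℤ) : ℝ) * d.cps ψ l) ∧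
  (∀ u ∈ Ln (n + 2), ev (d.cps ψ) (bdZ u) = 0) ∧
  ∀ u ∈ On fun I => Cl K I ∧ I.length = n,
    ev (d.cps ψ) (mp (ptX K) (cons ∅ u)) = ev ψ (cons ∅ u)

-- deps: CUBE REC
def S_CPB : Prop := ∀ (r : ℕ) (K : SimpleGraph (Fin r)) (d : Desc K) (k : ℕ)
  (ψ : List (Finset (Fin r)) → ℝ), (∀ I, I.length = k → Ns K I → ψ I = 0) →
  ∃ M : ℝ, ∀ l : List (XX K), l.length = k → |d.cps ψ l| ≤ M

-- deps:
def S_JUMP : Prop := ∀ (r : ℕ) (K : SimpleGraph (Fin r)) (n : ℕ) (l : List (Fin r)),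
  K.CliqueFree (n + 1) → l.length = n → l.Pairwise K.Adj → Coc K (Na K) (n + 1) (jump l)

-- deps:
def S_SUBD : Prop := ∀ (r : ℕ) (K : SimpleGraph (Fin r)) (n : ℕ) (a : Bar (Fin r)), 0 < n →
  IsTopCycle K n a → ∃ β ∈ On fun I => Na K I ∧ I.length = n, bdZ β = 0 ∧
    ∃ l ∈ a.support, ev (jump l) (cons ∅ β) ≠ 0

/-! ### Chains -/

-- deps:
def S_LIN : Prop := ∀ (M : Type) [AddCommGroup M] (S : Submodule ℤ M) (b : M),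
  (∀ f : M →ₗ[ℤ] ℝ, (∀ x ∈ S, f x = 0) → f b = 0) → ∃ m : ℤ, m ≠ 0 ∧ m • b ∈ S

-- deps:
def S_ACT : Prop := ∀ (X : Type) (p p₀ : List X → Prop) (Ψ : List X → List X → Prop),
  p₀ [] → (∀ I, p₀ I → p I ∧ Ψ I I) → (∀ I, p I → ∀ i, p (I.eraseIdx i)) →
  (∀ I, p₀ I → ∀ i, p₀ (I.eraseIdx i)) → (∀ I, p I → ∀ i l, Ψ (I.eraseIdx i) l → Ψ I l) →
  (∀ I, p I → I ≠ [] → Acy (Ψ I)) → ∃ ξ : Bar X →ₗ[ℤ] Bar X,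
    (∀ I, p I → ξ (sx I) ∈ On fun l => Ψ I l ∧ l.length = I.length) ∧
    (∀ u ∈ On p, bdZ (ξ u) = ξ (bdZ u)) ∧ ∀ u ∈ On p₀, ξ u = u

-- deps:
-- imports: Pool.Agent.P.MP_f30597_gt.CP.TPRISM
def S_CONT : Prop := ∀ (r : ℕ) (Φ : Set (Finset (Fin r))),
  (∀ f g : Finset (Fin r) → Finset (Fin r), (∀ T ∈ Φ, f T ⊆ g T ∧ g T ∈ Φ) →
    (∀ l, Dw Φ l → Dw Φ (l.map f)) → ∀ k, ∀ u ∈ On fun l => Dw Φ l ∧ l.length = k, bdZ u = 0 →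
      ∃ u' ∈ On fun l => Dw Φ l ∧ l.length = k + 1, bdZ u' = mp g u - mp f u) ∧
  ∀ (g : Finset (Fin r) → Finset (Fin r)) (t : Fin r), (∀ T ∈ Φ, g T ∈ Φ ∧ t ∈ g T) →
    (∃ T ∈ Φ, t ∈ T) → ∀ k, ∀ u ∈ On fun l => Dw Φ l ∧ l.length = k, bdZ u = 0 →
      ∃ u' ∈ On fun l => Dw Φ l ∧ l.length = k + 1, bdZ u' = mp g u

-- deps:
def S_PHI : Prop := ∀ (r : ℕ) (K : SimpleGraph (Fin r)) (I : List (Finset (Fin r))), Cl K I →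
  (∀ I', (∀ σ ∈ I', σ ∈ I) → Phi K I' ⊆ Phi K I) ∧ (∀ σ ∈ I, σ ∈ Phi K I) ∧
  (∀ t, (∃ σ ∈ I, t ∈ σ) → (∀ σ ∈ I, ∀ s ∈ σ, s ≠ t → K.Adj s t) →
    ∀ T ∈ Phi K I, insert t T ∈ Phi K I) ∧ ∅ ∈ Phi K I ∧
  ∀ ρ μ, Pair K I ρ μ → ∀ T ∈ Phi K I, ∀ Z, Z ⊆ ρ ∨ Z ⊆ μ ∨ Z = ed K (ρ ∪ μ) →
    T \ (ρ ∪ μ) ∪ Z ∈ Phi K I

-- deps:
def S_EXP : Prop := ∀ (r : ℕ) (K : SimpleGraph (Fin r)) (I : List (Finset (Fin r))), Ns K I →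
  I ≠ [] → (∃ t, (∃ σ ∈ I, t ∈ σ) ∧ ∀ σ ∈ I, ∀ s ∈ σ, s ≠ t → K.Adj s t) ∨
    ∃ ρ μ p q, Pair K I ρ μ ∧ p ∈ ρ ∧ q ∈ μ ∧ ed K (ρ ∪ μ) = {p, q}

-- deps: CONT PHI EXP
def S_ACY : Prop := ∀ (r : ℕ) (K : SimpleGraph (Fin r)) (I : List (Finset (Fin r))), Ns K I →
  I ≠ [] → Acy (Dw (Phi K I))

-- deps: ACT PHI ACY
def S_XI : Prop := ∀ (r : ℕ) (K : SimpleGraph (Fin r)), 0 < r →
  ∀ (k : ℕ) (y : Bar (Finset (Fin r))), (y ∈ On fun I => Ns K I ∧ I.length = k) →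
  bdZ y ∈ On (Na K) → ∃ x : Bar (YY K),
    (x ∈ On fun l => (∃ s, l.map (gn K s • ·) = l) ∧ l.length = k) ∧
    bdZ x = mp (ptY K) (bdZ y)

-- deps:
def S_TR : Prop := ∀ (W : Type) [Group W] (ε : W →* ℤˣ) (G : Subgroup W) [G.FiniteIndex]
  (X : Type) [MulAction W X], (∀ g ∈ G, ε g = 1) →
  (∀ u, bdZ (tf ε G X u) = tf ε G X (bdZ u)) ∧ (∀ k, ∀ u ∈ Ln k, tf ε G X u ∈ Ln k) ∧
  (∀ k, ∀ u ∈ On fun l => (∃ w, ε w = -1 ∧ l.map (w • ·) = l) ∧ l.length = k,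
    (2 : ℤ) • tf ε G X u ∈ Triv G X k) ∧
  (∀ ω : List X → ℝ, (∀ (w : W) (l : List X), ω (l.map (w • ·)) = ((ε w : ℤ) : ℝ) * ω l) →
    ∀ u, ev ω (tf ε G X u) = G.index * ev ω u) ∧
  ∀ (Y : Type) [MulAction W Y] (f : X → Y), (∀ (w : W) x, f (w • x) = w • f x) →
    ∀ u, mp f (tf ε G X u) = tf ε G Y (mp f u)

-- deps:
def S_FREE : Prop := ∀ (G X : Type) [Group G] [MulAction G X] (x₀ : X) (n : ℕ),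
  (∀ (g : G) (x : X), g • x = x → g = 1) → ∀ Z ∈ Ln (n + 1), bdZ Z ∈ Triv G X n →
  ∃ z ∈ Len (G := G) (n + 1), co (bd z) = 0 ∧ Z - mp (fun g : G => g • x₀) z ∈ Nul G X (n + 1)

-- deps:
def S_GEN : Prop := ∀ (G : Type) [Group G] (n : ℕ) (z₀ z : Bar G) (ω : List G → ℝ),
  IsFundCycle n z₀ → z ∈ Len (G := G) (n + 1) → co (bd z) = 0 → (∀ g l, ω (tr g l) = ω l) →
  (∀ u ∈ Len (G := G) (n + 2), ev ω (bdZ u) = 0) → ev ω z ≠ 0 → ∃ k : ℤ, k ≠ 0 ∧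
    ∀ z' ∈ Len (G := G) (n + 1), co (bd z') = 0 → ∃ k' : ℤ, k • z' - k' • z ∈ Nul G G (n + 1)

-- deps:
-- imports: Pool.Agent.P.MP_f30597_gt.CP.TAMEN
def S_VAM : Prop := ∀ (H : Type) [Group H] (A : Subgroup H), A.FiniteIndex →
  (∀ a ∈ A, ∀ b ∈ A, a * b = b * a) → IsAmenable H

-- deps:
def S_VAB : Prop := ∀ (r : ℕ) (K : SimpleGraph (Fin r)) (T : Finset (Fin r)), InA K T →
  ∃ A : Subgroup (par K T), A.FiniteIndex ∧ ∀ a ∈ A, ∀ b ∈ A, a * b = b * a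

-- deps: VAM VAB CUBE DESC
def S_STAB : Prop := ∀ (r : ℕ) (K : SimpleGraph (Fin r)) (G : Subgroup (RAC K)),
  (∀ y : YY K, IsAmenable (MulAction.stabilizer G y)) ∧
  ((∀ g ∈ G, IsOfFinOrder g → g = 1) → ∀ (g : G) (x : XX K), g • x = x → g = 1)

-- deps: DESC CPA CPB JUMP SUBD LIN XI TR FREE GEN STAB
-- imports: Pool.Agent.P.MP_f30597_gt.CP.TFIN
def S_KQ : Prop := ∀ (r : ℕ) (K : SimpleGraph (Fin r)) (n : ℕ) (a : Bar (Fin r))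
  (G : Subgroup (RAC K)), 0 < n → K.CliqueFree (n + 1) → IsTopCycle K n a → G.FiniteIndex →
  (∀ g ∈ G, IsOfFinOrder g → g = 1) → (∀ g ∈ G, sgnW K g = 1) → SimplicialVolumeZero G n →
  KillsQ G (ptY K ∅) n

end

end Pool.Agent.P.MP_f30597_gt.DV
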