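import Pool.Agent.P.MP_f30597_gt.SI.Cover
import Pool.Agent.P.MP_f30597_gt.DV.Base

/-! Statements of the steps on the L2-Betti numbers. -/

namespace Pool.Agent.P.MP_f30597_gt.DV

open Finset Matrix Filter MeasureTheory SI SI.Par

noncomputable section

/-- On the models, `m` times the identity is approximately homotopic to a map of small rank. -/
def DataQ {G ι : Type} [Group G] [Fintype ι] [DecidableEq ι] (S : Sof G)
    (c : Matrix ι ι (ZG G)) (m : ℤ) (δ : ℝ) : Prop :=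
  ∃ A h : S.Mat ι ι,
    S.Neg (fun i => A i - (m : ℝ) • 1 - (h i * mdl (S.act i) c + mdl (S.act i) c * h i)) ∧
    ∀ᶠ i in S.l, ((A i).rank : ℝ) ≤ δ * S.N i

/-- a parametrised cycle in the class of `m` times the fundamental cycle -/
structure PFQ {G ι : Type} [Group G] [Fintype ι] [DecidableEq ι] {P : Par G}
    (Ψ : Bar G →ₗ[ZG G] (ι → ZG G)) (n : ℕ) (w' : ι → ℤ) (m : ℤ) (z : P.Fn (Bar G)) : Prop where
  len : ∀ x, z.1 x ∈ Len (n + 1)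
  ex : ∃ (z₀ : Bar G) (u : P.Fn (Bar G)), co (bd z₀) = 0 ∧
    (∀ a, eps (Ψ z₀ a) = m * w' a) ∧ (∀ x, u.1 x ∈ Len (n + 2)) ∧
    ∀ Φ : P.Fn (Bar G) →+ P.Fn (Bar G), (∀ (g : G) y, Φ (el g • y) = Φ y) →
      Φ z = Φ (cn z₀) + Φ (mapL bdL u)

-- deps:
def S_QA : Prop := ∀ (G ι : Type) [Group G] [Fintype ι] [DecidableEq ι] (P : Par G)
  (deg : ι → ℕ) (c : Matrix ι ι (ZG G)) (w w' : ι → ℤ) (n : ℕ) (m : ℤ)
  (Ψ : Bar G →ₗ[ZG G] (ι → ZG G)) (z : P.Fn (Bar G)), IsResolution deg c w → (∀ a, deg a ≤ n) →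
  IsResolution (fun a => n - deg a) (cst c) w' → IsPsi deg c w Ψ → PFQ Ψ n w' m z →
  ∃ β : ι → P.Fn (Bar G), ∀ a, (∀ x, (β a).1 x ∈ Len (deg a + 1)) ∧
    mapL bdL (β a) = (m * w a) • cn (sx []) + ∑ b, c a b • β b ∧ β a ∈ AdmM z

-- deps: QA
def S_QB : Prop := ∀ (G ι : Type) [Group G] [DecidableEq G] [Fintype ι] [DecidableEq ι]
  (P : Par G) (deg : ι → ℕ) (c : Matrix ι ι (ZG G)) (w w' : ι → ℤ) (n : ℕ) (m : ℤ)
  (Ψ : Bar G →ₗ[ZG G] (ι → ZG G)) (z : P.Fn (Bar G)) (δ ε : ℝ), IsResolution deg c w →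
  (∀ a, deg a ≤ n) → IsResolution (fun a => n - deg a) (cst c) w' → IsPsi deg c w Ψ →
  PFQ Ψ n w' m z → 0 ≤ δ → 0 < ε →
  (∀ᶠ i in P.S.l, (∑ v, ((z.1 (P.π i v)).support.card : ℝ)) ≤ δ * P.S.N i) →
  DataQ P.S c m (2 ^ (n + 1) * (δ + 2 * ε))

-- deps: QB
def S_QC : Prop := ∀ (G ι Y : Type) [Group G] [Fintype ι] [DecidableEq ι] [MulAction G Y]
  (_ : Sof G) (deg : ι → ℕ) (c : Matrix ι ι (ZG G)) (w w' : ι → ℤ) (n : ℕ) (y : Y),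
  IsResolution deg c w → (∀ a, deg a ≤ n) → 0 < n →
  IsResolution (fun a => n - deg a) (cst c) w' →
  (∀ s : Y, IsAmenable (MulAction.stabilizer G s)) → KillsQ G y n →
  ∀ δ : ℝ, 0 < δ → ∃ (S : Sof G) (m : ℤ), m ≠ 0 ∧ DataQ S c m δ

-- deps:
-- imports: Pool.Agent.P.MP_f30597_gt.FIN2 Pool.Agent.P.MP_f30597_gt.CORE Pool.Agent.P.MP_f30597_gt.DP
def S_QD : Prop := ∀ (G ι : Type) [Group G] [Fintype ι] [DecidableEq ι] (S : Sof G)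
  (deg : ι → ℕ) (c : Matrix ι ι (ZG G)) (m : ℤ) (δ : ℝ) (μ : Measure ℝ) (B : ℝ) (p : ℕ),
  (∀ a b, c a b ≠ 0 → deg a = deg b + 1) → c * c = 0 → m ≠ 0 → DataQ S c m δ →
  (Mom μ B fun j => wtr (ind deg p) ((c * cst c + cst c * c) ^ j)) → μ.real {0} ≤ δ

end

end Pool.Agent.P.MP_f30597_gt.DV
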