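import Pool.Agent.P.MP_f30597_gt.CORE
import Pool.Agent.P.MP_f30597_gt.FIN2
import Pool.Agent.P.MP_f30597_gt.DP
import Pool.Agent.P.MP_f30597_gt.MEAS3
import Pool.Agent.P.MP_f30597_gt.SI.Cap

/-! Statements of the steps on the L2-torsion in even dimension. -/

namespace Pool.Agent.P.MP_f30597_gt.DV

open Matrix Finset Filter MeasureTheory SI
open scoped Matrix.Norms.L2Operator

noncomputable section

section

variable {I : Type} [Fintype I] [DecidableEq I]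

/-- the cut-off projection -/
def pp (B : ℝ) (D : Matrix I I ℝ) : Matrix I I ℝ := fc (chi (1 / B)) (Dᴴ * D + D * Dᴴ)

/-- the cut-off Green operator -/
def gg (B : ℝ) (D : Matrix I I ℝ) : Matrix I I ℝ := fc (gr (1 / B)) (Dᴴ * D + D * Dᴴ)

/-- the cut-off involution -/
def TT (B : ℝ) (D : Matrix I I ℝ) : Matrix I I ℝ := D * pp B D + Dᴴ * gg B D

/-- the cut-off torsion -/
def tau (B : ℝ) (D e : Matrix I I ℝ) : ℝ :=
  (e * fc (fl (1 / B)) (D * Dᴴ)).trace - (e * fc (fl (1 / B)) (Dᴴ * D)).trace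

/-- the projection to the degrees of one parity -/
structure Ev (dI : I → ℕ) (e : Matrix I I ℝ) : Prop where
  herm : eᴴ = e
  idem : e * e = e
  int : IsInt e
  nrm : ‖e‖ ≤ 1
  deg : Deg dI dI 0 e
  even : ∀ Z : Matrix I I ℝ, Deg dI dI 0 Z ∨ Deg dI dI 2 Z → e * Z = Z * e
  odd : ∀ Z : Matrix I I ℝ, Deg dI dI 1 Z ∨ Deg dI dI (-1) Z → e * Z = Z - Z * e

end

/-- a chain map from `d` to `d'` with a contraction of its mapping cone, up to rank `r` -/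
structure Cone {X : Type} [Fintype X] [DecidableEq X] (d d' φ a b ψ f : Matrix X X ℝ) (r : ℕ) :
    Prop where
  ch : (d * φ - φ * d').rank ≤ r
  e₁ : (φ * ψ - (d * a + a * d) - 1).rank ≤ r
  e₂ : (φ * f + a * φ + b * d' - d * b).rank ≤ r
  e₃ : (d' * ψ - ψ * d).rank ≤ r
  e₄ : (ψ * φ + (d' * f + f * d') - 1).rank ≤ r

-- deps:
def S_E1 : Prop := ∀ k : ℕ, ∃ j : ℕ, ∀ (I : Type) [Fintype I] [DecidableEq I] (dI : I → ℕ)
  (D e W W' Ξ : Matrix I I ℝ) (B : ℝ) (r : ℕ), 2 ≤ B → Ev dI e → D * D = 0 → Deg dI dI (-1) D →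
  Bd B 2 D → Bd B k W → Bd B k W' → Bd B k Ξ → IsInt Ξ → Ξ * e = Ξ → W' * W = 1 → W.det = 1 →
  pp B D * e * (W - 1) = W - 1 → (Ξ - TT B D * e * W).rank ≤ r →
  tau B D e ≤ j * ((r + (1 - pp B D).rank) * Real.log B)

-- deps:
def S_E2 : Prop := ∀ n k : ℕ, ∃ j : ℕ, ∀ (I : Type) [Fintype I] [DecidableEq I] (dI : I → ℕ)
  (D e γ : Matrix I I ℝ) (B : ℝ) (r : ℕ), (∀ x, dI x ≤ n) → 2 ≤ B → Ev dI e → D * D = 0 →
  Deg dI dI (-1) D → Deg dI dI 1 γ → Bd B 2 D → Bd B k γ → (D * γ + γ * D - 1).rank ≤ r →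
  ∃ U U' : Matrix I I ℝ, U' * U = 1 ∧ U.det = 1 ∧ pp B D * e * (U - 1) = U - 1 ∧ Bd B j U ∧
    Bd B j U' ∧ ((D + γ) * e - TT B D * e * U).rank ≤ r + 2 * (1 - pp B D).rank

-- deps: E1 E2
def S_E3 : Prop := ∀ n : ℕ, ∃ j : ℕ, ∀ (I : Type) [Fintype I] [DecidableEq I] (dI : I → ℕ)
  (D F h e q : Matrix I I ℝ) (B : ℝ) (r : ℕ), (∀ x, dI x ≤ n) → 2 ≤ B → Ev dI e →
  Bd B 2 D → Bd B 2 F → Bd B 3 h → IsInt D → IsInt F → IsInt h → D * D = 0 →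
  Deg dI dI (-1) D → Deg dI dI (-1) F → Deg dI dI 1 h → q * D = D * q → q * Dᴴ = Dᴴ * q →
  q * F = F → F * q = 0 → (D * F + F * D).rank ≤ r →
  ((D + F) * h + h * (D + F) - 1).rank ≤ r →
  tau B D e ≤ j * ((r + (1 - pp B D).rank) * Real.log B)

-- deps: E3
def S_E4 : Prop := ∀ n : ℕ, Even n → ∃ j : ℕ, ∀ (X : Type) [Fintype X] [DecidableEq X]
  (dX : X → ℕ) (d φ a b ψ f : Matrix X X ℝ) (B : ℝ) (r : ℕ), (∀ x, dX x ≤ n) → 2 ≤ B →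
  ‖d‖ ≤ B → ‖φ‖ ≤ B → ‖a‖ ≤ B → ‖b‖ ≤ B → ‖ψ‖ ≤ B → ‖f‖ ≤ B →
  IsInt d → IsInt φ → IsInt a → IsInt b → IsInt ψ → IsInt f → d * d = 0 → Deg dX dX 1 d →
  Deg dX (fun x => n - dX x) 0 φ → Deg dX dX (-1) a → Deg dX (fun x => n - dX x) (-2) b →
  Deg (fun x => n - dX x) dX 0 ψ → Deg dX dX 1 f → Cone d dᴴ φ a b ψ f r → ∀ i : ℕ,
  (diagonal (fun x => (-1 : ℝ) ^ (dX x + i)) * fc (fl (1 / B)) (dᴴ * d)).trace ≤
    j * ((r + (1 - fc (chi (1 / B)) (d * dᴴ + dᴴ * d)).rank) * Real.log B)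

-- deps:
def S_E5 : Prop := ∀ (n j : ℕ) (X : Type) [Fintype X] [DecidableEq X] (dX : X → ℕ)
  (d : Matrix X X ℝ) (B : ℝ) (r : ℕ), (∀ x, dX x ≤ n) → 2 ≤ B → d * d = 0 → Deg dX dX 1 d →
  (∀ i : ℕ, (diagonal (fun x => (-1 : ℝ) ^ (dX x + i)) * fc (fl (1 / B)) (dᴴ * d)).trace ≤
    j * ((r + (1 - fc (chi (1 / B)) (d * dᴴ + dᴴ * d)).rank) * Real.log B)) →
  |∑ p ∈ range (n + 1), (-1) ^ p * (p : ℝ) *
      (diagonal (ind dX p) * fc (lg B) (d * dᴴ + dᴴ * d)).trace| ≤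
    (j + 2 * n + 1) * ((r + (fc (tent B) (d * dᴴ + dᴴ * d)).trace) * Real.log B)

-- deps:
def S_E6 : Prop := ∀ (G ι : Type) [Group G] [Fintype ι] [DecidableEq ι] (deg : ι → ℕ)
  (c : Matrix ι ι (ZG G)) (w w' : ι → ℤ) (n : ℕ), IsResolution deg c w → (∀ x, deg x ≤ n) →
  IsResolution (fun x => n - deg x) (cst c) w' → ∃ φ a b ψ f : Matrix ι ι (ZG G),
    (∀ x y, φ x y ≠ 0 → deg x + deg y = n) ∧ (∀ x y, a x y ≠ 0 → deg x + 1 = deg y) ∧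
    (∀ x y, b x y ≠ 0 → deg x + 2 + deg y = n) ∧ (∀ x y, ψ x y ≠ 0 → deg x + deg y = n) ∧
    (∀ x y, f x y ≠ 0 → deg x = deg y + 1) ∧ c * φ = φ * cst c ∧
    φ * ψ - (c * a + a * c) = 1 ∧ φ * f + a * φ + b * cst c = c * b ∧ cst c * ψ = ψ * c ∧
    ψ * φ + (cst c * f + f * cst c) = 1

-- deps: E4 E5 E6
def S_E7 : Prop := ∀ (G ι : Type) [Group G] [Fintype ι] [DecidableEq ι] (_ : Sof G)
  (deg : ι → ℕ) (c : Matrix ι ι (ZG G)) (w w' : ι → ℤ) (n : ℕ) (μ : ℕ → Measure ℝ) (K : ℕ → ℝ),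
  Even n → IsResolution deg c w → (∀ x, deg x ≤ n) →
  IsResolution (fun x => n - deg x) (cst c) w' →
  (∀ p, Mom (μ p) (K p) fun j => wtr (ind deg p) ((c * cst c + cst c * c) ^ j)) →
  (∀ p, IntegrableOn Real.log (Set.Ioi 0) (μ p)) ∧ ((∀ p, (μ p).real {0} = 0) →
    ∑ p ∈ range (n + 1), (-1) ^ p * (p : ℝ) * ∫ t in Set.Ioi 0, Real.log t ∂μ p = 0)

end

end Pool.Agent.P.MP_f30597_gt.DV
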