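import Pool.Agent.P.MP_f30597_gt.DV.Iface

/-! Step ACT. -/

set_option autoImplicit false
set_option linter.unusedSectionVars false

namespace Pool.Agent.P.MP_f30597_gt.DV

open Finset SI CP
open scoped Classical

theorem p_ACT :
    S_ACT := by
  intro X p p₀ Ψ h0 h1 h2 h3 h4 h5
  obtain ⟨ξ, e0, e1⟩ := exists_rec (X := X) (sx ([] : List X)) fun l y =>
    if p₀ l then sx l else
      if h : ∃ u' ∈ On fun l' => Ψ l l' ∧ l'.length = l.length, bdZ u' = y then h.choose else 0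
  have key : ∀ I, p I → (ξ (sx I) ∈ On fun l => Ψ I l ∧ l.length = I.length) ∧
      bdZ (ξ (sx I)) = ξ (bdZ (sx I)) ∧ (p₀ I → ξ (sx I) = sx I) := by
    refine len_ind (fun _ => ⟨?_, ?_, fun _ => e0⟩) fun l hl ih hp => ?_
    · rw [e0]; exact sx_on ⟨(h1 _ h0).2, rfl⟩
    · rw [e0, bd_nil, map_zero]
    · by_cases hq : p₀ l
      · have e : ξ (sx l) = sx l := (e1 l hl).trans (if_pos hq)
        refine ⟨e.symm ▸ sx_on ⟨(h1 _ hq).2, rfl⟩, ?_, fun _ => e⟩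
        rw [e]
        exact (sub_eq_zero.1 (bd_sx_map (ξ - LinearMap.id) ⊥ fun i hi =>
          sub_eq_zero.2 ((ih i hi (h2 l hp i)).2.2 (h3 l hq i)))).symm
      · obtain ⟨k, hk⟩ := Nat.exists_eq_succ_of_ne_zero (mt List.length_eq_zero_iff.1 hl)
        have a1 : ξ (bdZ (sx l)) ∈ On fun l' => Ψ l l' ∧ l'.length = k :=
          bd_sx_map ξ _ fun i hi => on_mono (fun l' h' => ⟨h4 l hp i l' h'.1, by
            rw [h'.2, List.length_eraseIdx_of_lt hi, hk]; rfl⟩) (ih i hi (h2 l hp i)).1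
        have a2 : bdZ (ξ (bdZ (sx l))) = ξ (bdZ (bdZ (sx l))) :=
          sub_eq_zero.1 (bd_sx_map (bdZ ∘ₗ ξ - ξ ∘ₗ bdZ) ⊥ fun i hi =>
            sub_eq_zero.2 (ih i hi (h2 l hp i)).2.1)
        rw [bd_bd, map_zero] at a2
        have a3 : ∃ u' ∈ On fun l' => Ψ l l' ∧ l'.length = l.length,
            bdZ u' = ξ (bdZ (sx l)) := hk ▸ h5 l hp hl k _ a1 a2
        have e : ξ (sx l) = a3.choose := (e1 l hl).trans ((if_neg hq).trans (dif_pos a3))
        exact ⟨e.symm ▸ a3.choose_spec.1, e.symm ▸ a3.choose_spec.2, fun h => absurd h hq⟩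
  exact ⟨ξ, fun I hI => (key I hI).1,
    fun u hu => on_eq (bdZ ∘ₗ ξ) (ξ ∘ₗ bdZ) (fun l hl => (key l hl).2.1) hu,
    fun u hu => on_eq ξ LinearMap.id (fun l hl => (key l (h1 l hl).1).2.2 hl) hu⟩

end Pool.Agent.P.MP_f30597_gt.DV
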