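import Pool.Agent.P.MP_f30597_gt.DV.Iface

/-! Step ACY. -/

set_option autoImplicit false
set_option linter.unusedSectionVars false

namespace Pool.Agent.P.MP_f30597_gt.DV

open Finset SI CP
open scoped Classical

namespace ACYx

/-- the part of the image of `T` inside `ρ ∪ μ` -/
noncomputable def Zf {r : ℕ} (ρ μ A B T : Finset (Fin r)) : Finset (Fin r) :=
  if (T ∩ (ρ ∪ μ)).Nonempty ∧ T ∩ (ρ ∪ μ) ⊆ ρ then A
  else if (T ∩ (ρ ∪ μ)).Nonempty ∧ T ∩ (ρ ∪ μ) ⊆ μ then B else T ∩ (ρ ∪ μ)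

theorem zf_cases {r : ℕ} {ρ μ T E : Finset (Fin r)}
    (h : T ∩ (ρ ∪ μ) ⊆ ρ ∨ T ∩ (ρ ∪ μ) ⊆ μ ∨ T ∩ (ρ ∪ μ) = E) :
    (T ∩ (ρ ∪ μ) ⊆ ρ ∧ ∀ A B, Zf ρ μ A B T = A) ∨ (T ∩ (ρ ∪ μ) ⊆ μ ∧ ∀ A B, Zf ρ μ A B T = B) ∨
      ((T ∩ (ρ ∪ μ) = ∅ ∨ T ∩ (ρ ∪ μ) = E) ∧ ∀ A B, Zf ρ μ A B T = T ∩ (ρ ∪ μ)) := by
  by_cases h1 : (T ∩ (ρ ∪ μ)).Nonempty ∧ T ∩ (ρ ∪ μ) ⊆ ρ
  · exact Or.inl ⟨h1.2, fun A B => if_pos h1⟩
  by_cases h2 : (T ∩ (ρ ∪ μ)).Nonempty ∧ T ∩ (ρ ∪ μ) ⊆ μ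
  · exact Or.inr (Or.inl ⟨h2.2, fun A B => (if_neg h1).trans (if_pos h2)⟩)
  refine Or.inr (Or.inr ⟨?_, fun A B => (if_neg h1).trans (if_neg h2)⟩)
  rcases (T ∩ (ρ ∪ μ)).eq_empty_or_nonempty with e | e
  · exact Or.inl e
  rcases h with h | h | h
  · exact (h1 ⟨e, h⟩).elim
  · exact (h2 ⟨e, h⟩).elim
  · exact Or.inr h

theorem mp_id {X : Type} (u : Bar X) : mp id u = u :=
  all_eq (mp id) LinearMap.id (fun l => by rw [mp_sx, List.map_id]; rfl) u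

end ACYx

open ACYx in
theorem p_ACY (hCONT : S_CONT) (hPHI : S_PHI) (hEXP : S_EXP) :
    S_ACY := by
  intro r K I hI hne k u hu hb
  obtain ⟨-, -, P3, P4, P5⟩ := hPHI r K I (hI.elim (·.1) (·.1))
  obtain ⟨C1, C2⟩ := hCONT r (Phi K I)
  have hid : ∀ l, Dw (Phi K I) l → Dw (Phi K I) (l.map id) := fun l hl => by
    rwa [List.map_id]
  rcases hEXP r K I hI hne with ⟨t, h1, h2⟩ | ⟨ρ, μ, p, q, hP, hp, hq, he⟩
  · obtain ⟨u1, a1, b1⟩ := C1 id (insert t)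
      (fun T hT => ⟨subset_insert t T, P3 t h1 h2 T hT⟩) hid k u hu hb
    obtain ⟨u2, a2, b2⟩ := C2 (insert t) t
      (fun T hT => ⟨P3 t h1 h2 T hT, mem_insert_self t T⟩)
      ⟨_, P3 t h1 h2 ∅ P4, mem_insert_self t ∅⟩ k u hu hb
    refine ⟨u2 - u1, sub_mem a2 a1, ?_⟩
    rw [map_sub, b1, b2, mp_id]
    abel
  have Z := fun T (hT : T ∈ Phi K I) => zf_cases (he ▸ hT.2.2 ρ μ hP)
  have hg : ∀ A ⊆ ρ, ∀ B ⊆ μ, ∀ T ∈ Phi K I, T \ (ρ ∪ μ) ∪ Zf ρ μ A B T ∈ Phi K I := by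
    intro A hA B hB T hT
    refine P5 ρ μ hP T hT _ ?_
    rcases Z T hT with ⟨-, e⟩ | ⟨-, e⟩ | ⟨-, e⟩ <;> rw [e]
    · exact Or.inl hA
    · exact Or.inr (Or.inl hB)
    · exact hT.2.2 ρ μ hP
  have h3 : ∀ T ∈ Phi K I, T \ (ρ ∪ μ) ∪ {p, q} ∈ Phi K I := fun T hT =>
    P5 ρ μ hP T hT _ (Or.inr (Or.inr he.symm))
  have sp : ({p} : Finset (Fin r)) ⊆ ρ := singleton_subset_iff.2 hp
  have sq : ({q} : Finset (Fin r)) ⊆ μ := singleton_subset_iff.2 hq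
  have hd : ∀ l, Dw (Phi K I) l →
      Dw (Phi K I) (l.map fun T => T \ (ρ ∪ μ) ∪ Zf ρ μ {p} {q} T) := by
    rintro l ⟨hl, x, hx⟩
    refine ⟨fun S hS => ?_, ?_⟩
    · obtain ⟨T, hT, rfl⟩ := List.mem_map.1 hS
      exact hg _ sp _ sq T (hl T hT)
    by_cases hc : x ∈ ρ ∪ μ
    · have hm : ∀ T ∈ l, x ∈ T ∩ (ρ ∪ μ) := fun T hT => mem_inter.2 ⟨hx T hT, hc⟩
      rcases mem_union.1 hc with hr | hr
      · refine ⟨p, fun S hS => ?_⟩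
        obtain ⟨T, hT, rfl⟩ := List.mem_map.1 hS
        refine mem_union_right _ ?_
        rcases Z T (hl T hT) with ⟨-, e⟩ | ⟨i, -⟩ | ⟨i | i, e⟩
        · rw [e]; exact mem_singleton_self p
        · exact (disjoint_left.1 hP.dis hr (i (hm T hT))).elim
        · exact (notMem_empty x (i ▸ hm T hT)).elim
        · rw [e, i]; exact mem_insert_self _ _
      · refine ⟨q, fun S hS => ?_⟩
        obtain ⟨T, hT, rfl⟩ := List.mem_map.1 hS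
        refine mem_union_right _ ?_
        rcases Z T (hl T hT) with ⟨i, -⟩ | ⟨-, e⟩ | ⟨i | i, e⟩
        · exact (disjoint_left.1 hP.dis (i (hm T hT)) hr).elim
        · rw [e]; exact mem_singleton_self q
        · exact (notMem_empty x (i ▸ hm T hT)).elim
        · rw [e, i]; exact mem_insert_of_mem (mem_singleton_self q)
    · refine ⟨x, fun S hS => ?_⟩
      obtain ⟨T, hT, rfl⟩ := List.mem_map.1 hS
      exact mem_union_left _ (mem_sdiff.2 ⟨hx T hT, hc⟩)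
  obtain ⟨u1, a1, b1⟩ := C1 id (fun T => T \ (ρ ∪ μ) ∪ Zf ρ μ ρ μ T) (fun T hT => ⟨fun x hx => by
    by_cases hc : x ∈ ρ ∪ μ
    · refine mem_union_right _ ?_
      have hm : x ∈ T ∩ (ρ ∪ μ) := mem_inter.2 ⟨hx, hc⟩
      rcases Z T hT with ⟨i, e⟩ | ⟨i, e⟩ | ⟨-, e⟩ <;> rw [e]
      exacts [i hm, i hm, hm]
    · exact mem_union_left _ (mem_sdiff.2 ⟨hx, hc⟩), hg _ subset_rfl _ subset_rfl T hT⟩)
    hid k u hu hb
  obtain ⟨u2, a2, b2⟩ := C1 (fun T => T \ (ρ ∪ μ) ∪ Zf ρ μ {p} {q} T)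
    (fun T => T \ (ρ ∪ μ) ∪ Zf ρ μ ρ μ T) (fun T hT => ⟨union_subset_union_right (by
      rcases Z T hT with ⟨-, e⟩ | ⟨-, e⟩ | ⟨-, e⟩ <;> rw [e, e]
      exacts [sp, sq]), hg _ subset_rfl _ subset_rfl T hT⟩) hd k u hu hb
  obtain ⟨u3, a3, b3⟩ := C1 (fun T => T \ (ρ ∪ μ) ∪ Zf ρ μ {p} {q} T)
    (fun T => T \ (ρ ∪ μ) ∪ {p, q}) (fun T hT => ⟨union_subset_union_right (by
      rcases Z T hT with ⟨-, e⟩ | ⟨-, e⟩ | ⟨i | i, e⟩ <;> rw [e]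
      · simp
      · simp
      · rw [i]; exact empty_subset _
      · rw [i]), h3 T hT⟩) hd k u hu hb
  obtain ⟨u4, a4, b4⟩ := C2 (fun T => T \ (ρ ∪ μ) ∪ {p, q}) p
    (fun T hT => ⟨h3 T hT, mem_union_right _ (mem_insert_self _ _)⟩)
    ⟨_, h3 ∅ P4, mem_union_right _ (mem_insert_self _ _)⟩ k u hu hb
  refine ⟨u4 - u3 + u2 - u1, sub_mem (add_mem (sub_mem a4 a3) a2) a1, ?_⟩
  rw [map_sub, map_add, map_sub, b1, b2, b3, b4, mp_id]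
  abel

end Pool.Agent.P.MP_f30597_gt.DV
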