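import Pool.Agent.P.MP_f30597_gt.DV.Iface
import Pool.Agent.P.MP_f30597_gt.CP.TPRISM

/-! Step CONT. -/

set_option autoImplicit false
set_option linter.unusedSectionVars false

namespace Pool.Agent.P.MP_f30597_gt.DV

open Finset SI CP
open scoped Classical

theorem p_CONT :
    S_CONT := by
  intro r Φ
  refine ⟨fun f g hfg hf k u hu h0 => ?_, fun g t hg hT k u hu h0 => ?_⟩
  · obtain ⟨P, hP, hl⟩ := CP.p_PRISM _ _ f g
    refine ⟨P u, on_map P _ (fun l hl' => on_mono (fun l' h' => ?_) (hl l)) hu, ?_⟩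
    · obtain ⟨h1, t, ht⟩ := hf l hl'.1
      refine ⟨⟨fun T hT => ?_, t, fun T hT => ?_⟩, by rw [h'.1, hl'.2]⟩
      · obtain ⟨x, hx, rfl | rfl⟩ := h'.2 T hT
        · exact h1 _ (List.mem_map_of_mem hx)
        · exact (hfg x (hl'.1.1 x hx)).2
      · obtain ⟨x, hx, rfl | rfl⟩ := h'.2 T hT
        · exact ht _ (List.mem_map_of_mem hx)
        · exact (hfg x (hl'.1.1 x hx)).1 (ht _ (List.mem_map_of_mem hx))
    · have := hP u
      rwa [h0, map_zero, add_zero] at this
  · obtain ⟨T, hT, ht⟩ := hT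
    refine ⟨cons T (mp g u), cons_on
      (p := fun l => (∀ S ∈ l, S ∈ Φ ∧ t ∈ S) ∧ l.length = k) T (fun l hl => ?_)
      (mp_on g (fun l hl => ?_) hu), ?_⟩
    · refine ⟨⟨fun S hS => ?_, t, fun S hS => ?_⟩, by rw [List.length_cons, hl.2]⟩
      · rcases List.mem_cons.1 hS with rfl | hS
        · exact hT
        · exact (hl.1 S hS).1
      · rcases List.mem_cons.1 hS with rfl | hS
        · exact ht
        · exact (hl.1 S hS).2
    · refine ⟨fun S hS => ?_, by rw [List.length_map, hl.2]⟩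
      obtain ⟨x, hx, rfl⟩ := List.mem_map.1 hS
      exact hg x (hl.1.1 x hx)
    · rw [bd_cons, bd_mp, h0, map_zero, map_zero, sub_zero]

end Pool.Agent.P.MP_f30597_gt.DV
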