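import Pool.Agent.P.MP_f30597_gt.DV.Iface

/-! Step CPA. -/

set_option autoImplicit false
set_option linter.unusedSectionVars false

namespace Pool.Agent.P.MP_f30597_gt.DV

open Finset SI CP
open scoped Classical

namespace CPAx

variable {r : ℕ} {K : SimpleGraph (Fin r)} (d : Desc K)

theorem cl (hCUBE : S_CUBE) (l : List (XX K)) (v : RAC K) : Cl K (d.lc l v) := fun σ hσ => by
  obtain ⟨x, -, rfl⟩ := List.mem_map.1 hσ
  obtain ⟨U, hU⟩ := (hCUBE r K d).1 x v
  rw [hU]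
  exact d.cq_ds _

theorem lists (hCUBE : S_CUBE) (l : List (XX K)) : ∃ S : Set (List (RAC K)), S.Finite ∧
    (∀ L ∈ S, L.length = l.length) ∧ ∀ v, ∃ L ∈ S, d.lc l v = d.lv L v := by
  induction l with
  | nil => exact ⟨{[]}, Set.finite_singleton _, fun L h => by rw [h]; rfl, fun v => ⟨[], rfl, rfl⟩⟩
  | cons x l ih =>
    obtain ⟨S, h1, h2, h3⟩ := ih
    refine ⟨Set.image2 (fun U L => (x.2.out * wU K U) :: L) Set.univ S,
      Set.finite_univ.image2 _ h1, ?_, fun v => ?_⟩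
    · rintro _ ⟨U, -, L, hL, rfl⟩
      exact congrArg (· + 1) (h2 L hL)
    · obtain ⟨L, hL, e⟩ := h3 v
      obtain ⟨U, hU⟩ := (hCUBE r K d).1 x v
      exact ⟨_, ⟨U, trivial, L, hL, rfl⟩, congrArg₂ List.cons hU e⟩

theorem fin (hCUBE : S_CUBE) (hFINH : S_FINH) {l : List (XX K)} (hl : l ≠ []) :
    {v | ¬Na K (d.lc l v)}.Finite := by
  obtain ⟨S, h1, h2, h3⟩ := lists d hCUBE l
  refine (h1.biUnion fun L hL => hFINH r K d L fun e => hl ?_).subset fun v hv => ?_
  · rw [← List.length_eq_zero_iff, ← h2 L hL, e]; rfl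
  · obtain ⟨L, hL, e⟩ := h3 v
    exact Set.mem_biUnion hL fun h => hv (e ▸ h)

end CPAx

theorem p_CPA (hCUBE : S_CUBE) (hFINH : S_FINH) :
    S_CPA := by
  intro r K d n ψ hψ
  obtain ⟨-, c2, c3, -⟩ := hCUBE r K d
  refine ⟨fun g l => ?_, fun u hu => ?_, fun u hu => ?_⟩
  · rw [Desc.cps, Desc.cps, mul_finsum, ← finsum_comp_equiv (Equiv.mulLeft g)]
    refine finsum_congr fun v => ?_
    have e : d.lc (l.map (g • ·)) (g * v) = d.lc l v := by
      simp only [Desc.lc, List.map_map, Function.comp_def, c3]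
    rw [Equiv.coe_mulLeft, e, map_mul, Units.val_mul, Int.cast_mul, mul_assoc]
  · refine on_eq (ev (d.cps ψ) ∘ₗ bdZ) 0 (fun l hl => ?_) hu
    have h1 : ∀ v, ∑ i ∈ range l.length,
        ((-1 : ℤ) ^ i : ℤ) * (((sgnW K v : ℤ) : ℝ) * ψ (d.lc (l.eraseIdx i) v)) = 0 := fun v => by
      have := hψ.coc (d.lc l v) ((List.length_map _).trans hl) (CPAx.cl d hCUBE l v)
      simp only [bd_sx, map_sum, map_zsmul, ev_sx, Desc.lc, List.length_map, List.eraseIdx_map,
        zsmul_eq_mul] at this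
      simp only [mul_left_comm _ ((sgnW K v : ℤ) : ℝ), ← mul_sum, Desc.lc, this, mul_zero]
    change ev (d.cps ψ) (bdZ (sx l)) = 0
    simp only [bd_sx, map_sum, map_zsmul, ev_sx, zsmul_eq_mul, Desc.cps, mul_finsum]
    rw [sum_finsum_comm _ _ fun i hi => ?_]
    · exact (finsum_congr h1).trans finsum_zero
    have hk : (l.eraseIdx i).length = n + 1 := by
      rw [List.length_eraseIdx_of_lt (mem_range.1 hi), hl]; rfl
    refine (CPAx.fin d hCUBE hFINH (l := l.eraseIdx i) fun e => by simp [e] at hk).subset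
      fun v hv hn => hv ?_
    exact mul_eq_zero_of_right _ (mul_eq_zero_of_right _
      (hψ.van _ ((List.length_map _).trans hk) hn))
  · refine on_eq (ev (d.cps ψ) ∘ₗ mp (ptX K) ∘ₗ cons ∅) (ev ψ ∘ₗ cons ∅) (fun I hI => ?_) hu
    have hc : ∀ T ∈ ∅ :: I, Cq K T := List.forall_mem_cons.2 ⟨cq_empty K, hI.1⟩
    simp only [LinearMap.comp_apply, cons_sx', mp_sx, ev_sx]
    rw [Desc.cps, finsum_eq_single _ 1 fun v hv => ?_]
    · rw [map_one, Units.val_one, Int.cast_one, one_mul, Desc.lc, List.map_map]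
      exact congrArg ψ ((List.map_congr_left (g := id) fun T hT => (c2 T (hc T hT)).1).trans
        (List.map_id _))
    obtain ⟨s, hs⟩ := d.ex (inv_ne_one.2 hv)
    refine mul_eq_zero_of_right _ (hψ.van _ (by simp [Desc.lc, hI.2])
      ⟨CPAx.cl d hCUBE _ v, s, fun σ hσ => ?_⟩)
    rw [Desc.lc, List.map_map] at hσ
    obtain ⟨T, hT, rfl⟩ := List.mem_map.1 hσ
    exact (c2 T (hc T hT)).2 v (d.mem_ds.2 hs)

end Pool.Agent.P.MP_f30597_gt.DV
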