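import Pool.Agent.P.MP_f30597_gt.DV.Iface

/-! Step CPB. -/

set_option autoImplicit false
set_option linter.unusedSectionVars false

namespace Pool.Agent.P.MP_f30597_gt.DV

open Finset SI CP
open scoped Classical

theorem p_CPB (hCUBE : S_CUBE) (hREC : S_REC) :
    S_CPB := by
  intro r K d k ψ hψ
  obtain ⟨B, hB⟩ := hREC r K d k
  obtain ⟨M, hM⟩ :=
    ((List.finite_length_eq (Finset (Fin r)) k).image fun I => |ψ I|).bddAbove
  have hM' : ∀ I, I.length = k → |ψ I| ≤ max M 0 := fun I hI =>
    (hM ⟨I, hI, rfl⟩).trans (le_max_left _ _)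
  refine ⟨((B * Fintype.card (Fin k → Finset (Fin r)) : ℕ) : ℝ) * max M 0, fun l hl => ?_⟩
  subst hl
  choose U hU using (hCUBE r K d).1
  have hlen : ∀ v, (d.lc l v).length = l.length := fun v => by simp [Desc.lc]
  have key : ∀ A : Finset (RAC K), (∀ v ∈ A, ¬Ns K (d.lc l v)) →
      A.card ≤ B * Fintype.card (Fin l.length → Finset (Fin r)) := by
    intro A hA
    refine (card_le_mul_card_image (f := fun v (i : Fin l.length) => U (l.get i) v) A B
      fun f _ => ?_).trans (Nat.mul_le_mul_left _ (card_le_univ _))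
    refine hB (List.ofFn fun i : Fin l.length => (l.get i).2.out * wU K (f i)) (by simp) _
      fun v hv => ?_
    obtain ⟨h1, h2⟩ := mem_filter.1 hv
    have e : d.lv (List.ofFn fun i : Fin l.length => (l.get i).2.out * wU K (f i)) v
        = d.lc l v := by
      rw [Desc.lv, Desc.lc, List.map_ofFn]
      conv_rhs => rw [← List.ofFn_get l, List.map_ofFn]
      congr 1
      funext i
      subst h2
      exact (hU (l.get i) v).symm
    rw [e]
    exact hA v h1
  rw [Desc.cps]
  by_cases hf : (Function.support fun v => ((sgnW K v : ℤ) : ℝ) * ψ (d.lc l v)).Finite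
  · rw [finsum_eq_sum _ hf]
    refine (abs_sum_le_sum_abs _ _).trans ?_
    refine (sum_le_card_nsmul _ _ (max M 0) fun v _ => ?_).trans ?_
    · rw [abs_mul]
      have : |((sgnW K v : ℤ) : ℝ)| = 1 := by
        rcases Int.units_eq_one_or (sgnW K v) with h | h <;> simp [h]
      rw [this, one_mul]
      exact hM' _ (hlen v)
    · rw [nsmul_eq_mul]
      refine mul_le_mul_of_nonneg_right (Nat.cast_le.2 (key _ fun v hv h => ?_)) (le_max_right _ _)
      have := hf.mem_toFinset.1 hv
      exact this (by simp [hψ _ (hlen v) h])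
  · rw [finsum_of_infinite_support hf, abs_zero]
    exact mul_nonneg (Nat.cast_nonneg _) (le_max_right _ _)

end Pool.Agent.P.MP_f30597_gt.DV
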