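import Pool.Agent.P.MP_f30597_gt.DV.Iface

/-! Step CUBE. -/

set_option autoImplicit false
set_option linter.unusedSectionVars false

namespace Pool.Agent.P.MP_f30597_gt.DV

open Finset SI CP
open scoped Classical

namespace CUBEx

variable {r : ℕ} {K : SimpleGraph (Fin r)} {T : Finset (Fin r)}

theorem gn_mem {u : Fin r} (hu : u ∈ T) : gn K u ∈ par K T :=
  Subgroup.subset_closure ⟨u, hu, rfl⟩

theorem ind_left {P : RAC K → Prop} (h1 : P 1) (h2 : ∀ u ∈ T, ∀ g, P g → P (gn K u * g))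
    {w : RAC K} (hw : w ∈ par K T) : P w := by
  induction hw using Subgroup.closure_induction_left with
  | one => exact h1
  | mul_left x hx y _ ih => obtain ⟨s, hs, rfl⟩ := hx; exact h2 s hs y ih
  | inv_mul_cancel x hx y _ ih => obtain ⟨s, hs, rfl⟩ := hx; rw [gn_inv]; exact h2 s hs y ih

theorem ind_right {P : RAC K → Prop} (h1 : P 1)
    (h2 : ∀ u ∈ T, ∀ g ∈ par K T, P g → P (g * gn K u)) {w : RAC K} (hw : w ∈ par K T) : P w := by
  induction hw using Subgroup.closure_induction_right with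
  | one => exact h1
  | mul_right x hx y hy ih => obtain ⟨s, hs, rfl⟩ := hy; exact h2 s hs x hx ih
  | mul_inv_cancel x hx y hy ih =>
    obtain ⟨s, hs, rfl⟩ := hy; rw [gn_inv]; exact h2 s hs x hx ih

theorem comm_gn (hT : Cq K T) {u : Fin r} (hu : u ∈ T) {w : RAC K} (hw : w ∈ par K T) :
    gn K u * w = w * gn K u := by
  refine ind_left (P := fun w => gn K u * w = w * gn K u) (by simp) (fun t ht g ih => ?_) hw
  have e : gn K u * gn K t = gn K t * gn K u := by
    by_cases h : u = t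
    · rw [h]
    · exact gn_comm (hT u hu t ht h)
  rw [← mul_assoc, e, mul_assoc, ih, mul_assoc]

theorem sq_one (hT : Cq K T) {w : RAC K} (hw : w ∈ par K T) : w * w = 1 := by
  refine ind_right (P := fun w => w * w = 1) (by simp) (fun u hu g hg ih => ?_) hw
  calc g * gn K u * (g * gn K u) = g * (gn K u * g) * gn K u := by simp only [mul_assoc]
    _ = g * g * (gn K u * gn K u) := by rw [comm_gn hT hu hg]; simp only [mul_assoc]
    _ = 1 := by rw [ih, gn_sq, mul_one]

variable (d : Desc K)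

theorem key (hT : Cq K T) {t : Fin r} (ht : t ∈ T) {w : RAC K} (hw : w ∈ par K T) (z : RAC K) :
    d.D t (w * z) ↔ ¬(d.D t w ↔ d.D t z) := by
  refine ind_left (P := fun w => d.D t (w * z) ↔ ¬(d.D t w ↔ d.D t z)) ?_ (fun u hu g ih => ?_) hw
  · have := d.one t
    rw [one_mul]
    tauto
  · by_cases h : t = u
    · subst h
      rw [mul_assoc, d.flip, d.flip]
      tauto
    · have a := hT t ht u hu h
      rw [mul_assoc, d.comm t u _ a, d.comm t u _ a]
      exact ih

theorem cross {s : Fin r} {h : RAC K} (h0 : ¬d.D s h) {w : RAC K} (hw : w ∈ par K T) :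
    d.D s (h * w) → ∃ w' ∈ par K T, ∃ t ∈ T, ∀ y, d.D s (h * w' * y) ↔ d.D t y := by
  refine ind_right (P := fun w => d.D s (h * w) →
    ∃ w' ∈ par K T, ∃ t ∈ T, ∀ y, d.D s (h * w' * y) ↔ d.D t y) ?_ (fun u hu g hg ih h1 => ?_) hw
  · intro h1
    rw [mul_one] at h1
    exact absurd h1 h0
  · by_cases h2 : d.D s (h * g)
    · exact ih h2
    · exact ⟨g, hg, u, hu, d.edge u s (h * g) h2 (by rwa [mul_assoc])⟩

theorem far (hT : Cq K T) {h : RAC K} (hh : ∀ t ∈ T, d.D t h⁻¹) {s : Fin r} {w : RAC K}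
    (hw : w ∈ par K T) (h1 : d.D s (h * w)) : d.D s h := by
  by_contra h0
  obtain ⟨w', hw', t, ht, e⟩ := cross d h0 hw h1
  have a := e (w'⁻¹ * h⁻¹)
  have b := e w'⁻¹
  have c := key d hT ht (inv_mem hw') h⁻¹
  rw [show h * w' * (w'⁻¹ * h⁻¹) = 1 by group] at a
  rw [mul_inv_cancel_right] at b
  have := d.one s
  have := hh t ht
  tauto

theorem prod_mem (l : List (Fin r)) (hl : ∀ a ∈ l, a ∈ T) : (l.map (gn K)).prod ∈ par K T :=
  list_prod_mem fun x hx => by
    obtain ⟨a, ha, rfl⟩ := List.mem_map.1 hx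
    exact gn_mem (hl a ha)

theorem des_prod (hT : Cq K T) {t : Fin r} (ht : t ∈ T) (l : List (Fin r)) (hn : l.Nodup)
    (hl : ∀ a ∈ l, a ∈ T) : d.D t (l.map (gn K)).prod ↔ t ∈ l := by
  induction l with
  | nil => simpa using d.one t
  | cons a l ih =>
    have h1 := List.nodup_cons.1 hn
    have h2 := ih h1.2 fun b hb => hl b (List.mem_cons_of_mem _ hb)
    rw [List.map_cons, List.prod_cons, List.mem_cons]
    by_cases h : t = a
    · subst h
      rw [d.flip, h2]
      tauto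
    · rw [d.comm t a _ (hT t ht a (hl a List.mem_cons_self) h), h2]
      tauto

theorem des_gn (s : Fin r) : d.D s (gn K s) := by
  have := (d.flip s 1).2 (d.one s)
  rwa [mul_one] at this

theorem mem_of_des (hT : Cq K T) {s : Fin r} {w : RAC K} (hw : w ∈ par K T) (h : d.D s w) :
    s ∈ T := by
  obtain ⟨w', hw', t, ht, e⟩ := cross d (d.one s) hw (by rwa [one_mul])
  have a := e (w'⁻¹ * gn K s)
  have b := e w'⁻¹
  have c := key d hT ht (inv_mem hw') (gn K s)
  rw [show 1 * w' * (w'⁻¹ * gn K s) = gn K s by group] at a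
  rw [mul_inv_cancel_right] at b
  have h1 := d.one s
  have h2 := des_gn d s
  have h3 : d.D t (gn K s) := by tauto
  by_contra h4
  have h5 : t ≠ s := fun e => h4 (e ▸ ht)
  have := (d.comm t s 1 (d.clq t s _ h3 h2 h5)).1 (by rwa [mul_one])
  exact d.one t this

theorem mem_sg {x : XX K} {v : RAC K} {s : Fin r} : s ∈ d.sg x v ↔
    ∃ y : RAC K, (y : RAC K ⧸ par K x.1.1) = x.2 ∧ d.D s (v⁻¹ * y) := by
  simp only [Desc.sg, mem_filter, mem_univ, true_and]

end CUBEx

open CUBEx in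
theorem p_CUBE :
    S_CUBE := by
  intro r K d
  refine ⟨fun x v => ?_, fun T hT => ?_, fun g x v => ?_, fun T hT w hw => sq_one hT hw⟩
  · obtain ⟨⟨T, hT⟩, q⟩ := x
    let U := T.filter fun t => ¬d.D t (v⁻¹ * q.out)⁻¹
    have hl : ∀ a ∈ U.toList, a ∈ T := fun a ha => (mem_filter.1 (mem_toList.1 ha)).1
    have hU : wU K U ∈ par K T := prod_mem _ hl
    have hh : ∀ t ∈ T, d.D t (v⁻¹ * (q.out * wU K U))⁻¹ := fun t ht => by
      have a : d.D t (wU K U) ↔ t ∈ U.toList := des_prod d hT ht _ (nodup_toList U) hl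
      rw [mem_toList, mem_filter] at a
      rw [← mul_assoc, mul_inv_rev, inv_eq_of_mul_eq_one_right (sq_one hT hU), key d hT ht hU, a]
      tauto
    have hq : ((q.out * wU K U : RAC K) : RAC K ⧸ par K T) = q := by
      rw [QuotientGroup.mk_mul_of_mem _ hU, QuotientGroup.out_eq']
    refine ⟨U, ext fun s => ?_⟩
    rw [mem_sg, d.mem_ds]
    refine ⟨fun ⟨y, h1, h2⟩ => ?_, fun h => ⟨_, hq, h⟩⟩
    refine far d hT hh (QuotientGroup.eq.1 (hq.trans h1.symm)) ?_
    rwa [mul_assoc, mul_inv_cancel_left]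
  · rw [ptX, dif_pos hT]
    refine ⟨ext fun s => ?_, fun v s hs => ?_⟩
    · rw [mem_sg]
      refine ⟨fun ⟨y, h1, h2⟩ => ?_, fun h => ⟨gn K s, ?_, ?_⟩⟩
      · exact mem_of_des d hT (QuotientGroup.eq.1 h1.symm) h2
      · exact (QuotientGroup.eq.2 (by rw [inv_one, one_mul]; exact gn_mem h)).symm
      · rw [inv_one, one_mul]; exact des_gn d s
    · exact (mem_sg d).2 ⟨1, rfl, by rw [mul_one]; exact d.mem_ds.1 hs⟩
  · obtain ⟨T, q⟩ := x
    ext s
    rw [mem_sg, mem_sg]
    refine ⟨fun ⟨y, h1, h2⟩ => ⟨g⁻¹ * y, ?_, ?_⟩, fun ⟨y, h1, h2⟩ => ⟨g * y, ?_, ?_⟩⟩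
    · change g⁻¹ • ((y : RAC K) : RAC K ⧸ par K T.1) = q
      have h3 : ((y : RAC K) : RAC K ⧸ par K T.1) = g • q := h1
      rw [h3, inv_smul_smul]
    · rwa [mul_inv_rev, mul_assoc] at h2
    · change g • ((y : RAC K) : RAC K ⧸ par K T.1) = g • q
      exact congrArg _ h1
    · rwa [mul_inv_rev, mul_assoc, inv_mul_cancel_left]

end Pool.Agent.P.MP_f30597_gt.DV
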