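import Pool.Agent.P.MP_f30597_gt.DV.Iface

/-! Step DESC. -/

set_option autoImplicit false
set_option linter.unusedSectionVars false

namespace Pool.Agent.P.MP_f30597_gt.DV

open Finset SI CP
open scoped Classical

namespace DESCx

variable {r : ℕ} {K : SimpleGraph (Fin r)}

theorem root_ne (R : Rep K) (g : RAC K) (s : Fin r) : R.ρ g (Pi.single s 1) ≠ 0 := by
  intro h
  have e : R.ρ (g⁻¹ * g) (Pi.single s 1) = 0 := by
    rw [map_mul, Module.End.mul_apply, h, map_zero]
  rw [inv_mul_cancel, map_one, Module.End.one_apply] at e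
  simpa using congrFun e s

theorem not_le (R : Rep K) (g : RAC K) (s : Fin r) :
    ¬R.ρ g (Pi.single s 1) ≤ 0 ↔ 0 ≤ R.ρ g (Pi.single s 1) :=
  ⟨fun h => (R.dich g s).resolve_right h, fun h h' => root_ne R g s (le_antisymm h' h)⟩

theorem rf_app (s : Fin r) (x : Fin r → ℤ) :
    rf K s x = x - (2 * ∑ t, bf K s t * x t) • Pi.single s 1 := rfl

theorem rf_single (s t : Fin r) :
    rf K s (Pi.single t 1) = Pi.single t 1 - (2 * bf K s t) • Pi.single s 1 := by
  rw [rf_app, sum_eq_single t (fun u _ hu => by simp [hu]) (by simp)]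
  simp

theorem rf_self (s : Fin r) : rf K s (Pi.single s 1) = -Pi.single s 1 := by
  rw [rf_single, bf, if_pos rfl, mul_one, two_smul]
  abel

theorem rf_adj {s t : Fin r} (h : K.Adj s t) : rf K t (Pi.single s 1) = Pi.single s 1 := by
  rw [rf_single, bf, if_neg h.ne', if_pos h.symm]
  simp

theorem edge (R : Rep K) (s : Fin r) (a : Fin r → ℤ) (h0 : a ≠ 0) (h1 : 0 ≤ a)
    (h2 : rf K s a ≤ 0) (y : RAC K) : R.ρ y a ≤ 0 ↔ R.ρ y (Pi.single s 1) ≤ 0 := by
  have e : a = a s • Pi.single s 1 := by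
    funext u
    by_cases hu : u = s
    · subst hu; simp
    · have := h2 u
      rw [rf_app] at this
      simp only [Pi.sub_apply, Pi.smul_apply, Pi.single_eq_of_ne hu, smul_zero, sub_zero] at this
      rw [Pi.smul_apply, Pi.single_eq_of_ne hu, smul_zero]
      exact le_antisymm this (h1 u)
  have hp : 0 < a s := lt_of_le_of_ne (h1 s) fun h => h0 (by rw [e, ← h, zero_smul])
  rw [e, map_smul]
  refine forall_congr' fun u => ?_
  simp only [Pi.smul_apply, smul_eq_mul, Pi.zero_apply]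
  constructor
  · intro h
    by_contra h'
    exact absurd (mul_pos hp (lt_of_not_ge h')) (not_lt.2 h)
  · exact fun h => mul_nonpos_of_nonneg_of_nonpos hp.le h

end DESCx

open DESCx in
theorem p_DESC (hREP : S_REP) (hNEST : S_NEST) :
    S_DESC := by
  intro r K
  obtain ⟨R⟩ := hREP r K
  refine ⟨⟨fun s g => R.ρ g⁻¹ (Pi.single s 1) ≤ 0, ?_, ?_, ?_, ?_, ?_, ?_, ?_⟩⟩
  · intro s h
    rw [inv_one, map_one, Module.End.one_apply] at h
    simpa using h s
  · intro s g
    rw [DESCx.not_le, mul_inv_rev, gn_inv, map_mul, Module.End.mul_apply, R.gen, rf_self, map_neg,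
      neg_nonpos]
  · intro s t g h
    rw [mul_inv_rev, gn_inv, map_mul, Module.End.mul_apply, R.gen, rf_adj h]
  · exact fun s t g => R.clq g⁻¹ s t
  · intro P h1 h2 g
    have := R.ind (fun g => P g⁻¹) (by rwa [inv_one]) (fun s g h hp => by
      rw [mul_inv_rev, gn_inv]
      exact h2 s g⁻¹ (by rwa [inv_inv, DESCx.not_le]) hp) g⁻¹
    rwa [inv_inv] at this
  · intro s t g h1 h2 y
    rw [mul_inv_rev, gn_inv, map_mul, Module.End.mul_apply, R.gen] at h2
    rw [mul_inv_rev, map_mul, Module.End.mul_apply]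
    exact edge R s _ (root_ne R _ _) ((DESCx.not_le R _ _).1 h1) h2 _
  · intro s t g h x₁ x₂ x₃ x₄ a₁ b₁ a₂ b₂ a₃ b₃ a₄ b₄
    rw [mul_inv_rev] at b₁ b₂ b₃ b₄
    exact hNEST r K R s t g⁻¹ h _ _ _ _ a₁ b₁ a₂ ((DESCx.not_le R _ _).1 b₂)
      ((DESCx.not_le R _ _).1 a₃) b₃ ((DESCx.not_le R _ _).1 a₄) ((DESCx.not_le R _ _).1 b₄)

end Pool.Agent.P.MP_f30597_gt.DV
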