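import Pool.Agent.P.MP_f30597_gt.DV.IfaceE

/-! Step E1. -/

set_option autoImplicit false
set_option linter.unusedSectionVars false

namespace Pool.Agent.P.MP_f30597_gt.DV

open Matrix Finset Filter MeasureTheory SI
open scoped Matrix.Norms.L2Operator

namespace E1x

theorem pow_bd {B : ℝ} (hB : 2 ≤ B) (a c : ℕ) :
    1 + B ^ a * (2 * (B ^ c) ^ 2 + 2) ≤ B ^ (a + 2 * c + 3) := by
  have f1 : 1 ≤ B ^ (2 * c) := one_le_pow₀ (by linarith)
  have f2 : 1 ≤ B ^ a := one_le_pow₀ (by linarith)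
  have f3 : (8 : ℝ) ≤ B ^ 3 := le_trans (by norm_num) (pow_le_pow_left₀ (by norm_num) hB 3)
  rw [← pow_mul, mul_comm c 2, pow_add, pow_add]
  generalize B ^ a = x at *
  generalize B ^ (2 * c) = y at *
  generalize B ^ 3 = z at *
  have f4 : 1 ≤ x * y := one_le_mul_of_one_le_of_one_le f2 f1
  have f5 : x ≤ x * y := le_mul_of_one_le_right (by linarith) f1
  have f6 : x * y * 8 ≤ x * y * z := mul_le_mul_of_nonneg_left f3 (by linarith)
  nlinarith

theorem nrm_proj {I : Type} [Fintype I] [DecidableEq I] {a : Matrix I I ℝ} (h1 : aᴴ = a)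
    (h2 : a * a = a) : ‖a‖ ≤ 1 := by
  have h := l2_opNorm_conjTranspose_mul_self a
  rw [h1, h2] at h
  by_contra h5
  nlinarith [norm_nonneg a]

end E1x

theorem p_E1 :
    S_E1 := by
  intro k
  refine ⟨6 * (4 * k + 20), ?_⟩
  intro I _ _ dI d e W W' Ξ B r hB hE hd dd bd bW bW' bΞ iΞ Ξe hWW hWd hpW hr1
  have eh := hE.herm
  have ee := hE.idem
  have e0 : ∀ Z : Matrix I I ℝ, Deg dI dI 0 Z → e * Z = Z * e := fun Z h => hE.even Z (Or.inl h)
  have be : Bd B 0 e := by simpa [Bd] using hE.nrm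
  have hη : 0 < 1 / B := by positivity
  have ha := isHermitian_conjTranspose_mul_self d
  have hb := isHermitian_mul_conjTranspose_self d
  have hD := ha.add hb
  unfold tau
  unfold TT at hr1
  obtain ⟨p, hp⟩ : ∃ p, p = fc (chi (1 / B)) (dᴴ * d + d * dᴴ) := ⟨_, rfl⟩
  obtain ⟨g, hg⟩ : ∃ g, g = fc (gr (1 / B)) (dᴴ * d + d * dᴴ) := ⟨_, rfl⟩
  have hp' : pp B d = p := hp.symm
  have hg' : gg B d = g := hg.symm
  rw [hp', hg'] at hr1
  rw [hp'] at hpW ⊢
  obtain ⟨p1, p2, p3, p4, p5, p6, p7, p8, p9, p10, p11⟩ := core_green hd hη hp hg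
  have da : Deg dI dI 0 (dᴴ * d) := (dd.conjT.mul dd).of_eq (by norm_num)
  have db : Deg dI dI 0 (d * dᴴ) := (dd.mul dd.conjT).of_eq (by norm_num)
  have dp : Deg dI dI 0 p := hp ▸ (da.add db).fc hD _
  have bp : Bd B 0 p := hp ▸ core_bd_chi hD _
  have bg : Bd B 1 g := hg ▸ core_bd_gr hD hB
  obtain ⟨T, hT⟩ : ∃ T, T = d * p + dᴴ * g := ⟨_, rfl⟩
  rw [← hT] at p11 hr1
  have bT : Bd B 6 T := hT ▸ (bd.mul bp).add (bd.conjT.mul bg) hB
  have ep := e0 p dp
  have A7 : ∀ Z : Matrix I I ℝ, p * (p * Z) = p * Z := fun Z => by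
    rw [← Matrix.mul_assoc, p5]
  have A11 : ∀ Z : Matrix I I ℝ, e * (p * Z) = p * (e * Z) := fun Z => by
    rw [← Matrix.mul_assoc, ep, Matrix.mul_assoc]
  have A12 : ∀ Z : Matrix I I ℝ, e * (e * Z) = e * Z := fun Z => by
    rw [← Matrix.mul_assoc, ee]
  obtain ⟨A0, hA0⟩ : ∃ A : Matrix I I ℝ, A = T * e := ⟨_, rfl⟩
  obtain ⟨P, hP⟩ : ∃ A : Matrix I I ℝ, A = 1 - p * e := ⟨_, rfl⟩
  rw [← hA0] at hr1
  obtain ⟨pa1, pa2⟩ := core_fc_proj ha eh ee (e0 _ da) fun t => Real.exp (fl (1 / B) t)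
  obtain ⟨pb1, pb2⟩ := core_fc_proj hb eh ee (e0 _ db) fun t => Real.exp (-fl (1 / B) t)
  have fl0 : fl (1 / B) 0 = 0 := by simp [fl]
  have hA : A0ᴴ * A0 + P = fc (fun t => Real.exp (fl (1 / B) t)) (e * (dᴴ * d)) *
      fc (fun t => Real.exp (-fl (1 / B) t)) (e * (d * dᴴ)) := by
    rw [pa2, pb2, fl0, hA0, hP]
    have f1 := e0 _ (db.fc hb fun t => Real.exp (-fl (1 / B) t))
    have f2 := e0 _ (da.fc ha fun t => Real.exp (fl (1 / B) t))
    have f3 : e * (Tᴴ * (T * e)) + e - p * e = e * (Tᴴ * T + 1 - p) * e := by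
      simp only [Matrix.mul_add, Matrix.mul_sub, Matrix.add_mul, Matrix.sub_mul, Matrix.mul_assoc,
        Matrix.one_mul, ee, A11]
    rw [p11] at f3
    generalize fc (fun t => Real.exp (fl (1 / B) t)) (dᴴ * d) = F1 at *
    generalize fc (fun t => Real.exp (-fl (1 / B) t)) (d * dᴴ) = F2 at *
    have f4 : e * (F2 * e) = e * F2 := by rw [← f1, A12]
    have f5 : e * (F1 * e) = e * F1 := by rw [← f2, A12]
    have f6 : e * (F1 * (e * F2)) = e * (F1 * (F2 * e)) := by rw [f1]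
    simp only [conjTranspose_mul, eh, neg_zero, Real.exp_zero, one_smul, Matrix.mul_assoc,
      Matrix.add_mul, Matrix.mul_add, Matrix.sub_mul, Matrix.mul_sub, Matrix.one_mul,
      Matrix.mul_one, ee, A12, f5, f6] at f3 ⊢
    rw [← f3]
    abel
  have hPU : P * W = P := by
    have f1 : P * (W - 1) = 0 := by rw [hP, Matrix.sub_mul, hpW, Matrix.one_mul, sub_self]
    rwa [Matrix.mul_sub, Matrix.mul_one, sub_eq_zero] at f1
  have hPh : Pᴴ = P := by
    simp only [hP, conjTranspose_sub, conjTranspose_one, conjTranspose_mul, eh, p9, ep]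
  have hGG : (A0 * W)ᴴ * (A0 * W) + P = Wᴴ * (A0ᴴ * A0 + P) * W := by
    have f1 : Wᴴ * P = P := by
      have := congrArg conjTranspose hPU
      rwa [conjTranspose_mul, hPh] at this
    simp only [conjTranspose_mul, Matrix.mul_add, Matrix.add_mul, Matrix.mul_assoc, hPU, f1]
  obtain ⟨A', hA'⟩ : ∃ A : Matrix I I ℝ, A =
      fc (fun t => Real.exp (- -fl (1 / B) t)) (e * (d * dᴴ)) *
        fc (fun t => Real.exp (-fl (1 / B) t)) (e * (dᴴ * d)) := ⟨_, rfl⟩
  have hAA : (A0ᴴ * A0 + P) * A' = 1 := by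
    rw [hA, hA', Matrix.mul_assoc, ← Matrix.mul_assoc (fc _ (e * (d * dᴴ))), core_exp_inv pb1,
      Matrix.one_mul, core_exp_inv pa1]
  have hinv : ((A0 * W)ᴴ * (A0 * W) + P) * (W' * A' * W'ᴴ) = 1 := by
    rw [hGG, Matrix.mul_assoc, Matrix.mul_assoc W', ← Matrix.mul_assoc W,
      mul_eq_one_comm.1 hWW, Matrix.one_mul, Matrix.mul_assoc, ← Matrix.mul_assoc _ A', hAA,
      Matrix.one_mul, ← conjTranspose_mul, hWW, conjTranspose_one]
  have hr2 : (P - (1 - e)).rank ≤ (1 - p).rank := by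
    have f1 : P - (1 - e) = (1 - p) * e := by
      rw [hP, Matrix.sub_mul, Matrix.one_mul]
      abel
    rw [f1]
    exact rank_mul_le_left _ _
  have hpe : p * e * (p * e) = p * e := by simp only [Matrix.mul_assoc, A11, A7, ee]
  have nP : ‖P‖ ≤ 1 := E1x.nrm_proj hPh (by rw [hP]; simp [Matrix.sub_mul, Matrix.mul_sub, hpe])
  have bΞ' : Bd B (k + 6) Ξ := bΞ.mono hB (by omega)
  have bX : Bd B (k + 6) (A0 * W) := hA0 ▸ ((bT.mul be).mul bW).mono hB (by omega)
  have bA' : Bd B 5 A' := by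
    have f1 : Bd B 4 (fc (fun t => Real.exp (- -fl (1 / B) t)) (e * (d * dᴴ))) := by
      have f2 : Bd B 4 (e * (d * dᴴ)) := be.mul (bd.mul bd.conjT)
      refine fc_norm pb1 (by positivity) fun i => ?_
      rw [neg_neg, abs_of_pos (Real.exp_pos _)]
      unfold fl
      split_ifs with f3
      · rw [Real.exp_log (hη.trans_le f3)]
        exact (le_abs_self _).trans ((eig_le pb1 i).trans f2)
      · rw [Real.exp_zero]
        exact one_le_pow₀ (by linarith)
    have f2 := core_bd_exp pa1 hB 1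
    simp only [Nat.cast_one, one_mul] at f2
    exact hA' ▸ f1.mul f2
  have main := core_abs iΞ hinv (P0 := 1 - e)
    (by rw [Matrix.mul_sub, Matrix.mul_one, Ξe, sub_self])
    (by simp only [conjTranspose_sub, conjTranspose_one, eh])
    (by simp [Matrix.mul_sub, Matrix.sub_mul, ee])
    hr1 hr2 bΞ' bX nP ((bW'.mul bA').mul bW'.conjT)
  rw [hGG, det_mul, det_mul, det_conjTranspose, hWd, hA, det_mul,
    fc_det_exp pa1, fc_det_exp pb1, ← Real.exp_add, star_one,
    one_mul, mul_one, abs_of_pos (Real.exp_pos _)] at main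
  have t1 : (fc (fl (1 / B)) (e * (dᴴ * d))).trace = (e * fc (fl (1 / B)) (dᴴ * d)).trace := by
    rw [(core_fc_proj ha eh ee (e0 _ da) _).2, fl0, zero_smul, add_zero]
  have t2 : (fc (fun t => -fl (1 / B) t) (e * (d * dᴴ))).trace =
      -(e * fc (fl (1 / B)) (d * dᴴ)).trace := by
    have := fc_smul pb1 (-1) (fl (1 / B))
    simp only [neg_mul, one_mul] at this
    rw [← this, (core_fc_proj hb eh ee (e0 _ db) _).2, fl0, zero_smul, add_zero]
    simp
  have hB0 : 0 < B := by linarith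
  have t4 := E1x.pow_bd hB (k + 5 + k) (k + 6)
  have main2 := main.trans (mul_le_mul_of_nonneg_left (pow_le_pow_left₀ (by positivity) t4 _)
    (Real.exp_pos _).le)
  rw [← pow_mul, ← Real.exp_log (pow_pos hB0 _), ← Real.exp_add, Real.one_le_exp_iff, t1, t2,
    Real.log_pow] at main2
  push_cast at main2 ⊢
  have hL : 0 ≤ Real.log B := Real.log_nonneg (by linarith)
  have hn0 : (0 : ℝ) ≤ k := Nat.cast_nonneg k
  have x2 : 0 ≤ ((1 - p).rank : ℝ) * Real.log B := by positivity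
  nlinarith [mul_nonneg hn0 x2]

end Pool.Agent.P.MP_f30597_gt.DV
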