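import Pool.Agent.P.MP_f30597_gt.DV.IfaceE

/-! Step E2. -/

set_option autoImplicit false
set_option linter.unusedSectionVars false

namespace Pool.Agent.P.MP_f30597_gt.DV

open Matrix Finset Filter MeasureTheory SI
open scoped Matrix.Norms.L2Operator

theorem p_E2 :
    S_E2 := by
  intro n k
  refine ⟨(2 * k + 12) * (n + 1) + 2 * k + 12, ?_⟩
  intro I _ _ dI d e γ B r hn hB he hd dd dγ bd bγ hr
  have hη : 0 < 1 / B := by positivity
  have ha := isHermitian_conjTranspose_mul_self d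
  have hb := isHermitian_mul_conjTranspose_self d
  have hD := ha.add hb
  have ee := he.idem
  have de := he.deg
  have e0 := fun Z h => he.even Z (Or.inl h)
  have e2 := fun Z h => he.even Z (Or.inr h)
  have ed := he.odd d (Or.inr dd)
  have be : Bd B 0 e := by simpa [Bd] using he.nrm
  unfold TT
  obtain ⟨p, hp⟩ : ∃ p, p = fc (chi (1 / B)) (dᴴ * d + d * dᴴ) := ⟨_, rfl⟩
  obtain ⟨g, hg⟩ : ∃ g, g = fc (gr (1 / B)) (dᴴ * d + d * dᴴ) := ⟨_, rfl⟩
  obtain ⟨p1, p2, p3, p4, p5, p6, p7, p8, -, -, -⟩ := core_green hd hη hp hg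
  rw [pp, gg, ← hp, ← hg]
  have da : Deg dI dI 0 (dᴴ * d) := (dd.conjT.mul dd).of_eq (by norm_num)
  have db : Deg dI dI 0 (d * dᴴ) := (dd.mul dd.conjT).of_eq (by norm_num)
  have dp : Deg dI dI 0 p := hp ▸ (da.add db).fc hD _
  have dg : Deg dI dI 0 g := hg ▸ (da.add db).fc hD _
  have bp : Bd B 0 p := hp ▸ core_bd_chi hD _
  have bg : Bd B 1 g := hg ▸ core_bd_gr hD hB
  have hd' : dᴴ * dᴴ = 0 := by rw [← conjTranspose_mul, hd, conjTranspose_zero]
  obtain ⟨T, hT⟩ : ∃ T, T = d * p + dᴴ * g := ⟨_, rfl⟩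
  obtain ⟨N1, hN1⟩ : ∃ N, N = p * (d * (γ * (dᴴ * (d * (g * e))))) := ⟨_, rfl⟩
  obtain ⟨N2, hN2⟩ : ∃ N, N = dᴴ * (g * (γ * (p * e))) := ⟨_, rfl⟩
  rw [← hT]
  have dN1 : Deg dI dI 0 N1 := hN1 ▸
    (dp.mul (dd.mul (dγ.mul (dd.conjT.mul (dd.mul (dg.mul de)))))).of_eq (by norm_num)
  have dN2 : Deg dI dI 2 N2 := hN2 ▸
    (dd.conjT.mul (dg.mul (dγ.mul (dp.mul de)))).of_eq (by norm_num)
  have bN1 : Bd B (k + 7) N1 := hN1 ▸
    (bp.mul (bd.mul (bγ.mul (bd.conjT.mul (bd.mul (bg.mul be)))))).mono hB (by omega)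
  have bN2 : Bd B (k + 3) N2 := hN2 ▸
    (bd.conjT.mul (bg.mul (bγ.mul (bp.mul be)))).mono hB (by omega)
  have ep := e0 p dp
  have A1 : ∀ Z : Matrix I I ℝ, d * (d * Z) = 0 := fun Z => by
    rw [← Matrix.mul_assoc, hd, Matrix.zero_mul]
  have A2 : ∀ Z : Matrix I I ℝ, dᴴ * (dᴴ * Z) = 0 := fun Z => by
    rw [← Matrix.mul_assoc, hd', Matrix.zero_mul]
  have A3 : ∀ Z : Matrix I I ℝ, p * (d * Z) = d * (p * Z) := fun Z => by
    rw [← Matrix.mul_assoc, p1, Matrix.mul_assoc]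
  have A4 : ∀ Z : Matrix I I ℝ, g * (d * Z) = d * (g * Z) := fun Z => by
    rw [← Matrix.mul_assoc, p2, Matrix.mul_assoc]
  have A5 : ∀ Z : Matrix I I ℝ, p * (dᴴ * Z) = dᴴ * (p * Z) := fun Z => by
    rw [← Matrix.mul_assoc, p3, Matrix.mul_assoc]
  have A6 : ∀ Z : Matrix I I ℝ, g * (dᴴ * Z) = dᴴ * (g * Z) := fun Z => by
    rw [← Matrix.mul_assoc, p4, Matrix.mul_assoc]
  have A7 : ∀ Z : Matrix I I ℝ, p * (p * Z) = p * Z := fun Z => by
    rw [← Matrix.mul_assoc, p5]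
  have A8 : ∀ Z : Matrix I I ℝ, p * (g * Z) = g * Z := fun Z => by
    rw [← Matrix.mul_assoc, p6]
  have A9 : ∀ Z : Matrix I I ℝ, g * (p * Z) = g * Z := fun Z => by
    rw [← Matrix.mul_assoc, p7]
  have A10 : ∀ Z : Matrix I I ℝ,
      p * Z = dᴴ * (d * (g * Z)) + d * (dᴴ * (g * Z)) := fun Z => by
    conv_lhs => rw [← p8]
    simp only [Matrix.add_mul, Matrix.mul_assoc]
  have TT : ∀ Z : Matrix I I ℝ, T * (T * Z) = p * Z := fun Z => by
    simp only [hT, Matrix.add_mul, Matrix.mul_add, Matrix.mul_assoc, A1, A2, A3, A4, A5, A6, A7,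
      A8, A9, zero_add, add_zero]
    rw [A10 Z]
  have Tp : ∀ Z : Matrix I I ℝ, T * (p * Z) = T * Z := fun Z => by
    simp only [hT, Matrix.add_mul, Matrix.mul_assoc, A7, A9]
  have N11 : N1 * N1 = 0 := by
    have : g * (e * (p * (d * (γ * (dᴴ * (d * (g * e))))))) =
        d * (g * ((1 - e) * (p * (γ * (dᴴ * (d * (g * e))))))) := by
      rw [A3, ← Matrix.mul_assoc e d, ed]
      simp only [Matrix.sub_mul, Matrix.mul_sub, Matrix.mul_assoc, Matrix.one_mul, A4]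
    rw [hN1]
    simp only [Matrix.mul_assoc]
    rw [this, A1]
    simp
  have eN : e * (N1 + N2) = N1 + N2 := by
    rw [Matrix.mul_add, e0 N1 dN1, e2 N2 dN2, hN1, hN2]
    simp only [Matrix.mul_assoc, ee]
  have pN : p * (N1 + N2) = N1 + N2 := by
    rw [hN1, hN2]
    simp only [Matrix.mul_add, A5, A7, A8]
  obtain ⟨u1, M, u2, bM⟩ := core_unip hB hn N11 dN1 dN2 bN1 bN2
  have bN := bN1.add bN2 hB
  obtain ⟨N, hN⟩ : ∃ N, N = N1 + N2 := ⟨_, rfl⟩
  have key : T * (e + N) = p * ((d + γ) * (p * e)) -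
      T * (p * (((d * γ - 1) * (e * d)) * (dᴴ * g))) := by
    have f1 : e * (d * (dᴴ * g)) = d * (dᴴ * (g * e)) := by
      rw [← Matrix.mul_assoc d, e0 _ ((db.mul dg).of_eq (by norm_num))]
      simp only [Matrix.mul_assoc]
    have f2 : T * ((d + γ) * (p * e)) =
        p * e + N + p * (((d * γ - 1) * (e * d)) * (dᴴ * g)) := by
      rw [hN, hN1, hN2]
      simp only [Matrix.mul_assoc, Matrix.sub_mul, Matrix.mul_sub, Matrix.one_mul, f1]
      simp only [hT, Matrix.add_mul, Matrix.mul_add, Matrix.mul_assoc, A1, A3, A4, A5, A7, A8, A9,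
        zero_add]
      rw [A10 e]
      simp only [Matrix.mul_add]
      abel
    rw [← TT, f2]
    simp only [Matrix.mul_add, Tp]
    abel
  rw [← hN] at eN pN u1 u2 bN
  have rE : ((d * γ - 1) * (e * d)).rank ≤ r := by
    have f0 : d * (e * d) = 0 := by
      have : d * e = d - e * d := by rw [ed]; abel
      rw [← Matrix.mul_assoc, this, Matrix.sub_mul, Matrix.mul_assoc, hd]; simp
    have : (d * γ - 1) * (e * d) = (d * γ + γ * d - 1) * (e * d) := by
      simp only [Matrix.sub_mul, Matrix.add_mul, Matrix.mul_assoc γ, f0, Matrix.mul_zero, add_zero]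
    rw [this]
    exact (rank_mul_le_left _ _).trans hr
  refine ⟨1 + N, M, mul_eq_one_comm.1 u2, u1, by rw [add_sub_cancel_left, Matrix.mul_assoc, eN, pN],
    (bd_one.add bN hB).mono hB (by nlinarith), bM.mono hB (by nlinarith), ?_⟩
  have f1 : (d + γ) * e - T * e * (1 + N) =
      (1 - p) * ((d + γ) * e) + p * ((d + γ) * ((1 - p) * e)) +
        T * (p * (((d * γ - 1) * (e * d)) * (dᴴ * g))) := by
    rw [Matrix.mul_assoc T, Matrix.mul_add e, Matrix.mul_one, eN, key]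
    generalize T * (p * (((d * γ - 1) * (e * d)) * (dᴴ * g))) = W
    simp only [Matrix.sub_mul, Matrix.mul_sub, Matrix.add_mul, Matrix.mul_add,
      Matrix.mul_assoc, Matrix.one_mul]
    abel
  rw [f1]
  have g1 := rk_add ((1 - p) * ((d + γ) * e) + p * ((d + γ) * ((1 - p) * e)))
    (T * (p * (((d * γ - 1) * (e * d)) * (dᴴ * g))))
  have g2 := rk_add ((1 - p) * ((d + γ) * e)) (p * ((d + γ) * ((1 - p) * e)))
  have g3 := rank_mul_le_left (1 - p) ((d + γ) * e)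
  have g4 := (rank_mul_le_right p _).trans ((rank_mul_le_right (d + γ) _).trans
    (rank_mul_le_left (1 - p) e))
  have g5 := (rank_mul_le_right T _).trans ((rank_mul_le_right p _).trans
    ((rank_mul_le_left _ (dᴴ * g)).trans rE))
  omega

end Pool.Agent.P.MP_f30597_gt.DV
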