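import Pool.Agent.P.MP_f30597_gt.DV.IfaceE

/-! Step E3. -/

set_option autoImplicit false
set_option linter.unusedSectionVars false

namespace Pool.Agent.P.MP_f30597_gt.DV

open Matrix Finset Filter MeasureTheory SI
open scoped Matrix.Norms.L2Operator

namespace E3x

variable {R : Type} [Ring R]

theorem inv1 {M : R} (h : M * M = 0) : (1 + M) * (1 - M) = 1 := by
  rw [add_mul, mul_sub, mul_sub, h, one_mul, one_mul, mul_one]
  abel

theorem inv2 {M : R} (h : M * M = 0) : (1 - M) * (1 + M) = 1 := by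
  rw [sub_mul, mul_add, mul_add, h, one_mul, one_mul, mul_one]
  abel

theorem fix {π X Y : R} (hX : π * (X - 1) = X - 1) (hY : π * (Y - 1) = Y - 1) :
    π * (X * Y - 1) = X * Y - 1 := by
  have : X * Y - 1 = (X - 1) * Y + (Y - 1) := by
    rw [sub_mul, one_mul]
    abel
  rw [this, mul_add, ← mul_assoc, hX, hY]

theorem conj {D h u v : R} (h1 : v * u = 1) :
    D * (v * h * u) + v * h * u * D - 1 = v * (u * D * v * h + h * (u * D * v) - 1) * u := by
  have a : ∀ Z : R, v * (u * Z) = Z := fun Z => by rw [← mul_assoc, h1, one_mul]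
  simp only [mul_add, add_mul, mul_sub, sub_mul, mul_assoc, a, h1, mul_one]

theorem defect {D F h u v e T U a m : R} (h2 : u * v = 1) (hv : v * e = e * m)
    (hu : u * (T * e) = T * e * a) :
    (D + F + h) * e - T * e * (a * U * m) =
      (D + F - u * D * v) * e + u * ((D + v * h * u) * e - T * e * U) * m := by
  have a1 : ∀ Z : R, u * (v * Z) = Z := fun Z => by rw [← mul_assoc, h2, one_mul]
  have a2 : u * (T * (e * (U * m))) = T * (e * (a * (U * m))) := by
    have := congrArg (· * (U * m)) hu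
    simpa only [mul_assoc] using this
  simp only [mul_add, add_mul, mul_sub, sub_mul, mul_assoc, a1, a2, ← hv]
  abel

end E3x

theorem p_E3 (hE1 : S_E1) (hE2 : S_E2) :
    S_E3 := by
  intro n
  obtain ⟨j2, h2⟩ := hE2 n 15
  obtain ⟨j1, h1⟩ := hE1 (j2 + 24)
  refine ⟨6 * j1, ?_⟩
  intro I _ _ dI D F h e q B r hn hB he bD bF bh iD iF ih hd dD dF dh qD qE qF Fq r1 r2
  have hη : 0 < 1 / B := by positivity
  have hΔ := (isHermitian_conjTranspose_mul_self D).add (isHermitian_mul_conjTranspose_self D)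
  obtain ⟨p, hp⟩ : ∃ p, p = pp B D := ⟨_, rfl⟩
  obtain ⟨g, hg⟩ : ∃ g, g = gg B D := ⟨_, rfl⟩
  obtain ⟨T, hT⟩ : ∃ T, T = TT B D := ⟨_, rfl⟩
  have hT' : T = D * p + Dᴴ * g := by rw [hT, hp, hg, TT]
  obtain ⟨p1, p2, p3, p4, p5, p6, p7, p8, -, -, -⟩ := core_green hd hη (p := p) (g := g) hp hg
  have d0 : Deg dI dI 0 (Dᴴ * D + D * Dᴴ) :=
    ((dD.conjT.mul dD).of_eq (by norm_num)).add ((dD.mul dD.conjT).of_eq (by norm_num))
  have d1 : Deg dI dI 0 (1 : Matrix I I ℝ) := by simpa using deg_diag (dI := dI) fun _ => (1 : ℝ)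
  have dp : Deg dI dI 0 p := hp ▸ d0.fc hΔ _
  have dg : Deg dI dI 0 g := hg ▸ d0.fc hΔ _
  have bp : Bd B 0 p := hp ▸ core_bd_chi hΔ _
  have bg : Bd B 1 g := hg ▸ core_bd_gr hΔ hB
  have be : Bd B 0 e := by rw [Bd, pow_zero]; exact he.nrm
  have bT : Bd B 6 T := hT' ▸ (bD.mul bp).add (bD.conjT.mul bg) hB
  have gq : g * q = q * g := hg ▸ fc_inter hΔ hΔ (Z := q) (by
    rw [Matrix.add_mul, Matrix.mul_add, Matrix.mul_assoc, Matrix.mul_assoc, ← qD, ← qE,
      ← Matrix.mul_assoc, ← Matrix.mul_assoc, ← qD, ← qE, Matrix.mul_assoc, Matrix.mul_assoc]) _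
  have hd' : Dᴴ * Dᴴ = 0 := by rw [← conjTranspose_mul, hd, conjTranspose_zero]
  have A1 : ∀ Z : Matrix I I ℝ, D * (D * Z) = 0 := fun Z => by
    rw [← Matrix.mul_assoc, hd, Matrix.zero_mul]
  have A2 : ∀ Z : Matrix I I ℝ, Dᴴ * (Dᴴ * Z) = 0 := fun Z => by
    rw [← Matrix.mul_assoc, hd', Matrix.zero_mul]
  have A3 : ∀ Z : Matrix I I ℝ, p * (D * Z) = D * (p * Z) := fun Z => by
    rw [← Matrix.mul_assoc, p1, Matrix.mul_assoc]
  have A4 : ∀ Z : Matrix I I ℝ, g * (D * Z) = D * (g * Z) := fun Z => by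
    rw [← Matrix.mul_assoc, p2, Matrix.mul_assoc]
  have A5 : ∀ Z : Matrix I I ℝ, p * (Dᴴ * Z) = Dᴴ * (p * Z) := fun Z => by
    rw [← Matrix.mul_assoc, p3, Matrix.mul_assoc]
  have A6 : ∀ Z : Matrix I I ℝ, g * (Dᴴ * Z) = Dᴴ * (g * Z) := fun Z => by
    rw [← Matrix.mul_assoc, p4, Matrix.mul_assoc]
  have A10 : ∀ Z : Matrix I I ℝ, p * Z = Dᴴ * (D * (g * Z)) + D * (Dᴴ * (g * Z)) := fun Z => by
    conv_lhs => rw [← p8]
    simp only [Matrix.add_mul, Matrix.mul_assoc]
  have TT' : T * T = p := by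
    simp only [hT', Matrix.add_mul, Matrix.mul_add, Matrix.mul_assoc, A1, A2, A3, A4, A5, A6, p6,
      p7, zero_add, add_zero]
    exact p8
  have pT : p * T = T := by
    simp only [hT', Matrix.mul_add, A3, A5, p5, p6]
  have ep := he.even p (Or.inl dp)
  have eT : e * T = T - T * e := by
    rw [hT', Matrix.mul_add, he.odd _ (Or.inr ((dD.mul dp).of_eq (by norm_num))),
      he.odd _ (Or.inl ((dD.conjT.mul dg).of_eq (by norm_num))), Matrix.add_mul]
    abel
  obtain ⟨M, hM⟩ : ∃ M, M = Dᴴ * (g * F) := ⟨_, rfl⟩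
  have dM : Deg dI dI 0 M := hM ▸ (dD.conjT.mul (dg.mul dF)).of_eq (by norm_num)
  have bM : Bd B 5 M := hM ▸ bD.conjT.mul (bg.mul bF)
  have qM : q * M = M := by
    rw [hM, ← Matrix.mul_assoc, qE, Matrix.mul_assoc, ← Matrix.mul_assoc q, ← gq,
      Matrix.mul_assoc, qF]
  have Mq : M * q = 0 := by
    rw [hM, Matrix.mul_assoc, Matrix.mul_assoc, Fq, Matrix.mul_zero, Matrix.mul_zero]
  have MM : M * M = 0 := by
    calc M * M = M * (q * M) := by rw [qM]
      _ = 0 := by rw [← Matrix.mul_assoc, Mq, Matrix.zero_mul]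
  have MDM : M * (D * M) = 0 := by
    calc M * (D * M) = M * (D * (q * M)) := by rw [qM]
      _ = 0 := by
        rw [← Matrix.mul_assoc D, ← qD, Matrix.mul_assoc, ← Matrix.mul_assoc, Mq, Matrix.zero_mul]
  have pM : p * M = M := by rw [hM, A5, ← Matrix.mul_assoc p, p6]
  have eM := he.even M (Or.inl dM)
  have uv := E3x.inv2 MM
  have vu := E3x.inv1 MM
  have rY : (D + F - (1 - M) * D * (1 + M)).rank ≤ (1 - p).rank + r := by
    have : D + F - (1 - M) * D * (1 + M) = (1 - p) * F + Dᴴ * (g * (D * F + F * D)) := by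
      simp only [Matrix.sub_mul, Matrix.mul_add, Matrix.mul_assoc, MDM, Matrix.one_mul,
        Matrix.mul_one]
      rw [A10 F, hM]
      simp only [Matrix.mul_assoc, A4]
      abel
    rw [this]
    exact (rk_add _ _).trans (Nat.add_le_add (rank_mul_le_left _ _)
      ((rank_mul_le_right _ _).trans ((rank_mul_le_right _ _).trans r1)))
  have bu : Bd B 6 (1 - M) := bd_one.sub bM hB
  have bv : Bd B 6 (1 + M) := bd_one.add bM hB
  have rγ : (D * ((1 + M) * h * (1 - M)) + (1 + M) * h * (1 - M) * D - 1).rank ≤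
      3 * r + 2 * (1 - p).rank := by
    rw [E3x.conj vu]
    refine (rank_mul_le_left _ _).trans ((rank_mul_le_right _ _).trans ?_)
    generalize (1 - M) * D * (1 + M) = X at rY
    have : X * h + h * X - 1 =
        (D + F) * h + h * (D + F) - 1 - (D + F - X) * h - h * (D + F - X) := by
      simp only [Matrix.sub_mul, Matrix.mul_sub]
      abel
    rw [this]
    exact ((rk_sub _ _).trans (Nat.add_le_add ((rk_sub _ _).trans (Nat.add_le_add r2
      ((rank_mul_le_left _ _).trans rY))) ((rank_mul_le_right _ _).trans rY))).trans (by omega)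
  obtain ⟨U, U', u1, u2, u3, bU, bU', u4⟩ := h2 I dI D e ((1 + M) * h * (1 - M)) B _ hn hB he hd dD
    ((((d1.add dM).mul dh).mul (d1.sub dM)).of_eq (by norm_num)) bD ((bv.mul bh).mul bu) rγ
  rw [← hp] at u3 u4
  rw [← hT] at u4
  obtain ⟨A, hA⟩ : ∃ A, A = T * (M * (T * e)) := ⟨_, rfl⟩
  have bA : Bd B 17 A := hA ▸ bT.mul (bM.mul (bT.mul be))
  have eTe : e * (T * e) = 0 := by
    rw [← Matrix.mul_assoc, eT, Matrix.sub_mul, Matrix.mul_assoc, he.idem, sub_self]
  have eA : e * A = A := by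
    rw [hA, ← Matrix.mul_assoc, eT, Matrix.sub_mul, Matrix.mul_assoc T e, ← Matrix.mul_assoc e, eM,
      Matrix.mul_assoc M e, eTe, Matrix.mul_zero, Matrix.mul_zero, sub_zero]
  have TA : T * A = M * (T * e) := by
    rw [hA, ← Matrix.mul_assoc, TT', ← Matrix.mul_assoc, pM]
  have AA : A * A = 0 := by
    conv_lhs => arg 1; rw [hA]
    simp only [Matrix.mul_assoc]
    rw [eA, TA, ← Matrix.mul_assoc M M, MM, Matrix.zero_mul, Matrix.mul_zero]
  have NN : M * e * (M * e) = 0 := by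
    rw [Matrix.mul_assoc, ← Matrix.mul_assoc e, eM, ← Matrix.mul_assoc, ← Matrix.mul_assoc, MM,
      Matrix.zero_mul, Matrix.zero_mul]
  have eN : e * (M * e) = M * e := by
    rw [← Matrix.mul_assoc, eM, Matrix.mul_assoc, he.idem]
  have bN : Bd B 5 (M * e) := bM.mul be
  have main := h1 I dI D e ((1 - A) * U * (1 + M * e)) ((1 - M * e) * U' * (1 + A))
    ((D + F + h) * e) B (4 * r + 5 * (1 - p).rank) hB he hd dD bD
    ((((bd_one.sub bA hB).mul bU).mul (bd_one.add bN hB)).mono hB (by omega))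
    ((((bd_one.sub bN hB).mul bU').mul (bd_one.add bA hB)).mono hB (by omega))
    ((((bD.add bF hB).add bh hB).mul be).mono hB (by omega))
    (((iD.add iF).add ih).mul he.int) (by rw [Matrix.mul_assoc, he.idem])
    (by
      simp only [Matrix.mul_assoc]
      rw [← Matrix.mul_assoc (1 + A), E3x.inv1 AA, Matrix.one_mul, ← Matrix.mul_assoc U', u1,
        Matrix.one_mul, E3x.inv2 NN])
    (by
      rw [det_mul, det_mul, u2, det_nil ⟨2, by rw [sq, NN]⟩, sub_eq_add_neg,
        det_nil ⟨2, by rw [sq, neg_mul_neg, AA]⟩, mul_one, mul_one])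
    (by
      rw [← hp]
      refine E3x.fix (E3x.fix ?_ u3) ?_
      · rw [sub_sub_cancel_left, Matrix.mul_neg, Matrix.mul_assoc, eA, hA, ← Matrix.mul_assoc, pT]
      · rw [add_sub_cancel_left, Matrix.mul_assoc, eN, ← Matrix.mul_assoc, pM])
    (by
      rw [← hT, E3x.defect (u := 1 - M) (v := 1 + M) uv
        (by rw [Matrix.add_mul, Matrix.mul_add, eN, Matrix.one_mul, Matrix.mul_one])
        (by rw [Matrix.sub_mul, Matrix.mul_sub, Matrix.one_mul, Matrix.mul_one,
          Matrix.mul_assoc T e A, eA, TA])]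
      exact ((rk_add _ _).trans (Nat.add_le_add ((rank_mul_le_left _ _).trans rY)
        ((rank_mul_le_left _ _).trans ((rank_mul_le_right _ _).trans u4)))).trans (by omega))
  rw [← hp] at main ⊢
  refine main.trans ?_
  have hL : 0 ≤ Real.log B := Real.log_nonneg (by linarith)
  have x1 : 0 ≤ (j1 : ℝ) * (r * Real.log B) := by positivity
  push_cast
  nlinarith

end Pool.Agent.P.MP_f30597_gt.DV
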