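import Pool.Agent.P.MP_f30597_gt.DV.IfaceE

/-! Step E4. -/

set_option autoImplicit false
set_option linter.unusedSectionVars false

namespace Pool.Agent.P.MP_f30597_gt.DV

open Matrix Finset Filter MeasureTheory SI
open scoped Matrix.Norms.L2Operator

namespace E4x

variable {I J : Type} [Fintype I] [DecidableEq I] [Fintype J] [DecidableEq J]

theorem fc_blocks {a : Matrix I I ℝ} {b : Matrix J J ℝ} (ha : a.IsHermitian) (hb : b.IsHermitian)
    (F : ℝ → ℝ) : fc F (fromBlocks a 0 0 b) = fromBlocks (fc F a) 0 0 (fc F b) := by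
  have hH : (fromBlocks a 0 0 b).IsHermitian := ha.fromBlocks (by simp) hb
  have h1 := fc_inter hH ha (Z := fromRows (1 : Matrix I I ℝ) (0 : Matrix J I ℝ))
    (by simp [fromBlocks_mul_fromRows, fromRows_mul]) F
  have h2 := fc_inter hH hb (Z := fromRows (0 : Matrix I J ℝ) (1 : Matrix J J ℝ))
    (by simp [fromBlocks_mul_fromRows, fromRows_mul]) F
  rw [← fromBlocks_toBlocks (fc F (fromBlocks a 0 0 b))] at h1 h2 ⊢
  simp only [fromBlocks_mul_fromRows, fromRows_mul, Matrix.mul_one, Matrix.mul_zero, add_zero,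
    zero_add, Matrix.one_mul, Matrix.zero_mul, fromRows_ext_iff] at h1 h2
  rw [h1.1, h1.2, h2.1, h2.2]

theorem deg_blocks {dI : I → ℕ} {dJ : J → ℕ} {j : ℤ} {a : Matrix I I ℝ} {b : Matrix I J ℝ}
    {c : Matrix J I ℝ} {d : Matrix J J ℝ} (ha : Deg dI dI j a) (hb : Deg dI dJ j b)
    (hc : Deg dJ dI j c) (hd : Deg dJ dJ j d) :
    Deg (Sum.elim dI dJ) (Sum.elim dI dJ) j (fromBlocks a b c d) := by
  rintro (x | x) (y | y) h
  exacts [ha x y h, hb x y h, hc x y h, hd x y h]

theorem deg_zero {dI : I → ℕ} {dJ : J → ℕ} {j : ℤ} : Deg dI dJ j (0 : Matrix I J ℝ) :=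
  fun _ _ h => absurd rfl h

theorem int_zero : IsInt (0 : Matrix I J ℝ) := fun _ _ => ⟨0, by simp⟩

theorem tr_blocks (a : Matrix I I ℝ) (b : Matrix J J ℝ) :
    (fromBlocks a 0 0 b).trace = a.trace + b.trace := by
  simp [trace, Fintype.sum_sum_type]

/-- the parity indicator -/
noncomputable def u (i k : ℕ) : ℝ := if Even (k + i) then 1 else 0

theorem u1 (i k : ℕ) : u i (k + 1) = 1 - u i k := by
  simp only [u, show k + 1 + i = k + i + 1 by ring, Nat.even_add_one]
  by_cases h : Even (k + i) <;> simp [h]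

theorem u4 (i k : ℕ) : u (i + 1) (k + 1) - u (i + 1) k = (-1) ^ (k + i) := by
  rw [u1]
  simp only [u, ← add_assoc, Nat.even_add_one]
  by_cases h : Even (k + i)
  · simp [h]
  · simp [h, (Nat.not_even_iff_odd.1 h).neg_one_pow]

theorem u5 (i : ℕ) {n k : ℕ} (hn : Even n) (hk : k ≤ n) : u i (n - k) = u i k := by
  have h : Even (n - k + i) ↔ Even (k + i) := by
    simp only [Nat.even_iff] at *
    omega
  simp only [u, h]

theorem ev (dI : I → ℕ) (i : ℕ) : Ev dI (diagonal fun a => u i (dI a)) := by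
  have one : diagonal (fun a => 1 - u i (dI a)) = 1 - diagonal fun a => u i (dI a) := by
    rw [← diagonal_one, diagonal_sub]
  refine ⟨isHermitian_diagonal _, ?_, isInt_diag _, nrm_diag zero_le_one fun a => ?_, deg_diag _,
    ?_, ?_⟩
  · rw [diagonal_mul_diagonal]
    congr 1
    funext a
    unfold u
    split_ifs <;> simp
  · unfold u
    split_ifs <;> simp
  · rintro Z (hZ | hZ)
    · exact hZ.comm (u i) (u i) fun a b h => by rw [show a = b by omega]
    · exact hZ.comm (u i) (u i) fun a b h => by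
        rw [show a = b + 1 + 1 by omega, u1, u1]
        ring
  · rintro Z (hZ | hZ)
    · rw [hZ.comm (u i) (fun k => 1 - u i k) fun a b h => by rw [show a = b + 1 by omega, u1], one,
        Matrix.mul_sub, Matrix.mul_one]
    · rw [hZ.comm (u i) (fun k => 1 - u i k) fun a b h => by
        rw [show b = a + 1 by omega, u1]
        ring, one, Matrix.mul_sub, Matrix.mul_one]

end E4x

open E4x in
theorem p_E4 (hE3 : S_E3) :
    S_E4 := by
  intro n hev
  obtain ⟨j, hj⟩ := hE3 (n + 1)
  refine ⟨2 * j, ?_⟩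
  intro X _ _ dX d φ a b ψ f B r hn hB bd bφ ba bb bψ bf id iφ ia ib iψ if' hd dd dφ da db dψ df
    hc i
  have ha := isHermitian_conjTranspose_mul_self d
  have hb := isHermitian_mul_conjTranspose_self d
  have hd' : dᴴ * dᴴ = 0 := by rw [← conjTranspose_mul, hd, conjTranspose_zero]
  have bd' : ‖dᴴ‖ ≤ B := by rwa [l2_opNorm_conjTranspose]
  have bφ' : ‖φᴴ‖ ≤ B := by rwa [l2_opNorm_conjTranspose]
  have main := hj (X ⊕ X) (Sum.elim (fun x => dX x + 1) fun x => n - dX x)
    (fromBlocks (-dᴴ) 0 0 d) (fromBlocks 0 0 φᴴ 0) (fromBlocks a b ψ f)ᴴ _ (fromBlocks 0 0 0 1) B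
    (4 * r) (by
      rintro (x | x)
      · exact Nat.succ_le_succ (hn x)
      · exact (Nat.sub_le _ _).trans (Nat.le_succ n)) hB (ev _ (i + 1))
    ((core_nrm_blocks _ _ _ _).trans (by
      simp only [norm_neg, norm_zero]
      nlinarith))
    ((core_nrm_blocks _ _ _ _).trans (by
      simp only [norm_zero]
      nlinarith))
    (Bd.conjT ((core_nrm_blocks _ _ _ _).trans (by
      have : 4 * B ≤ B ^ 3 := by nlinarith [mul_nonneg (sub_nonneg.2 hB) (sq_nonneg B)]
      linarith)))
    (core_int_blocks id.conjT.neg int_zero int_zero id)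
    (core_int_blocks int_zero int_zero iφ.conjT int_zero)
    (core_int_blocks ia ib iψ if').conjT
    (by simp [fromBlocks_multiply, hd, show dᵀ * dᵀ = 0 from hd'])
    (deg_blocks (fun x y h => by
      have := dd.conjT.neg x y h
      push_cast
      omega) deg_zero deg_zero fun x y h => by
      have := dd x y h
      have := hn x
      omega)
    (deg_blocks deg_zero deg_zero (fun x y h => by
      have := dφ.conjT x y h
      push_cast at this ⊢
      omega) deg_zero)
    ((deg_blocks (j := -1) (fun x y h => by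
      have := da x y h
      push_cast
      omega) (fun x y h => by
      have := db x y h
      push_cast at this ⊢
      omega) (fun x y h => by
      have := dψ x y h
      push_cast at this ⊢
      omega) fun x y h => by
      have := df x y h
      have := hn x
      omega).conjT.of_eq (by norm_num))
    (by simp [fromBlocks_multiply]) (by simp [fromBlocks_multiply, fromBlocks_transpose])
    (by simp [fromBlocks_multiply]) (by simp [fromBlocks_multiply])
    (by
      have e : fromBlocks (-dᴴ) 0 0 d * fromBlocks 0 0 φᴴ 0 +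
          fromBlocks 0 0 φᴴ 0 * fromBlocks (-dᴴ) 0 0 d =
          (fromBlocks 0 0 (-(d * φ - φ * dᴴ)ᴴ) 0 : Matrix (X ⊕ X) (X ⊕ X) ℝ) := by
        simp [fromBlocks_multiply, fromBlocks_add, sub_eq_add_neg]
      have h1 := rk_neg (d * φ - φ * dᴴ)ᴴ
      have h2 := hc.ch
      rw [rank_conjTranspose] at h1
      rw [e]
      refine (core_rk_blocks _ _ _ _).trans ?_
      simp only [rank_zero]
      omega)
    (by
      have e : (fromBlocks (-dᴴ) 0 0 d + fromBlocks 0 0 φᴴ 0) * (fromBlocks a b ψ f)ᴴ +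
          (fromBlocks a b ψ f)ᴴ * (fromBlocks (-dᴴ) 0 0 d + fromBlocks 0 0 φᴴ 0) - 1 =
          (fromBlocks (φ * ψ - (d * a + a * d) - 1) (φ * f + a * φ + b * dᴴ - d * b)
            (dᴴ * ψ - ψ * d) (ψ * φ + (dᴴ * f + f * dᴴ) - 1))ᴴ := by
        rw [← fromBlocks_one, sub_eq_add_neg]
        simp only [fromBlocks_add, fromBlocks_conjTranspose, fromBlocks_multiply, fromBlocks_neg,
          conjTranspose_sub, conjTranspose_add, conjTranspose_mul, conjTranspose_one,
          conjTranspose_conjTranspose, add_zero, zero_add, Matrix.zero_mul, Matrix.mul_zero,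
          Matrix.neg_mul, Matrix.mul_neg, neg_zero]
        congr 1 <;> abel
      have h1 := hc.e₁
      have h2 := hc.e₂
      have h3 := hc.e₃
      have h4 := hc.e₄
      rw [e, rank_conjTranspose]
      exact (core_rk_blocks _ _ _ _).trans (by omega))
  have e1 : fromBlocks (-dᴴ) 0 0 d * (fromBlocks (-dᴴ) 0 0 d)ᴴ =
      (fromBlocks (dᴴ * d) 0 0 (d * dᴴ) : Matrix (X ⊕ X) (X ⊕ X) ℝ) := by
    simp [fromBlocks_multiply, fromBlocks_transpose]
  have e2 : (fromBlocks (-dᴴ) 0 0 d)ᴴ * fromBlocks (-dᴴ) 0 0 d =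
      (fromBlocks (d * dᴴ) 0 0 (dᴴ * d) : Matrix (X ⊕ X) (X ⊕ X) ℝ) := by
    simp [fromBlocks_multiply, fromBlocks_transpose]
  have e3 : (diagonal fun x => u (i + 1) (Sum.elim (fun x => dX x + 1) (fun x => n - dX x) x)) =
      fromBlocks (diagonal fun x => u (i + 1) (dX x + 1)) 0 0
        (diagonal fun x => u (i + 1) (dX x)) := by
    rw [fromBlocks_diagonal]
    congr 1
    funext x
    rcases x with x | x
    · rfl
    · exact u5 _ hev (hn x)
  have e4 : (1 - pp B (fromBlocks (-dᴴ) 0 0 d)).rank ≤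
      2 * (1 - fc (chi (1 / B)) (d * dᴴ + dᴴ * d)).rank := by
    rw [pp, e1, e2, fromBlocks_add, add_zero, add_comm (dᴴ * d), fc_blocks (hb.add ha) (hb.add ha),
      ← fromBlocks_one, sub_eq_add_neg, fromBlocks_neg, fromBlocks_add]
    refine (core_rk_blocks _ _ _ _).trans ?_
    simp only [neg_zero, add_zero, rank_zero, ← sub_eq_add_neg]
    omega
  have fl0 : fl (1 / B) 0 = 0 := by simp [fl]
  have e5 := core_shift dd fl0 (u (i + 1))
  have e6 := core_shift dd fl0 fun k => u (i + 1) (k + 1)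
  have e7 : (diagonal (fun x => (-1 : ℝ) ^ (dX x + i)) * fc (fl (1 / B)) (dᴴ * d)).trace =
      (diagonal (fun x => u (i + 1) (dX x + 1)) * fc (fl (1 / B)) (dᴴ * d)).trace -
      (diagonal (fun x => u (i + 1) (dX x)) * fc (fl (1 / B)) (dᴴ * d)).trace := by
    rw [← trace_sub, ← Matrix.sub_mul, diagonal_sub]
    simp only [u4]
  have e8 : ∀ k, u (i + 1) (k + 1 + 1) = u (i + 1) k := fun k => by
    rw [u1, u1]
    ring
  simp only [e8] at e6
  rw [tau, e1, e2, e3, fc_blocks ha hb, fc_blocks hb ha, fromBlocks_multiply, fromBlocks_multiply]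
    at main
  simp only [Matrix.mul_zero, Matrix.zero_mul, add_zero, zero_add, tr_blocks, e5, e6] at main
  have hL : 0 ≤ Real.log B := Real.log_nonneg (by linarith)
  have e9 : ((1 - pp B (fromBlocks (-dᴴ) 0 0 d)).rank : ℝ) ≤
      2 * (1 - fc (chi (1 / B)) (d * dᴴ + dᴴ * d)).rank := by exact_mod_cast e4
  have x1 := mul_le_mul_of_nonneg_left (mul_le_mul_of_nonneg_right e9 hL) (Nat.cast_nonneg j)
  have x2 : 0 ≤ (j : ℝ) * (((1 - fc (chi (1 / B)) (d * dᴴ + dᴴ * d)).rank : ℝ) * Real.log B) := by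
    positivity
  rw [e7]
  push_cast at main ⊢
  nlinarith

end Pool.Agent.P.MP_f30597_gt.DV
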