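import Pool.Agent.P.MP_f30597_gt.DV.IfaceE

/-! Step E5. -/

set_option autoImplicit false
set_option linter.unusedSectionVars false

namespace Pool.Agent.P.MP_f30597_gt.DV

open Matrix Finset Filter MeasureTheory SI
open scoped Matrix.Norms.L2Operator

theorem p_E5 :
    S_E5 := by
  intro n j X _ _ dX d B r hn hB hd dd m
  have ha := isHermitian_conjTranspose_mul_self d
  have hb := isHermitian_mul_conjTranspose_self d
  have hD := hb.add ha
  have hB0 : 0 < B := by linarith
  have hd' : dᴴ * dᴴ = 0 := by rw [← conjTranspose_mul, hd, conjTranspose_zero]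
  have e1 : ∀ Z : Matrix X X ℝ, ∑ p ∈ range (n + 1), (-1) ^ p * (p : ℝ) *
      (diagonal (ind dX p) * Z).trace =
      (diagonal (fun a => (-1) ^ dX a * (dX a : ℝ)) * Z).trace := fun Z => by
    simp only [trace, diag_apply, diagonal_mul, mul_sum, ind]
    rw [sum_comm]
    refine sum_congr rfl fun a _ => ?_
    rw [sum_eq_single (dX a) (fun b _ hb => by simp [hb.symm])
      (fun h => absurd (mem_range.2 (Nat.lt_succ_of_le (hn a))) h)]
    simp
  have e2 : fc (lg B) (d * dᴴ + dᴴ * d) = fc (fl (1 / B)) (d * dᴴ + dᴴ * d) -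
      Real.log B • (1 - fc (chi (1 / B)) (d * dᴴ + dᴴ * d)) := by
    rw [← fc_one hD, fc_sub hD, fc_smul hD, fc_sub hD]
    congr 1
    funext t
    unfold lg fl chi
    split_ifs with h
    · simp only [max_eq_left h, sub_self, mul_zero, sub_zero]
    · rw [max_eq_right (not_le.1 h).le, one_div, Real.log_inv]
      ring
  have e3 : 1 - fc (chi (1 / B)) (d * dᴴ + dᴴ * d) =
      fc (fun t => if t < 1 / B then 1 else 0) (d * dᴴ + dᴴ * d) := by
    rw [← fc_one hD, fc_sub hD]
    congr 1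
    funext t
    unfold chi
    by_cases h : t < 1 / B
    · rw [if_pos h, if_neg (not_le.2 h), sub_zero]
    · rw [if_neg h, if_pos (not_lt.1 h), sub_self]
  have e4 : ((1 - fc (chi (1 / B)) (d * dᴴ + dᴴ * d)).rank : ℝ) ≤
      (fc (tent B) (d * dᴴ + dᴴ * d)).trace := by
    rw [e3, fc_rank hD, fc_trace hD, fc_trace hD]
    refine sum_le_sum fun i _ => ?_
    unfold tent
    split_ifs with h
    · rw [lt_div_iff₀ hB0] at h
      exact le_max_of_le_right (le_min le_rfl (by linarith))
    · exact le_max_left _ _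
  have e5 : |(diagonal (fun a => (-1) ^ dX a * (dX a : ℝ)) *
      (1 - fc (chi (1 / B)) (d * dᴴ + dᴴ * d))).trace| ≤
      2 * (1 - fc (chi (1 / B)) (d * dᴴ + dᴴ * d)).rank * n := by
    refine (trace_le_rank _).trans (mul_le_mul (mul_le_mul_of_nonneg_left
      (Nat.cast_le.2 (rank_mul_le_right _ _)) zero_le_two) ?_ (norm_nonneg _) (by positivity))
    rw [← mul_one (n : ℝ)]
    refine nrm_mul (nrm_diag (Nat.cast_nonneg n) fun a => ?_) ?_
    · simpa [abs_mul] using hn a
    · rw [e3]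
      exact fc_norm hD zero_le_one fun i => by split_ifs <;> simp
  have e6 : (diagonal (fun a => (-1) ^ dX a * (dX a : ℝ)) *
      fc (fl (1 / B)) (d * dᴴ + dᴴ * d)).trace =
      (diagonal (fun a => (-1 : ℝ) ^ (dX a + 1)) * fc (fl (1 / B)) (dᴴ * d)).trace := by
    rw [core_orth hb ha (by rw [Matrix.mul_assoc, ← Matrix.mul_assoc dᴴ, hd']; simp)
      (by rw [Matrix.mul_assoc, ← Matrix.mul_assoc d, hd]; simp) (by simp [fl]), Matrix.mul_add,
      trace_add, core_shift dd (by simp [fl]) fun k => (-1) ^ k * (k : ℝ), ← trace_add,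
      ← Matrix.add_mul, diagonal_add]
    congr 3
    funext a
    push_cast
    ring
  have e7 : (diagonal (fun a => (-1 : ℝ) ^ (dX a + 0)) * fc (fl (1 / B)) (dᴴ * d)).trace =
      -(diagonal (fun a => (-1 : ℝ) ^ (dX a + 1)) * fc (fl (1 / B)) (dᴴ * d)).trace := by
    rw [← trace_neg, ← Matrix.neg_mul, diagonal_neg]
    simp [pow_succ]
  have m0 := m 0
  have m1 := m 1
  rw [e7] at m0
  rw [e1, e2, Matrix.mul_sub, trace_sub, Matrix.mul_smul, trace_smul, smul_eq_mul, e6]
  have hL : 0 ≤ Real.log B := Real.log_nonneg (by linarith)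
  have x0 := (Nat.cast_nonneg _).trans e4
  generalize ((1 - fc (chi (1 / B)) (d * dᴴ + dᴴ * d)).rank : ℝ) = R at *
  generalize (fc (tent B) (d * dᴴ + dᴴ * d)).trace = T at *
  have x1 := mul_le_mul_of_nonneg_left (mul_le_mul_of_nonneg_right e4 hL) (Nat.cast_nonneg j)
  have x2 := mul_le_mul_of_nonneg_left (mul_le_mul_of_nonneg_right e4 hL) (Nat.cast_nonneg n)
  have x3 := mul_le_mul_of_nonneg_left (abs_le.1 e5).1 hL
  have x4 := mul_le_mul_of_nonneg_left (abs_le.1 e5).2 hL
  have x5 : 0 ≤ (r : ℝ) * Real.log B := by positivity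
  have x6 := mul_nonneg (Nat.cast_nonneg n) x5
  have x8 : 0 ≤ T * Real.log B := mul_nonneg x0 hL
  rw [abs_le]
  constructor <;> nlinarith

end Pool.Agent.P.MP_f30597_gt.DV
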