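import Pool.Agent.P.MP_f30597_gt.DV.IfaceE

/-! Step E6. -/

set_option autoImplicit false
set_option linter.unusedSectionVars false

namespace Pool.Agent.P.MP_f30597_gt.DV

open Matrix Finset Filter MeasureTheory SI
open scoped Matrix.Norms.L2Operator

namespace E6x

variable {G ι : Type} [Group G] [Fintype ι] [DecidableEq ι]

theorem hom_fill {deg : ι → ℕ} {c : Matrix ι ι (ZG G)} (hc : ∀ a b, c a b ≠ 0 → deg a = deg b + 1)
    {k : ℕ} {x y : ι → ZG G} (hx : x ∈ Hm deg k) (hy : y ᵥ* c = x) :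
    ∃ z ∈ Hm deg (k + 1), c.vecMulLinear z = x := by
  refine ⟨fun b => if deg b = k + 1 then y b else 0, fun b hb => by
    by_contra e
    simp [e] at hb, ?_⟩
  funext j
  change ∑ b, (if deg b = k + 1 then y b else 0) * c b j = x j
  by_cases hj : deg j = k
  · rw [← hy]
    refine sum_congr rfl fun b _ => ?_
    by_cases e : c b j = 0
    · simp [e]
    · have := hc b j e
      simp [show deg b = k + 1 by omega]
  · have : x j = 0 := by by_contra e; exact hj (hx j e)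
    rw [this]
    refine sum_eq_zero fun b _ => ?_
    by_cases e : c b j = 0
    · simp [e]
    · have := hc b j e
      simp [show deg b ≠ k + 1 by omega]

theorem cone {deg deg' : ι → ℕ} {c c' φ : Matrix ι ι (ZG G)} {w w' : ι → ℤ}
    (R : IsResolution deg c w) (R' : IsResolution deg' c' w') (h1 : c * φ = φ * c')
    (h2 : ∀ a, aug w' (φ a) = w a) (z : ι ⊕ ι → ZG G) (hz : z ᵥ* fromBlocks (-c) φ 0 c' = 0) :
    ∃ v, v ᵥ* fromBlocks (-c) φ 0 c' = z := by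
  have ha : ∀ x : ι → ZG G, aug w' (x ᵥ* φ) = aug w x := fun x => by
    rw [aug_vecMul, aug_eq]
    exact sum_congr rfl fun a _ => by rw [h2, mul_comm]
  rw [vecMul_fromBlocks] at hz
  have e1 : (z ∘ Sum.inl) ᵥ* c = 0 := by
    have : (z ∘ Sum.inl) ᵥ* (-c) + (z ∘ Sum.inr) ᵥ* (0 : Matrix ι ι (ZG G)) = 0 :=
      funext fun a => congrFun hz (Sum.inl a)
    rwa [vecMul_zero, add_zero, vecMul_neg, neg_eq_zero] at this
  have e2 : (z ∘ Sum.inl) ᵥ* φ = 0 - (z ∘ Sum.inr) ᵥ* c' :=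
    eq_sub_of_add_eq (funext fun a => congrFun hz (Sum.inr a))
  obtain ⟨x', hx'⟩ := (R.exact _).1 ⟨e1, by
    rw [← ha, e2, pat_aug_sub, ((R'.exact _).2 ⟨_, rfl⟩).2, sub_zero]
    exact (augH w').map_zero⟩
  obtain ⟨x₁, b0, b1⟩ := exists_base R
  obtain ⟨m, hm⟩ : ∃ m : ZG G, eps m = aug w' (z ∘ Sum.inr + x' ᵥ* φ) :=
    ⟨((aug w' (z ∘ Sum.inr + x' ᵥ* φ) : ℤ) : ZG G), by simp⟩
  have b2 : (m • x₁) ᵥ* c = 0 := hm_zero R ((Hm deg 0).smul_mem _ b0)
  obtain ⟨y', hy'⟩ := (R'.exact (z ∘ Sum.inr + x' ᵥ* φ - (m • x₁) ᵥ* φ)).1 ⟨by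
    rw [sub_vecMul, add_vecMul, vecMul_vecMul, vecMul_vecMul, ← h1, ← vecMul_vecMul,
      ← vecMul_vecMul, hx', b2, e2]
    simp, by rw [pat_aug_sub, ha, aug_smul, hm, b1, mul_one, sub_self]⟩
  refine ⟨Sum.elim (m • x₁ - x') y', ?_⟩
  rw [vecMul_fromBlocks, Sum.elim_comp_inl, Sum.elim_comp_inr, vecMul_zero, add_zero, vecMul_neg,
    sub_vecMul, sub_vecMul, b2, hx', hy']
  funext a
  cases a <;> simp

end E6x

theorem p_E6 :
    S_E6 := by
  intro G ι _ _ _ deg c w w' n R hn R'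
  obtain ⟨Ψ, hΨ⟩ := exists_psi R'
  obtain ⟨β, hβ⟩ := exists_beta R
  obtain ⟨p0, p1, p2⟩ := psi_beta hΨ hβ
  generalize hφ : (Matrix.of fun a => Ψ (β a)) = φ at p1
  have q0 : ∀ a b, φ a b ≠ 0 → n - deg b = deg a := fun a b => hφ ▸ p0 a b
  have q2 : ∀ a, aug w' (φ a) = w a := fun a => hφ ▸ p2 a
  let D : ι ⊕ ι → ℕ := Sum.elim (fun x => deg x + 1) fun x => n - deg x
  have hD : ∀ a b, fromBlocks (-c) φ 0 (cst c) a b ≠ 0 → D a = D b + 1 := by
    rintro (a | a) (b | b) e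
    · exact congrArg (· + 1) (R.graded a b (neg_ne_zero.1 e))
    · exact congrArg (· + 1) (q0 a b e).symm
    · exact absurd rfl e
    · exact R'.graded a b e
  have h2 : fromBlocks (-c) φ 0 (cst c) * fromBlocks (-c) φ 0 (cst c) = 0 := by
    rw [fromBlocks_multiply, ← fromBlocks_zero]
    simp [R.sq, R'.sq, p1]
  generalize hδ : fromBlocks (-c) φ 0 (cst c) = δ at hD h2
  have e1 : ∀ a, (1 : Matrix (ι ⊕ ι) (ι ⊕ ι) (ZG G)) a = Pi.single a 1 := fun a => by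
    ext b : 1; simp [one_apply, Pi.single_apply, eq_comm]
  obtain ⟨H, hH⟩ := gen D (-δ) (fun a b e => hD a b (neg_ne_zero.1 e)) (by rw [neg_mul_neg, h2])
    δ.vecMulLinear (Hm D) (fun k => Hm D (k + 1)) (fun _ => le_rfl)
    (fun k y hy e => by
      obtain ⟨v, hv⟩ := E6x.cone R R' p1 q2 y (hδ ▸ e)
      exact E6x.hom_fill hD hy (hδ ▸ hv))
    (1 : Matrix (ι ⊕ ι) (ι ⊕ ι) (ZG G)) (fun a => e1 a ▸ pat_hom_single D a) fun a => by
      rw [sum_smul_row]
      change ((1 : Matrix (ι ⊕ ι) (ι ⊕ ι) (ZG G)) * δ +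
        -δ * (1 : Matrix (ι ⊕ ι) (ι ⊕ ι) (ZG G))) a = 0
      rw [Matrix.one_mul, Matrix.mul_one, add_neg_cancel]
      rfl
  have e : Matrix.of H * δ + δ * Matrix.of H = 1 := funext fun a => by
    have := (hH a).2.trans (congrArg _ (sum_smul_row (-δ) (Matrix.of H) a))
    rw [Matrix.neg_mul] at this
    exact eq_add_neg_iff_add_eq.1 this
  rw [← fromBlocks_toBlocks (Matrix.of H), ← hδ, fromBlocks_multiply, fromBlocks_multiply,
    fromBlocks_add, ← fromBlocks_one, fromBlocks_inj] at e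
  obtain ⟨f1, f2, f3, f4⟩ := e
  refine ⟨φ, (Matrix.of H).toBlocks₁₁, (Matrix.of H).toBlocks₁₂, (Matrix.of H).toBlocks₂₁,
    (Matrix.of H).toBlocks₂₂, fun x y e => ?_, fun x y e => ?_, fun x y e => ?_, fun x y e => ?_,
    fun x y e => ?_, p1, ?_, ?_, ?_, ?_⟩
  · have := q0 x y e; have := hn y; omega
  · have : deg y + 1 = deg x + 1 + 1 := (hH (.inl x)).1 (.inl y) e
    omega
  · have : n - deg y = deg x + 1 + 1 := (hH (.inl x)).1 (.inr y) e
    omega
  · have : deg y + 1 = n - deg x + 1 := (hH (.inr x)).1 (.inl y) e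
    have := hn x; omega
  · have : n - deg y = n - deg x + 1 := (hH (.inr x)).1 (.inr y) e
    have := hn x; omega
  · rw [← f1]; simp only [Matrix.mul_neg, Matrix.neg_mul, Matrix.mul_zero]; abel
  · rw [← sub_eq_zero, ← f2]; simp only [Matrix.neg_mul]; abel
  · rw [← sub_eq_zero, ← f3]; simp only [Matrix.mul_neg, Matrix.zero_mul, Matrix.mul_zero]; abel
  · rw [← f4]; simp only [Matrix.zero_mul]; abel

end Pool.Agent.P.MP_f30597_gt.DV
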