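import Pool.Agent.P.MP_f30597_gt.DV.IfaceE

/-! Step E7. -/

set_option autoImplicit false
set_option linter.unusedSectionVars false

namespace Pool.Agent.P.MP_f30597_gt.DV

open Matrix Finset Filter MeasureTheory SI
open scoped Matrix.Norms.L2Operator

namespace E7x

open Topology

variable {G ι : Type} [Group G] [Fintype ι] [DecidableEq ι] {S : Sof G} {X Y : S.Mat ι ι}
  {x y : Matrix ι ι (ZG G)}

/-- a family of matrices agrees with the model of `x` up to negligible rank -/
def Ap (S : Sof G) (X : S.Mat ι ι) (x : Matrix ι ι (ZG G)) : Prop :=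
  S.Neg fun i => X i - mdl (S.act i) x

theorem rf (S : Sof G) (x : Matrix ι ι (ZG G)) : Ap S (fun i => mdl (S.act i) x) x :=
  Sof.neg_zero'.congr fun _ => (sub_self _).symm

theorem Ap.mul (h : Ap S X x) (h' : Ap S Y y) : Ap S (fun i => X i * Y i) (x * y) :=
  (Sof.Neg.mul_congr h h').trans (Sof.neg_mdl_mul _ _)

theorem Ap.add (h : Ap S X x) (h' : Ap S Y y) : Ap S (fun i => X i + Y i) (x + y) :=
  (Sof.Neg.add h h').congr fun i => by
    simp only [mdl_add]
    abel

theorem Ap.sub (h : Ap S X x) (h' : Ap S Y y) : Ap S (fun i => X i - Y i) (x - y) :=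
  (Sof.Neg.sub h h').congr fun i => by
    simp only [mdl_sub]
    abel

theorem one (S : Sof G) : Ap S (fun _ => 1) (1 : Matrix ι ι (ZG G)) := Sof.neg_mdl_one.symm

theorem Ap.fin (h : Ap S X x) (e : x = 0) :
    Tendsto (fun i => ((X i).rank : ℝ) / S.N i) S.l (𝓝 0) :=
  Sof.Neg.congr h fun i => by rw [e, mdl_zero, sub_zero]

end E7x

open Topology E7x in
theorem p_E7 (hE4 : S_E4) (hE5 : S_E5) (hE6 : S_E6) :
    S_E7 := by
  intro G ι _ _ _ S deg c w w' n μ K hev hres hn hres' hμ
  obtain ⟨j, hj⟩ := hE4 n hev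
  obtain ⟨φ, a, b, ψ, f, g1, g2, g3, g4, g5, q1, q2, q3, q4, q5⟩ :=
    hE6 G ι deg c w w' n hres hn hres'
  have := S.ne
  obtain ⟨d, M', hd, Nd⟩ := t_DP G ι S deg c hres.graded hres.sq
  obtain ⟨X, hX⟩ : ∃ X : S.Mat ι ι, X = fun i => d i * (d i)ᴴ + (d i)ᴴ * d i := ⟨_, rfl⟩
  have XP : ∀ i, (X i).PosSemidef := fun i => hX ▸
    (posSemidef_self_mul_conjTranspose _).add (posSemidef_conjTranspose_mul_self _)
  have Xb : ∀ i, ‖X i‖ ≤ M' * M' + M' * M' := fun i => by
    have e := (hd i).2.2.1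
    have e' := e
    rw [← l2_opNorm_conjTranspose] at e'
    exact hX ▸ (norm_add_le _ _).trans (add_le_add (nrm_mul e e') (nrm_mul e' e))
  have Ad : Ap S d c := Nd
  have Ad' : Ap S (fun i => (d i)ᴴ) (cst c) :=
    (Nd.conjT.congr fun i => conjTranspose_sub _ _).trans (Sof.neg_mdl_cst c)
  have NX : S.Neg fun i => X i - mdl (S.act i) (c * cst c + cst c * c) :=
    hX ▸ (Ad.mul Ad').add (Ad'.mul Ad)
  have N0 : ∀ i, (0 : ℝ) < S.N i := fun i => by exact_mod_cast S.pos i
  have w0 : ∀ p a, 0 ≤ ind deg p a := fun p a => by unfold ind; split_ifs <;> simp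
  have w1 : ∀ p a, ind deg p a ≤ 1 := fun p a => by unfold ind; split_ifs <;> simp
  have lim := fun p => t_LIM S.Λ S.l (fun i => ι × Fin (S.N i)) (fun i => S.N i) (Fintype.card ι)
    (K p) _ X (fun i => diagonal fun q => ind deg p q.1) (μ p) _ N0 (fun i => by simp)
    (fun i => (XP i).1) Xb
    (fun i => nrm_diag zero_le_one fun q => by rw [abs_of_nonneg (w0 _ _)]; exact w1 _ _) (hμ p)
    (t_MOM G ι S _ X _ (ind deg p) Xb NX)
  have first : ∀ p, IntegrableOn Real.log (Set.Ioi 0) (μ p) := fun p =>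
    (t_MEAS S.Λ S.l (fun i g =>
      (diagonal (fun q : ι × Fin (S.N i) => ind deg p q.1) * fc g (X i)).trace / S.N i) (μ p) _ _
      (hμ p) (fun i g h => by rw [← fc_add (XP i).1, Matrix.mul_add, trace_add, add_div])
      (fun i r g => by
        rw [← fc_smul (XP i).1, Matrix.mul_smul, trace_smul, smul_eq_mul, mul_div_assoc])
      (fun i g h hgh => div_le_div_of_nonneg_right (by
        rw [← sub_nonneg, ← trace_sub, ← Matrix.mul_sub, fc_sub (XP i).1]
        exact fin_mono (fun q => w0 _ _) (fc_posSemidef (XP i).1 fun j =>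
          sub_nonneg.2 (hgh _ ((XP i).eigenvalues_nonneg j)))) (N0 i).le)
      (fun i => div_nonneg (by
        have e0 : Deg (fun q : ι × Fin (S.N i) => deg q.1) (fun q => deg q.1) 0 (X i) := hX ▸
          (((hd i).2.2.2.mul (hd i).2.2.2.conjT).of_eq (by norm_num)).add
            (((hd i).2.2.2.conjT.mul (hd i).2.2.2).of_eq (by norm_num))
        obtain ⟨e1, e2⟩ := core_fc_proj (e := diagonal fun q : ι × Fin (S.N i) => ind deg p q.1)
          (XP i).1 (isHermitian_diagonal _) (by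
            rw [diagonal_mul_diagonal]
            congr 1
            funext q
            unfold ind
            split_ifs <;> simp)
          (e0.comm (fun k => if k = p then 1 else 0) (fun k => if k = p then 1 else 0)
            fun a b e => by rw [show a = b by omega]) Real.log
        have e3 := int_log e1 ((isInt_diag _).mul (hX ▸ ((hd i).2.1.mul (hd i).2.1.conjT).add
          ((hd i).2.1.conjT.mul (hd i).2.1)))
        rwa [e2, Real.log_zero, zero_smul, add_zero] at e3) (N0 i).le) (lim p)).1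
  refine ⟨first, fun h0 => ?_⟩
  have s1 := ((Ad.mul (rf S φ)).sub ((rf S φ).mul Ad')).fin (by rw [q1, sub_self])
  have s2 := ((((rf S φ).mul (rf S ψ)).sub ((Ad.mul (rf S a)).add ((rf S a).mul Ad))).sub
    (one S)).fin (by rw [q2, sub_self])
  have s3 := (((((rf S φ).mul (rf S f)).add ((rf S a).mul (rf S φ))).add
    ((rf S b).mul Ad')).sub (Ad.mul (rf S b))).fin (by rw [q3, sub_self])
  have s4 := ((Ad'.mul (rf S ψ)).sub ((rf S ψ).mul Ad)).fin (by rw [q4, sub_self])
  have s5 := ((((rf S ψ).mul (rf S φ)).add ((Ad'.mul (rf S f)).add ((rf S f).mul Ad'))).sub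
    (one S)).fin (by rw [q5, sub_self])
  obtain ⟨r, r0, hr⟩ : ∃ r : S.Λ → ℕ, Tendsto (fun i => (r i : ℝ) / S.N i) S.l (𝓝 0) ∧
      ∀ i, Cone (d i) (d i)ᴴ (mdl (S.act i) φ) (mdl (S.act i) a) (mdl (S.act i) b)
        (mdl (S.act i) ψ) (mdl (S.act i) f) (r i) := by
    have s := (((s1.add s2).add s3).add s4).add s5
    simp only [← add_div, ← Nat.cast_add, add_zero] at s
    exact ⟨_, s, fun i => ⟨by omega, by omega, by omega, by omega, by omega⟩⟩
  obtain ⟨M1, b1⟩ := Sof.nrm_mdl (S := S) φ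
  obtain ⟨M2, b2⟩ := Sof.nrm_mdl (S := S) a
  obtain ⟨M3, b3⟩ := Sof.nrm_mdl (S := S) b
  obtain ⟨M4, b4⟩ := Sof.nrm_mdl (S := S) ψ
  obtain ⟨M5, b5⟩ := Sof.nrm_mdl (S := S) f
  have co := fun (B : ℝ) (hB : max 2 (max M' (max M1 (max M2 (max M3 (max M4 M5))))) ≤ B) i =>
    hE5 n j _ (fun q : ι × Fin (S.N i) => deg q.1) (d i) B (r i) (fun q => hn q.1)
      ((le_max_left _ _).trans hB) (hd i).1 (hd i).2.2.2
      (hj _ (fun q : ι × Fin (S.N i) => deg q.1) (d i) _ _ _ _ _ B (r i) (fun q => hn q.1)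
        ((le_max_left _ _).trans hB) ((hd i).2.2.1.trans (le_trans (by simp) hB))
        ((b1 i).trans (le_trans (by simp) hB)) ((b2 i).trans (le_trans (by simp) hB))
        ((b3 i).trans (le_trans (by simp) hB)) ((b4 i).trans (le_trans (by simp) hB))
        ((b5 i).trans (le_trans (by simp) hB)) (hd i).2.1 (isInt_loc _ _) (isInt_loc _ _)
        (isInt_loc _ _) (isInt_loc _ _) (isInt_loc _ _) (hd i).1 (hd i).2.2.2
        (deg_loc (dκ := deg) (dκ' := fun x => n - deg x) _ fun p y h => by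
          have := g1 _ _ h; omega)
        (deg_loc (dκ := deg) (dκ' := deg) _ fun p y h => by have := g2 _ _ h; omega)
        (deg_loc (dκ := deg) (dκ' := fun x => n - deg x) _ fun p y h => by
          have := g3 _ _ h; omega)
        (deg_loc (dκ := fun x => n - deg x) (dκ' := deg) _ fun p y h => by
          have := g4 _ _ h; omega)
        (deg_loc (dκ := deg) (dκ' := deg) _ fun p y h => by have := g5 _ _ h; omega) (hr i))
  have XX : ∀ i, d i * (d i)ᴴ + (d i)ᴴ * d i = X i := fun i => by rw [hX]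
  simp only [XX] at co
  refine abs_nonpos_iff.1 (t_MEAS3 n μ K _ _ 0 (j + 2 * n + 1)
    (max 2 (max M' (max M1 (max M2 (max M3 (max M4 M5)))))) hμ h0 first fun B hB => ?_)
  have e2 := co B hB
  have hB0 : 0 < B := lt_of_lt_of_le (by simp) hB
  have c1 : Continuous (lg B) := by
    unfold lg
    exact Continuous.log (by fun_prop) fun t => (lt_max_of_lt_right (by positivity)).ne'
  have c2 : Continuous (tent B) := by
    unfold tent
    fun_prop
  have l1 := (tendsto_finsetSum (range (n + 1)) fun p _ =>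
    (lim p _ c1).const_mul ((-1) ^ p * (p : ℝ))).abs
  have l2 := (((r0.add (tendsto_finsetSum (range (n + 1)) fun p _ => lim p _ c2)).mul_const
    (Real.log B)).const_mul ((j : ℝ) + 2 * n + 1))
  refine (le_of_tendsto_of_tendsto' l1 l2 fun i => ?_).trans (le_of_eq (by ring))
  have e2 := e2 i
  rw [← fin_sum (dI := fun q : ι × Fin (S.N i) => deg q.1) (fun q => hn q.1)
    (fc (tent B) (X i))] at e2
  simp only [← mul_div_assoc, ← sum_div, ← add_div]
  rw [abs_div, abs_of_pos (N0 i), div_le_iff₀ (N0 i)]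
  refine e2.trans (le_of_eq ?_)
  rw [mul_assoc, mul_right_comm _ (Real.log B), div_mul_cancel₀ _ (N0 i).ne']
  rfl

end Pool.Agent.P.MP_f30597_gt.DV
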