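import Pool.Agent.P.MP_f30597_gt.DV.Iface

/-! Step EXP. -/

set_option autoImplicit false
set_option linter.unusedSectionVars false

namespace Pool.Agent.P.MP_f30597_gt.DV

open Finset SI CP
open scoped Classical

theorem p_EXP :
    S_EXP := by
  intro r K I hI hne
  have com : Cl K I → (∃ t, ∀ σ ∈ I, t ∈ σ) →
      ∃ t, (∃ σ ∈ I, t ∈ σ) ∧ ∀ σ ∈ I, ∀ s ∈ σ, s ≠ t → K.Adj s t := fun hc ⟨t, ht⟩ => by
    obtain ⟨σ, hσ⟩ := List.exists_mem_of_ne_nil I hne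
    exact ⟨t, ⟨σ, hσ, ht σ hσ⟩, fun τ hτ s hs => hc τ hτ s hs t (ht τ hτ)⟩
  rcases hI with ⟨hc, h⟩ | ⟨hc, ρ, μ, ⟨a, ha⟩, ⟨b, hb⟩, hd, h⟩
  · exact Or.inl (com hc h)
  by_cases e1 : ∃ σ ∈ I, σ ∩ (ρ ∪ μ) = ρ
  swap
  · exact Or.inl (com hc ⟨b, fun σ hσ => mem_of_mem_inter_left
      (((h σ hσ).1.resolve_left fun e => e1 ⟨σ, hσ, e⟩).symm ▸ hb)⟩)
  by_cases e2 : ∃ σ ∈ I, σ ∩ (ρ ∪ μ) = μ
  swap
  · exact Or.inl (com hc ⟨a, fun σ hσ => mem_of_mem_inter_left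
      (((h σ hσ).1.resolve_right fun e => e2 ⟨σ, hσ, e⟩).symm ▸ ha)⟩)
  obtain ⟨σ₁, h1, e1⟩ := e1
  obtain ⟨σ₂, h2, e2⟩ := e2
  have s1 : ρ ⊆ σ₁ := e1 ▸ inter_subset_left
  have s2 : μ ⊆ σ₂ := e2 ▸ inter_subset_left
  refine or_iff_not_imp_left.2 fun hl => ?_
  obtain ⟨C, hC, hm⟩ := exists_min_image ((ρ ∪ μ).powerset.filter fun C => C.Nonempty ∧
    ∀ s ∈ C, ∀ t ∈ ρ ∪ μ, ¬K.Adj s t → t ∈ C) card
    ⟨ρ ∪ μ, mem_filter.2 ⟨mem_powerset_self _, ⟨a, mem_union_left _ ha⟩, fun _ _ _ h _ => h⟩⟩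
  obtain ⟨hU, ⟨c, hcC⟩, hcl⟩ := mem_filter.1 hC
  rw [mem_powerset] at hU
  have eC : ρ ∩ C ∪ μ ∩ C = C := by rw [← union_inter_distrib_right, inter_eq_right.2 hU]
  have tr : ∀ σ τ : Finset (Fin r), σ ∩ (ρ ∪ μ) = τ → σ ∩ C = τ ∩ C := fun σ τ e => by
    rw [← e, inter_assoc, inter_eq_right.2 hU]
  have adj : ∀ σ ∈ I, ∀ s ∈ σ, s ∉ C → ∀ t ∈ C, K.Adj s t := fun σ hσ s hs hn t ht => by
    by_cases hsU : s ∈ ρ ∪ μ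
    · exact by_contra fun e => hn (hcl t ht s hsU fun e' => e e'.symm)
    · exact (h σ hσ).2 s hs hsU t (hU ht)
  have con : Con K C := by
    refine ⟨by_contra fun hn => hl ⟨c, ?_, fun σ hσ s hs hsc => ?_⟩, fun C' h' n' c' => ?_⟩
    · exact (mem_union.1 (hU hcC)).elim (fun e => ⟨σ₁, h1, s1 e⟩) fun e => ⟨σ₂, h2, s2 e⟩
    · by_cases hsC : s ∈ C
      · exact by_contra fun e => hn ⟨s, hsC, c, hcC, hsc, e⟩
      · exact adj σ hσ s hs hsC c hcC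
    · exact eq_of_subset_of_card_le h' (hm C' (mem_filter.2 ⟨mem_powerset.2 (h'.trans hU), n',
        fun s hs t ht e => c' s hs t (hcl s (h' hs) t ht e) e⟩))
  have hP : Pair K I (ρ ∩ C) (μ ∩ C) := by
    refine ⟨hd.mono inter_subset_left inter_subset_left, ?_, ?_, ?_, ?_, ?_⟩ <;> rw [eC]
    exacts [⟨σ₁, h1, tr _ _ e1⟩, ⟨σ₂, h2, tr _ _ e2⟩,
      fun σ hσ => (h σ hσ).1.imp (tr _ _) (tr _ _), adj, con]
  obtain ⟨p, hp, q, hq, n, na, e⟩ := con.ed_spec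
  rcases mem_union.1 (hU hp) with p1 | p1 <;> rcases mem_union.1 (hU hq) with q1 | q1
  · exact absurd (hc σ₁ h1 p (s1 p1) q (s1 q1) n) na
  · exact ⟨_, _, p, q, hP, mem_inter.2 ⟨p1, hp⟩, mem_inter.2 ⟨q1, hq⟩, by rw [eC, e]⟩
  · exact ⟨_, _, q, p, hP, mem_inter.2 ⟨q1, hq⟩, mem_inter.2 ⟨p1, hp⟩, by rw [eC, e, pair_comm]⟩
  · exact absurd (hc σ₂ h2 p (s2 p1) q (s2 q1) n) na

end Pool.Agent.P.MP_f30597_gt.DV
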