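import Pool.Agent.P.MP_f30597_gt.DV.Iface

/-! Step FINH. -/

set_option autoImplicit false
set_option linter.unusedSectionVars false

namespace Pool.Agent.P.MP_f30597_gt.DV

open Finset SI CP
open scoped Classical

namespace FINHx

variable {r : ℕ} {K : SimpleGraph (Fin r)} (d : Desc K)

/-- the half-spaces that separate two points -/
def Sep (x y : RAC K) : Set (Set (RAC K)) :=
  {h | (∃ g t, h = {z | d.D t (g * z)}) ∧ x ∉ h ∧ y ∈ h}

theorem fin (x w : RAC K) : (Sep d x (x * w⁻¹)).Finite := by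
  induction w using word_ind with
  | h1 => exact Set.finite_empty.subset fun h hh => hh.2.1 (by simpa using hh.2.2)
  | h2 s w ih =>
    rw [mul_inv_rev, gn_inv, ← mul_assoc]
    generalize x * w⁻¹ = y at ih ⊢
    refine (ih.insert {z | d.D s (y⁻¹ * z)}).subset ?_
    rintro h ⟨⟨g, t, rfl⟩, h1, h2⟩
    by_cases e : d.D t (g * y)
    · exact Or.inr ⟨⟨g, t, rfl⟩, h1, e⟩
    · refine Or.inl (Set.ext fun z => ?_)
      have := d.edge s t (g * y) e (by rwa [mul_assoc]) (y⁻¹ * z)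
      rwa [mul_assoc, mul_inv_cancel_left] at this

theorem inj (x : RAC K) : Function.Injective fun v => Sep d v x := by
  intro v v' e
  by_contra h
  obtain ⟨s, hs⟩ := d.ex (g := v⁻¹ * v') fun e' => h (inv_mul_eq_one.1 e')
  have h1 : ¬d.D s (v⁻¹ * v) := by rw [inv_mul_cancel]; exact d.one s
  by_cases hx : d.D s (v⁻¹ * x)
  · have : {z | d.D s (v⁻¹ * z)} ∈ Sep d v x := ⟨⟨_, _, rfl⟩, h1, hx⟩
    exact (e.le this).2.1 hs
  · have k : ∀ z, d.D s (gn K s * v⁻¹ * z) ↔ ¬d.D s (v⁻¹ * z) := fun z => by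
      rw [mul_assoc, d.flip]
    have : {z | d.D s (gn K s * v⁻¹ * z)} ∈ Sep d v' x :=
      ⟨⟨_, _, rfl⟩, fun h => (k _).1 h hs, (k _).2 hx⟩
    exact (e.ge this).2.1 ((k _).2 h1)

end FINHx

theorem p_FINH (hHULL : S_HULL) :
    S_FINH := by
  intro r K d l hl
  obtain ⟨x, -⟩ := List.exists_mem_of_ne_nil l hl
  have hF : (⋃ y ∈ {y | y ∈ l}, FINHx.Sep d y x).Finite :=
    (List.finite_toSet l).biUnion fun y _ => by simpa using FINHx.fin d y (x⁻¹ * y)
  refine (hF.finite_subsets.preimage (FINHx.inj d x).injOn).subset fun v hv => ?_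
  rintro h ⟨⟨g, t, rfl⟩, h1, h2⟩
  obtain ⟨s, -, hs⟩ := hHULL r K d (v⁻¹ * x) Set.univ (fun _ _ _ _ _ => trivial) (g * v) t trivial
    h1 (by rwa [mul_assoc, mul_inv_cancel_left])
  by_contra h3
  refine hv ⟨fun σ hσ => ?_, s, fun σ hσ => ?_⟩ <;> obtain ⟨y, hy, rfl⟩ := List.mem_map.1 hσ
  · exact d.cq_ds _
  · refine d.mem_ds.2 (hs _ ?_)
    rw [mul_assoc, mul_inv_cancel_left]
    by_contra h4
    exact h3 (Set.mem_biUnion hy ⟨⟨g, t, rfl⟩, h4, h2⟩)

end Pool.Agent.P.MP_f30597_gt.DV
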