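import Pool.Agent.P.MP_f30597_gt.DV.Iface

/-! Step FREE. -/

set_option autoImplicit false
set_option linter.unusedSectionVars false

namespace Pool.Agent.P.MP_f30597_gt.DV

open Finset SI CP
open scoped Classical

namespace FREEx

variable {G X : Type} [Group G] [MulAction G X]

theorem ex_rr (hf : ∀ (g : G) (x : X), g • x = x → g = 1) :
    ∃ rr : X → G, ∀ (g : G) x, rr (g • x) = g * rr x := by
  let rep : X → X := fun x => (Quotient.mk (MulAction.orbitRel G X) x).out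
  have h1 : ∀ x, ∃ g : G, g • rep x = x := fun x =>
    (MulAction.orbitRel G X).symm (Quotient.mk_out (s := MulAction.orbitRel G X) x)
  have h2 : ∀ (g : G) x, rep (g • x) = rep x := fun g x =>
    congrArg Quotient.out (Quotient.sound (s := MulAction.orbitRel G X) ⟨g, rfl⟩)
  choose rr hr using h1
  refine ⟨rr, fun g x => ?_⟩
  have h3 : ((g * rr x)⁻¹ * rr (g • x)) • rep x = rep x := by
    rw [mul_smul, ← h2 g x, hr, h2, inv_smul_eq_iff, mul_smul, hr]
  exact (inv_mul_eq_one.1 (hf _ _ h3)).symm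

theorem prism (f : X → X) (hf : ∀ (g : G) x, f (g • x) = g • f x) :
    ∃ H : Bar X →ₗ[ℤ] Bar X, (∀ u, bdZ (H u) + H (bdZ u) = u - mp f u) ∧
      (∀ l, H (sx l) ∈ Ln (l.length + 1)) ∧
      ∀ (g : G) l, H (sx (l.map (g • ·))) = mp (g • ·) (H (sx l)) := by
  obtain ⟨H, t1, t2, t3⟩ := exists_cone (LinearMap.id - mp f)
    (fun u => by simp [bd_mp]) (by simp [mp_sx]) fun l h => l.head h
  refine ⟨H, t1, len_ind (t2 ▸ zero_mem _) fun l h ih => ?_,
    fun g => len_ind (by simp [t2]) fun l h ih => ?_⟩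
  · rw [t3 l h]
    refine cons_on (p := fun l' => l'.length = l.length) _ (fun l' hl => by simp [hl])
      (sub_mem (sub_mem (sx_on rfl) (mp_ln f (sx_on rfl))) (bd_sx_map H _ fun i hi =>
        on_mono (fun l' hl => ?_) (ih i hi)))
    rw [hl, List.length_eraseIdx_of_lt hi]; omega
  · let A : Bar X →ₗ[ℤ] Bar X := mp (g • ·)
    have e1 : ∀ x (u : Bar X), SI.cons (g • x) (A u) = A (SI.cons x u) := fun x =>
      all_eq (SI.cons (g • x) ∘ₗ A) (A ∘ₗ SI.cons x) fun l => by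
        change SI.cons _ (mp _ (sx l)) = mp _ (SI.cons x (sx l))
        rw [mp_sx, cons_sx', cons_sx', mp_sx]; rfl
    have e2 : H (A (bdZ (sx l))) = A (H (bdZ (sx l))) :=
      sub_eq_zero.1 (bd_sx_map (H ∘ₗ A - A ∘ₗ H) ⊥ fun i hi => sub_eq_zero.2
        ((congrArg H (mp_sx _ _)).trans (ih i hi)))
    have e3 : mp f (A (sx l)) = A (mp f (sx l)) := by
      simp only [A, mp_mp, hf]
    change _ = A _
    rw [t3 l h, t3 (l.map (g • ·)) (by simpa using h), ← e1, ← mp_sx, bd_mp]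
    change SI.cons _ (A (sx l) - mp f (A (sx l)) - H (A (bdZ (sx l)))) = _
    rw [e2, e3, List.head_map, map_sub A]
    congr 2
    exact (map_sub A _ _).symm

end FREEx

theorem p_FREE :
    S_FREE := by
  intro G X _ _ x₀ n hf Z hZ hb
  obtain ⟨rr, hr⟩ := FREEx.ex_rr hf
  obtain ⟨H, t1, t2, t3⟩ := FREEx.prism (G := G) (fun x => rr x • x₀)
    (fun g x => by rw [hr, mul_smul])
  refine ⟨mp rr Z, len_iff.2 (mp_ln rr hZ), ?_, ?_⟩
  · rw [bd_eq', bd_mp]
    refine triv_map (Finsupp.lmapDomain ℤ ℤ nrm ∘ₗ mp rr) ⊥ (fun g l _ => sub_eq_zero.2 ?_) hb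
    change Finsupp.mapDomain nrm (mp rr _) = Finsupp.mapDomain nrm (mp rr _)
    have e : (l.map (g • ·)).map rr = tr g (l.map rr) := by simp [tr, Function.comp_def, hr]
    rw [mp_sx, mp_sx, Finsupp.mapDomain_single, Finsupp.mapDomain_single, e, nrm_tr]
  · rw [mp_mp, ← t1]
    refine add_mem (nul_bd (on_map H _ (fun l hl => hl ▸ t2 l) hZ)) (nul_of_triv ?_)
    refine triv_map H _ (fun g l hl => ?_) hb
    rw [t3]
    exact triv_mp g (hl ▸ t2 l)

end Pool.Agent.P.MP_f30597_gt.DV
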