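import Pool.Agent.P.MP_f30597_gt.DV.Iface

/-! Step GEN. -/

set_option autoImplicit false
set_option linter.unusedSectionVars false

namespace Pool.Agent.P.MP_f30597_gt.DV

open Finset SI CP
open scoped Classical

namespace GENx

variable {G : Type} [Group G]

theorem co_triv {k : ℕ} {y : Bar G} (hy : y ∈ Ln k) : co y - y ∈ Triv G G k :=
  on_map (Finsupp.lmapDomain ℤ ℤ nrm - LinearMap.id) (Triv G G k) (fun l hl => by
    rw [LinearMap.sub_apply, Finsupp.lmapDomain_apply, Finsupp.mapDomain_single]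
    exact Submodule.subset_span ⟨(l.headD 1)⁻¹, l, hl, rfl⟩) hy

theorem key {n : ℕ} {z₀ z : Bar G} (h : IsFundCycle n z₀) (hz : z ∈ Len (G := G) (n + 1))
    (hc : co (bd z) = 0) : ∃ k : ℤ, z - k • z₀ ∈ Nul G G (n + 1) := by
  obtain ⟨k, u, hu, e⟩ := h.gen z hz hc
  have hu' : u ∈ Ln (n + 2) := hu
  have h0 : z₀ ∈ Ln (n + 1) := h.len
  have hz' : z ∈ Ln (n + 1) := hz
  rw [bd_eq] at e
  refine ⟨k, ?_⟩
  have e' : z - k • z₀ = k • (co z₀ - z₀) + (co (bdZ u) - bdZ u) + bdZ u - (co z - z) := by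
    rw [e, smul_sub]; abel
  rw [e']
  exact sub_mem (add_mem (add_mem (Submodule.smul_mem _ _ (nul_of_triv (co_triv h0)))
    (nul_of_triv (co_triv (bd_length hu')))) (nul_bd hu')) (nul_of_triv (co_triv hz'))

end GENx

theorem p_GEN :
    S_GEN := by
  intro G _ n z₀ z ω h hz hc h1 h2 h3
  obtain ⟨k, hk⟩ := GENx.key h hz hc
  refine ⟨k, fun h0 => h3 ?_, fun z' hz' hc' => ?_⟩
  · rw [h0, zero_smul, sub_zero] at hk
    exact nul_map (ev ω) ⊥ (fun g l _ => by
      rw [ev_sx, ev_sx, Submodule.mem_bot, sub_eq_zero]; exact h1 g l) (fun u hu => h2 u hu) hk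
  · obtain ⟨k', hk'⟩ := GENx.key h hz' hc'
    refine ⟨k', ?_⟩
    have e : k • z' - k' • z = k • (z' - k' • z₀) - k' • (z - k • z₀) := by
      rw [smul_sub, smul_sub, smul_comm k k' z₀]; abel
    rw [e]
    exact sub_mem (Submodule.smul_mem _ _ hk') (Submodule.smul_mem _ _ hk)

end Pool.Agent.P.MP_f30597_gt.DV
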