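import Pool.Agent.P.MP_f30597_gt.DV.Iface

/-! Step HOM. -/

set_option autoImplicit false
set_option linter.unusedSectionVars false

namespace Pool.Agent.P.MP_f30597_gt.DV

open Finset SI CP
open scoped Classical

namespace HOMx

variable {r : ℕ} (K : SimpleGraph (Fin r))

/-- non-adjacent members of `U` -/
def E (U : Set (Fin r)) (a b : Fin r) : Prop := a ∈ U ∧ b ∈ U ∧ ¬K.Adj a b

/-- reachable in exactly `k` steps -/
def Rch (U : Set (Fin r)) (a : Fin r) : ℕ → Fin r → Prop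
  | 0, b => b = a
  | k + 1, b => ∃ c, Rch U a k c ∧ E K U c b

theorem rch_le {U : Set (Fin r)} {a b : Fin r} {k m : ℕ} (h : Rch K U a k b) (hb : b ∈ U)
    (hm : k ≤ m) : Rch K U a m b := by
  induction m, hm using Nat.le_induction with
  | base => exact h
  | succ m _ ih => exact ⟨b, ih, hb, hb, K.irrefl⟩

theorem unif : ∃ L, ∀ (U : Set (Fin r)) a b, Relation.ReflTransGen (E K U) a b → b ∈ U →
    Rch K U a L b := by
  have h : ∀ z : Set (Fin r) × Fin r × Fin r, ∃ k, Relation.ReflTransGen (E K z.1) z.2.1 z.2.2 →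
      Rch K z.1 z.2.1 k z.2.2 := by
    rintro ⟨U, a, b⟩
    by_cases h : Relation.ReflTransGen (E K U) a b
    · suffices ∃ k, Rch K U a k b from this.imp fun _ h _ => h
      induction h with
      | refl => exact ⟨0, rfl⟩
      | tail _ h ih => exact ih.elim fun k ih => ⟨k + 1, _, ih, h⟩
    · exact ⟨0, fun h' => absurd h' h⟩
  choose k hk using h
  obtain ⟨L, hL⟩ := Finite.exists_le k
  exact ⟨L, fun U a b h hb => rch_le K (hk (U, a, b) h) hb (hL _)⟩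

variable {K} (d : Desc K)

theorem dgn (s : Fin r) : d.D s (gn K s) := by simpa using (d.flip s 1).2 (d.one s)

theorem us_inv {x : RAC K} {t : Fin r} (h : t ∈ d.Us x⁻¹) : t ∈ d.Us x := by
  obtain ⟨g, h1, h2⟩ := h
  exact ⟨gn K t * (g * x⁻¹), by rwa [d.flip, not_not],
    by rwa [mul_assoc, inv_mul_cancel_right, d.flip]⟩

end HOMx

open HOMx in
theorem p_HOM (hHULL : S_HULL) (hSEG : S_SEG) :
    S_HOM := by
  intro r K d
  obtain ⟨L, hL⟩ := unif K
  refine ⟨L + 2, by omega, fun v F B U l h01 hFB h hl hσ => ?_⟩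
  obtain ⟨hF, hB, hU⟩ := h 0 1 (by omega) (by omega)
  have nFB : ∀ s, s ∈ B → s ∉ F := fun s a b => Set.disjoint_left.1 hFB b a
  have FU : ∀ s, s ∈ F ∨ s ∈ B → s ∈ U := by
    rintro s (hs | hs)
    · rw [← hF] at hs
      exact hU ▸ ⟨1, d.one s, by rwa [one_mul]⟩
    · rw [← hB] at hs
      refine hU ▸ us_inv d ⟨1, d.one s, ?_⟩
      rwa [one_mul, mul_inv_rev, inv_inv]
  obtain ⟨s₀, h₀⟩ := d.ex (g := (v 0)⁻¹ * v 1) fun e => h01 (inv_mul_eq_one.1 e)
  have h₀F : s₀ ∈ F := hF ▸ h₀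
  obtain ⟨V, hV⟩ : ∃ V : Set (Fin r), ∀ b, b ∈ V ↔ Relation.ReflTransGen (E K U) s₀ b :=
    ⟨Set.ofPred _, fun _ => Iff.rfl⟩
  have VU : ∀ b ∈ V, b ∈ U := fun b hb => by
    rcases ((hV b).1 hb).cases_tail with rfl | ⟨c, -, hc⟩
    · exact FU _ (Or.inl h₀F)
    · exact hc.2.1
  have cl : ∀ t ∈ V, ∀ s ∈ U, ¬K.Adj t s → s ∈ V := fun t ht s hs a =>
    (hV s).2 (((hV t).1 ht).tail ⟨VU t ht, hs, a⟩)
  have h₀V : s₀ ∈ V := (hV _).2 Relation.ReflTransGen.refl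
  have seg := hSEG r K d (L + 2) v fun i j k a b c s h1 h2 =>
    nFB s ((h i j a (by omega)).2.1 ▸ h1) ((h j k b c).1 ▸ h2)
  have wall : ∀ t ∈ U, ∀ i < L + 2, ∃ g, ¬d.D t (g * v i) ∧ d.D t (g * v (i + 1)) :=
    fun t ht i hi => by
      rw [← (h i (i + 1) (by omega) hi).2.2] at ht
      obtain ⟨g, h1, h2⟩ := ht
      exact ⟨g * (v i)⁻¹, by rwa [inv_mul_cancel_right], by rwa [mul_assoc]⟩
  have chain : ∀ a ∈ V, ∀ b ∈ V, ∀ g g', ¬d.D a (g * v 0) → d.D a (g * v (0 + 1)) →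
      ¬d.D b (g' * v (L + 1)) → d.D b (g' * v (L + 1 + 1)) → ∀ y, d.D b (g' * y) → d.D a (g * y) := by
    intro a ha b hb g g' a1 a2 b1 b2
    have key : ∀ k ≤ L, ∀ c, Rch K U a k c → ∃ e, ¬d.D c (e * v k) ∧ d.D c (e * v (k + 1)) ∧
        ∀ y, d.D c (e * y) → d.D a (g * y) := by
      intro k
      induction k with
      | zero => rintro - c rfl; exact ⟨g, a1, a2, fun _ h => h⟩
      | succ k ih =>
        rintro hk c ⟨c', h1, h2⟩
        obtain ⟨e', e1, e2, e3⟩ := ih (by omega) c' h1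
        obtain ⟨e, e4, e5⟩ := wall c h2.2.1 (k + 1) (by omega)
        exact ⟨e, e4, e5, fun y hy => e3 y
          (seg k (k + 1) (by omega) (by omega) c' c e' e h2.2.2 e1 e2 e4 e5 y hy)⟩
    have sy : Relation.ReflTransGen (E K U) a s₀ := by
      have := (hV a).1 ha
      clear ha a1 a2 key
      induction this with
      | refl => exact Relation.ReflTransGen.refl
      | tail _ h ih => exact ih.head ⟨h.2.1, h.1, fun q => h.2.2 q.symm⟩
    obtain ⟨e, e1, e2, e3⟩ := key L le_rfl b (hL U a b (sy.trans ((hV b).1 hb)) (VU b hb))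
    exact fun y hy => e3 y (seg L (L + 1) (by omega) (by omega) b b e g' K.irrefl e1 e2 b1 b2 y hy)
  obtain ⟨t₀, ht₀, ht₀'⟩ := hHULL r K d ((v 0)⁻¹ * v 1)⁻¹ V
    (fun t ht s hs => cl t ht s (hU ▸ us_inv d hs)) (gn K s₀ * ((v 0)⁻¹ * v 1)) s₀ h₀V
    (by rwa [d.flip, not_not]) (by rw [mul_inv_cancel_right]; exact dgn d s₀)
  have h₀B : t₀ ∈ B := by
    have := ht₀' ((v 0)⁻¹ * v 1)⁻¹ (by rw [mul_inv_cancel_right]; exact dgn d s₀)
    rw [mul_inv_rev, inv_inv] at this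
    exact hB ▸ this
  refine ⟨fun σ hσ => ?_, univ.filter fun s => s ∈ F ∧ s ∈ V, univ.filter fun s => s ∈ B ∧ s ∈ V,
    ⟨s₀, by simp [h₀F, h₀V]⟩, ⟨t₀, by simp [h₀B, ht₀]⟩, disjoint_left.2 fun s a b =>
      nFB s (mem_filter.1 b).2.1 (mem_filter.1 a).2.1, fun σ hσ' => ⟨?_, fun s hs hs' t ht => ?_⟩⟩
  · obtain ⟨x, -, rfl⟩ := List.mem_map.1 hσ
    exact d.cq_ds _
  · obtain ⟨x, hx, rfl⟩ := List.mem_map.1 hσ'
    have e : ∀ i ≤ L + 2, ∀ s, d.D s ((v i)⁻¹ * x) ↔ d.D s ((v 0)⁻¹ * x) := fun i hi s => by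
      rw [← d.mem_ds, ← d.mem_ds, List.map_inj_left.1 (hl i hi) x hx]
    have w : ∀ a, a ∈ F ∨ a ∈ B → ∀ i < L + 2, ∃ g, ¬d.D a (g * v i) ∧ d.D a (g * v (i + 1)) ∧
        (d.D a (g * x) ↔ (a ∈ F ↔ d.D a ((v 0)⁻¹ * x))) := by
      rintro a (ha | ha) i hi
      · refine ⟨(v i)⁻¹, by simpa using d.one a, ?_, by rw [e i hi.le, iff_true_intro ha, true_iff]⟩
        rwa [← (h i (i + 1) (by omega) hi).1] at ha
      · refine ⟨gn K a * (v (i + 1))⁻¹, ?_, by simpa using dgn d a, ?_⟩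
        · rw [mul_assoc, d.flip, not_not]
          rwa [← (h i (i + 1) (by omega) hi).2.1] at ha
        · rw [mul_assoc, d.flip, e _ hi, iff_false_intro (nFB a ha), false_iff]
    have m : ∀ a ∈ V, ∀ b ∈ V, a ∈ F ∨ a ∈ B → b ∈ F ∨ b ∈ B → (b ∈ F ↔ d.D b ((v 0)⁻¹ * x)) →
        (a ∈ F ↔ d.D a ((v 0)⁻¹ * x)) := fun a ha b hb ha' hb' q => by
      obtain ⟨g, a1, a2, a3⟩ := w a ha' 0 (by omega)
      obtain ⟨g', b1, b2, b3⟩ := w b hb' (L + 1) (by omega)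
      exact a3.1 (chain a ha b hb g g' a1 a2 b1 b2 x (b3.2 q))
    by_cases q : s₀ ∈ F ↔ d.D s₀ ((v 0)⁻¹ * x)
    · refine Or.inl (Finset.ext fun a => ?_)
      have := fun ha ha' => m a ha s₀ h₀V ha' (Or.inl h₀F) q
      simp only [mem_inter, mem_union, mem_filter, mem_univ, true_and, d.mem_ds]
      tauto
    · refine Or.inr (Finset.ext fun a => ?_)
      have := fun ha ha' q' => q (m s₀ h₀V a ha (Or.inl h₀F) ha' q')
      have := nFB a
      simp only [mem_inter, mem_union, mem_filter, mem_univ, true_and, d.mem_ds]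
      tauto
  · simp only [mem_union, mem_filter, mem_univ, true_and] at hs' ht
    have tV : t ∈ V := ht.elim And.right And.right
    by_contra q
    have : s ∈ F ∨ s ∈ B := by
      rcases hσ σ hσ' s hs with a | a | a
      exacts [Or.inl a, Or.inr a, absurd (a t (VU t tV)) q]
    have := cl t tV s (FU s this) fun a => q a.symm
    tauto

end Pool.Agent.P.MP_f30597_gt.DV
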