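import Pool.Agent.P.MP_f30597_gt.DV.Iface

/-! Step HULL. -/

set_option autoImplicit false
set_option linter.unusedSectionVars false

namespace Pool.Agent.P.MP_f30597_gt.DV

open Finset SI CP
open scoped Classical

theorem p_HULL :
    S_HULL := by
  intro r K d x U hU g
  refine d.ind (fun g => ∀ t : Fin r, t ∈ U → ¬d.D t g → d.D t (g * x) →
    ∃ s ∈ U, ∀ y, d.D t (g * y) → d.D s y) ?_ ?_ g
  · intro t ht _ _
    exact ⟨t, ht, fun y hy => by rwa [one_mul] at hy⟩
  · intro q g hq ih t ht h1 h2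
    have hne : t ≠ q := fun e => h1 (e ▸ (d.flip t g).2 (e ▸ hq))
    by_cases ha : K.Adj t q
    · rw [mul_assoc, d.comm t q _ ha] at h2
      rw [d.comm t q _ ha] at h1
      obtain ⟨s, hs, h⟩ := ih t ht h1 h2
      exact ⟨s, hs, fun y hy => h y (by rwa [mul_assoc, d.comm t q _ ha] at hy)⟩
    · have key : ∀ y, d.D t (gn K q * g * y) → d.D q (g * y) := fun y hy => by_contra fun h =>
        ha (d.clq t q _ hy (by rw [mul_assoc]; exact (d.flip q _).2 h) hne)
      obtain ⟨s, hs, h⟩ := ih q (hU t ht q ⟨g, hq, key x h2⟩ ha) hq (key x h2)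
      exact ⟨s, hs, fun y hy => h y (key y hy)⟩

end Pool.Agent.P.MP_f30597_gt.DV
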