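import Pool.Agent.P.MP_f30597_gt.DV.Iface

/-! Step JUMP. -/

set_option autoImplicit false
set_option linter.unusedSectionVars false

namespace Pool.Agent.P.MP_f30597_gt.DV

open Finset SI CP
open scoped Classical

namespace JUMPx

variable {r : ℕ}

theorem two (s : Fin r) (l : List (Fin r)) (a b : Finset (Fin r)) (u : Bar (Finset (Fin r))) :
    ev (jump (s :: l)) (cons a (cons b u)) =
      ((if s ∈ b then 1 else 0) - if s ∈ a then 1 else 0 : ℝ) * ev (jump l) (cons b u) :=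
  all_eq (ev (jump (s :: l)) ∘ₗ cons a ∘ₗ cons b)
    (((if s ∈ b then 1 else 0) - if s ∈ a then 1 else 0 : ℝ) • ev (jump l) ∘ₗ cons b) (fun I => by
      simp only [LinearMap.comp_apply, LinearMap.smul_apply, cons_sx', ev_sx, jump, smul_eq_mul]) u

theorem coc (l : List (Fin r)) : ∀ I : List (Finset (Fin r)), I.length = l.length + 2 →
    ev (jump l) (bdZ (sx I)) = 0 := by
  induction l with
  | nil =>
    rintro (_ | ⟨a, _ | ⟨b, _ | _⟩⟩) h <;> simp only [List.length_cons, List.length_nil] at h <;>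
      try omega
    rw [← cons_sx', bd_cons, ← cons_sx' b, bd_cons, bd_nil]
    simp only [map_zero, sub_zero, map_sub, cons_sx', ev_sx, jump, sub_self]
  | cons s l ih =>
    rintro (_ | ⟨a, _ | ⟨b, _ | ⟨c, I⟩⟩⟩) h <;>
      simp only [List.length_cons, List.length_nil] at h <;> try omega
    have e := ih (b :: c :: I) (by simp only [List.length_cons]; omega)
    rw [← cons_sx', bd_cons, map_sub, sub_eq_zero, ev_sx] at e
    rw [← cons_sx', bd_cons, ← cons_sx' b, bd_cons]
    simp only [map_sub, two, ← e]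
    simp only [cons_sx', ev_sx, jump]
    ring

theorem van (l : List (Fin r)) : ∀ I : List (Finset (Fin r)), jump l I ≠ 0 →
    ∀ s ∈ l, (∃ σ ∈ I, s ∈ σ) ∧ ∃ σ ∈ I, s ∉ σ := by
  induction l with
  | nil => simp
  | cons t l ih =>
    rintro (_ | ⟨a, _ | ⟨b, I⟩⟩) h s hs
    · exact absurd rfl h
    · exact absurd rfl h
    obtain ⟨h1, h2⟩ := mul_ne_zero_iff.1 h
    rcases List.mem_cons.1 hs with rfl | hs
    · by_cases ha : s ∈ a <;> by_cases hb : s ∈ b <;> simp [ha, hb] at h1 ⊢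
    · exact (ih _ h2 s hs).imp (fun ⟨σ, x, y⟩ => ⟨σ, List.mem_cons_of_mem _ x, y⟩)
        fun ⟨σ, x, y⟩ => ⟨σ, List.mem_cons_of_mem _ x, y⟩

end JUMPx

theorem p_JUMP :
    S_JUMP := by
  intro r K n l hK hl hp
  refine ⟨fun I _ ⟨hc, t, ht⟩ => by_contra fun h => ?_, fun I hI _ => JUMPx.coc l I (by omega)⟩
  have v := JUMPx.van l I h
  have a : ∀ s ∈ l, K.Adj t s := fun s hs => by
    obtain ⟨⟨σ, x, y⟩, τ, z, w⟩ := v s hs
    exact hc σ x t (ht σ x) s y fun e => w (e ▸ ht τ z)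
  have nd : l.Nodup := hp.imp fun h => h.ne
  have c : K.IsNClique n l.toFinset := ⟨fun x hx y hy e => haveI : Std.Symm K.Adj := ⟨fun _ _ h => h.symm⟩
    hp.forall (List.mem_toFinset.1 hx) (List.mem_toFinset.1 hy) e,
    by rw [List.toFinset_card_of_nodup nd, hl]⟩
  exact hK _ (c.insert fun s hs => a s (List.mem_toFinset.1 hs))

end Pool.Agent.P.MP_f30597_gt.DV
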