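import Pool.Agent.P.MP_f30597_gt.DV.Iface
import Pool.Agent.P.MP_f30597_gt.CP.TFIN

/-! Step KQ. -/

set_option autoImplicit false
set_option linter.unusedSectionVars false

namespace Pool.Agent.P.MP_f30597_gt.DV

open Finset SI CP
open scoped Classical

theorem p_KQ (hDESC : S_DESC) (hCPA : S_CPA) (hCPB : S_CPB) (hJUMP : S_JUMP) (hSUBD : S_SUBD) (hLIN : S_LIN) (hXI : S_XI) (hTR : S_TR) (hFREE : S_FREE) (hGEN : S_GEN) (hSTAB : S_STAB) :
    S_KQ := by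
  intro r K n a G hn hK ha hG htf hor hV
  obtain ⟨d⟩ := hDESC r K
  obtain ⟨β, hβ, hβ0, l₀, hl₀, hne⟩ := hSUBD r K n a hn ha
  obtain ⟨hl1, hl2⟩ := ha.simplex l₀ hl₀
  have hr : 0 < r := by
    obtain ⟨s, -⟩ := List.exists_mem_of_length_pos (hl1 ▸ hn)
    exact s.pos
  obtain ⟨t1, t2, t3, t4, t5⟩ := hTR _ (sgnW K) G (XX K) hor
  obtain ⟨s1, s2, s3, -, -⟩ := hTR _ (sgnW K) G (YY K) hor
  obtain ⟨b, hb⟩ : ∃ b, b = cons ∅ β := ⟨_, rfl⟩
  have b1 : b ∈ On fun I => Cl K I ∧ I.length = n + 1 := hb ▸ cons_on _ (fun I hI =>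
    ⟨List.forall_mem_cons.2 ⟨cq_empty K, hI.1.1⟩, by rw [List.length_cons, hI.2]⟩) hβ
  have b2 : bdZ b = β := by rw [hb, bd_cons, hβ0, map_zero, sub_zero]
  have b3 : b ∈ Ln (n + 1) := on_mono (fun _ h => h.2) b1
  obtain ⟨Z, hZ⟩ : ∃ Z, Z = (2 : ℤ) • tf (sgnW K) G (XX K) (mp (ptX K) b) := ⟨_, rfl⟩
  obtain ⟨z, z1, z2, z3⟩ := hFREE G (XX K) (ptX K ∅) n ((hSTAB r K G).2 htf) Z
    (hZ ▸ Submodule.smul_mem _ _ (t2 _ _ (mp_ln _ b3))) (by
      rw [hZ, map_zsmul, t1, bd_mp, b2]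
      refine t3 n _ (mp_on _ (fun I ⟨⟨h1, t, h2⟩, h3⟩ => ⟨⟨gn K t, sgn_gn K t, ?_⟩, by simpa⟩) hβ)
      rw [List.map_map]
      refine List.map_congr_left fun T hT => ?_
      rw [Function.comp_apply, ptX, dif_pos (h1 T hT), Sigma.smul_mk]
      refine congrArg _ (QuotientGroup.eq.2 ?_)
      change (gn K t * 1)⁻¹ * 1 ∈ _
      rw [mul_one, mul_one, gn_inv]
      exact Subgroup.subset_closure ⟨t, h2 T hT, rfl⟩)
  have key : ∀ ψ, Coc K (Na K) (n + 1) ψ →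
      (∀ g l, d.cps ψ ((tr g l).map fun g : G => g • ptX K ∅) =
        d.cps ψ (l.map fun g : G => g • ptX K ∅)) ∧
      (∀ u ∈ Len (G := G) (n + 2),
        ev (fun l => d.cps ψ (l.map fun g : G => g • ptX K ∅)) (bdZ u) = 0) ∧
      ev (fun l => d.cps ψ (l.map fun g : G => g • ptX K ∅)) z = 2 * (G.index * ev ψ b) := by
    intro ψ hψ
    obtain ⟨c1, c2, c3⟩ := hCPA r K d n ψ hψ
    have c4 : ∀ (g : G) l, d.cps ψ (l.map (g • ·)) = d.cps ψ l := fun g l =>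
      (c1 g l).trans (by rw [hor g g.2]; simp)
    refine ⟨fun g l => ?_, fun u hu => ?_, ?_⟩
    · rw [← c4 g (l.map _), tr, List.map_map, List.map_map]
      exact congrArg _ (List.map_congr_left fun x _ => mul_smul g x _)
    · rw [← ev_mp, ← bd_mp]
      exact c2 _ (mp_ln _ hu)
    · have := nul_map (ev (d.cps ψ)) ⊥ (fun g l _ => by
        rw [ev_sx, ev_sx]; exact sub_eq_zero.2 (c4 g l)) c2 z3
      rw [Submodule.mem_bot, map_sub, sub_eq_zero] at this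
      rw [← ev_mp]
      refine this.symm.trans ?_
      rw [hZ, map_zsmul, t4 _ c1, hb,
        c3 β (on_mono (fun _ h => ⟨h.1.1, h.2⟩) hβ)]
      simp
  have hi : (G.index : ℝ) ≠ 0 := Nat.cast_ne_zero.2 hG.index_ne_zero
  obtain ⟨z₀, hz₀, -⟩ := id hV
  obtain ⟨k1, k2, k3⟩ := key _ (hJUMP r K n l₀ hK hl1 (hl2.imp fun h => h.2))
  obtain ⟨k, hk, hgen⟩ := hGEN G n z₀ z _ hz₀ z1 z2 k1 k2
    (by rw [k3, hb]; exact mul_ne_zero two_ne_zero (mul_ne_zero hi hne))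
  obtain ⟨m, hm, hmb⟩ := hLIN _ ((On fun I => Ns K I ∧ I.length = n + 1) ⊔
      (On fun I => Cl K I ∧ I.length = n + 2).map bdZ) b fun f hf => by
    have e : ∀ u, ev (fun I => f (sx I)) u = f u := all_eq _ _ fun I => ev_sx _ _
    have v : ∀ I, I.length = n + 1 → Ns K I → f (sx I) = 0 := fun I h1 h2 =>
      hf _ (Submodule.mem_sup_left (sx_on ⟨h2, h1⟩))
    obtain ⟨c1, c2, c3⟩ := key (fun I => f (sx I)) ⟨fun I h1 h2 => v I h1 (Or.inl h2),
      fun I h1 h2 => (e _).trans (hf _ (Submodule.mem_sup_right ⟨_, sx_on ⟨h2, h1⟩, rfl⟩))⟩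
    obtain ⟨M, hM⟩ := hCPB r K d (n + 1) _ v
    by_contra h0
    exact p_FIN G n _ M c1 (fun l hl => hM _ (by simpa)) c2 z z1 z2
      (by rw [c3, e]; exact mul_ne_zero two_ne_zero (mul_ne_zero hi h0)) hV
  obtain ⟨y, hy, _, ⟨e, -, rfl⟩, he⟩ := Submodule.mem_sup.1 hmb
  have y1 : bdZ y = m • β := by
    have := congrArg bdZ he
    rwa [map_add, bd_bd, add_zero, map_zsmul, b2] at this
  obtain ⟨x, x1, x2⟩ := hXI r K hr (n + 1) y hy
    (y1 ▸ Submodule.smul_mem _ _ (on_mono (fun _ h => h.1) hβ))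
  obtain ⟨c, hc⟩ : ∃ c, c = m • mp (ptY K) b - x := ⟨_, rfl⟩
  have c1 : c ∈ Ln (n + 1) :=
    hc ▸ sub_mem (Submodule.smul_mem _ _ (mp_ln _ b3)) (on_mono (fun _ h => h.2) x1)
  have c2 : bdZ (cons (ptY K ∅) c) = c := by
    rw [bd_cons, hc, map_sub, map_zsmul, bd_mp, b2, x2, y1, map_zsmul, sub_self, map_zero, sub_zero]
  have i1 : mp (inc K) (mp (ptX K) b) = mp (ptY K) b :=
    on_eq (mp (inc K) ∘ₗ mp (ptX K)) _ (fun I hI => by
      rw [LinearMap.comp_apply, mp_sx, mp_sx, mp_sx, List.map_map]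
      exact congrArg _ (List.map_congr_left fun T hT => inc_pt (hI.1 T hT))) b1
  have i2 : m • mp (inc K) Z ∈ Nul G (YY K) (n + 1) := by
    rw [hZ, map_zsmul, t5 _ _ (inc_smul K), i1, smul_comm, ← map_zsmul, eq_sub_iff_add_eq.1 hc |>.symm,
      map_add, smul_add, ← c2, ← s1]
    exact add_mem (Submodule.smul_mem _ _ (nul_bd (s2 _ _ (cons_on _
      (fun l hl => by rw [List.length_cons, hl]) c1)))) (nul_of_triv (s3 _ _
        (on_mono (fun l ⟨⟨s, h1⟩, h2⟩ => ⟨⟨_, sgn_gn K s, h1⟩, h2⟩) x1)))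
  have i3 := nul_mp (G := G) (inc K) (fun g x => inc_smul K g x) z3
  rw [map_sub, mp_mp] at i3
  have i4 : (fun g : G => inc K (g • ptX K ∅)) = fun g : G => g • ptY K ∅ :=
    funext fun g => (inc_smul K g _).trans (congrArg _ (inc_pt (cq_empty K)))
  replace i3 : mp (inc K) Z - mp (fun g : G => g • ptY K ∅) z ∈ Nul G (YY K) (n + 1) := i4 ▸ i3
  refine ⟨m * k, mul_ne_zero hm hk, fun z' h1 h2 => ?_⟩
  obtain ⟨k', h3⟩ := hgen z' h1 h2
  have i5 := nul_mp (G := G) (fun g : G => g • ptY K ∅) (fun g x => mul_smul g x _) h3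
  rw [map_sub, map_zsmul, map_zsmul] at i5
  have i6 : ∀ A B C : Bar (YY K), m • (k • A - k' • B) + k' • m • C - (m * k') • (C - B) =
      (m * k) • A := fun A B C => by module
  exact (congrArg (· ∈ _) (i6 _ _ _)).mp (sub_mem (add_mem (Submodule.smul_mem _ m i5)
    (Submodule.smul_mem _ k' i2)) (Submodule.smul_mem _ (m * k') i3))

end Pool.Agent.P.MP_f30597_gt.DV
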