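import Pool.Agent.P.MP_f30597_gt.DV.Iface

/-! Step LIN. -/

set_option autoImplicit false
set_option linter.unusedSectionVars false

namespace Pool.Agent.P.MP_f30597_gt.DV

open Finset SI CP
open scoped Classical

theorem p_LIN :
    S_LIN := by
  intro M _ S b h
  by_contra hn
  push Not at hn
  have hinj : Function.Injective
      (LinearMap.toSpanSingleton ℤ (M ⧸ S) (S.mkQ b)) := by
    rw [injective_iff_map_eq_zero]
    intro m hm
    by_contra hm0
    apply hn m hm0
    rw [LinearMap.toSpanSingleton_apply, ← map_smul, Submodule.mkQ_apply,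
      Submodule.Quotient.mk_eq_zero] at hm
    exact hm
  obtain ⟨g, hg⟩ := (Module.Baer.of_divisible ℝ).extension_property _ hinj
    (LinearMap.toSpanSingleton ℤ ℝ (1 : ℝ))
  have h1 := h (g ∘ₗ S.mkQ) (fun x hx => by
    rw [LinearMap.comp_apply, Submodule.mkQ_apply, (Submodule.Quotient.mk_eq_zero S).2 hx,
      map_zero])
  have h2 := LinearMap.congr_fun hg (1 : ℤ)
  simp only [LinearMap.comp_apply, LinearMap.toSpanSingleton_apply, one_smul] at h1 h2
  rw [h1] at h2
  exact zero_ne_one h2

end Pool.Agent.P.MP_f30597_gt.DV
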