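import Pool.Agent.P.MP_f30597_gt.DV.Iface

/-! Step NEST. -/

set_option autoImplicit false
set_option linter.unusedSectionVars false

namespace Pool.Agent.P.MP_f30597_gt.DV

open Finset SI CP
open scoped Classical

namespace NESTx

variable {r : ℕ} (K : SimpleGraph (Fin r))

/-- the bilinear form -/
noncomputable def B : LinearMap.BilinForm ℤ (Fin r → ℤ) := Matrix.toBilin' (Matrix.of (bf K))

theorem bf_symm (s t : Fin r) : bf K s t = bf K t s := by
  simp only [bf, eq_comm (a := s), K.adj_comm s t]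

theorem B_symm (x y : Fin r → ℤ) : B K x y = B K y x := by
  simp only [B, Matrix.toBilin'_apply, Matrix.of_apply]
  rw [sum_comm]
  exact sum_congr rfl fun s _ => sum_congr rfl fun t _ => by rw [bf_symm K t s]; ring

theorem B_ee (s t : Fin r) : B K (Pi.single s 1) (Pi.single t 1) = bf K s t := by
  simp [B, Matrix.toBilin'_single]

theorem B_qq (s : Fin r) : B K (Pi.single s 1) (Pi.single s 1) = 1 := by simp [B_ee, bf]

theorem rf_eq (q : Fin r) (x : Fin r → ℤ) :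
    rf K q x = x - (2 * B K (Pi.single q 1) x) • Pi.single q 1 := by
  have : B K (Pi.single q 1) x = ∑ t, bf K q t * x t := by
    simp [B, Matrix.toBilin'_apply, Pi.single_apply]
  rw [this]; rfl

theorem B_rf (q : Fin r) (x y : Fin r → ℤ) : B K (rf K q x) (rf K q y) = B K x y := by
  simp only [rf_eq, map_sub, map_smul, LinearMap.sub_apply, LinearMap.smul_apply, smul_eq_mul,
    B_qq, B_symm K x (Pi.single q 1)]
  ring

theorem rf_e (q : Fin r) : rf K q (Pi.single q 1) = -Pi.single q 1 := by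
  rw [rf_eq, B_qq, mul_one, two_smul]; abel

variable {K} (R : Rep K)

theorem rho_l (s : Fin r) (g : RAC K) (x : Fin r → ℤ) :
    R.ρ (gn K s * g) x = rf K s (R.ρ g x) := by rw [map_mul, R.gen]; rfl

theorem rho_r (s : Fin r) (g : RAC K) (x : Fin r → ℤ) :
    R.ρ (g * gn K s) x = R.ρ g (rf K s x) := by rw [map_mul, R.gen]; rfl

theorem rho_mul (g h : RAC K) (x : Fin r → ℤ) : R.ρ (g * h) x = R.ρ g (R.ρ h x) := by
  rw [map_mul]; rfl

theorem B_rho (g : RAC K) (x y : Fin r → ℤ) : B K (R.ρ g x) (R.ρ g y) = B K x y :=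
  word_ind K (P := fun g => B K (R.ρ g x) (R.ρ g y) = B K x y) (by simp)
    (fun s g h => by rw [rho_l, rho_l, B_rf, h]) g

theorem rho_even (g : RAC K) (x : Fin r → ℤ) : ∃ w, R.ρ g x = x + (2 : ℤ) • w :=
  word_ind K (P := fun g => ∃ w, R.ρ g x = x + (2 : ℤ) • w) ⟨0, by simp⟩
    (fun s g ⟨w, h⟩ => ⟨w - B K (Pi.single s 1) (R.ρ g x) • Pi.single s 1, by
      rw [rho_l, rf_eq, mul_smul, smul_sub, ← add_sub_assoc, ← h]⟩) g

/-- roots -/
def Root (a : Fin r → ℤ) : Prop := ∃ g s, a = R.ρ g (Pi.single s 1)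

theorem Root.rf {a : Fin r → ℤ} (h : Root R a) (q : Fin r) : Root R (rf K q a) := by
  obtain ⟨g, s, rfl⟩ := h
  exact ⟨gn K q * g, s, (rho_l R _ _ _).symm⟩

theorem Root.one {a : Fin r → ℤ} (h : Root R a) : B K a a = 1 := by
  obtain ⟨g, s, rfl⟩ := h
  rw [B_rho, B_qq]

theorem Root.dich {a : Fin r → ℤ} (h : Root R a) : 0 ≤ a ∨ a ≤ 0 := by
  obtain ⟨g, s, rfl⟩ := h
  exact R.dich g s

theorem Root.eq {a : Fin r → ℤ} (h : Root R a) {q : Fin r} (h0 : 0 ≤ a) (h1 : DV.rf K q a ≤ 0) :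
    a = Pi.single q 1 := by
  have e : a = a q • Pi.single q 1 := by
    funext i
    by_cases hi : i = q
    · simp [hi]
    · have := h1 i
      rw [rf_eq] at this
      simp only [Pi.sub_apply, Pi.smul_apply, Pi.single_eq_of_ne hi, smul_zero, sub_zero] at this ⊢
      exact le_antisymm this (h0 i)
  have h2 := h.one
  rw [e] at h2
  simp only [map_smul, LinearMap.smul_apply, smul_eq_mul, B_qq] at h2
  have h3 : 0 ≤ a q := h0 q
  rw [e, show a q = 1 by nlinarith, one_smul]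

/-- the induction claim -/
def Q (y : RAC K) : Prop := ∀ a b, Root R a → Root R b → 0 ≤ a → 0 ≤ b → B K a b ≤ -1 →
  R.ρ y a ≤ 0 → R.ρ y b ≤ 0 → False

theorem step {y : RAC K} (ih : Q R y) {q : Fin r} {b : Fin r → ℤ} (hb : Root R b) (b0 : 0 ≤ b)
    (h : B K (Pi.single q 1) b ≤ -1) (h1 : R.ρ y (rf K q (Pi.single q 1)) ≤ 0)
    (h2 : R.ρ y (rf K q b) ≤ 0) : False := by
  have e0 : (0 : Fin r → ℤ) ≤ Pi.single q 1 := Pi.single_nonneg.2 zero_le_one
  refine ih _ _ (hb.rf R q) hb ?_ b0 ?_ h2 ?_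
  · rw [rf_eq, sub_eq_add_neg, ← neg_smul]
    exact add_nonneg b0 (smul_nonneg (by omega) e0)
  · simp only [rf_eq, map_sub, map_smul, LinearMap.sub_apply, LinearMap.smul_apply, smul_eq_mul,
      hb.one]
    nlinarith
  · rw [rf_e, map_neg, neg_nonpos] at h1
    rw [rf_eq, map_sub, map_smul, sub_nonpos] at h2
    exact h2.trans (smul_nonpos_of_nonpos_of_nonneg (by omega) h1)

theorem key (y : RAC K) : Q R y := by
  refine R.ind (Q R) (fun a b _ _ a0 _ h h1 _ => ?_) (fun q y _ ih a b ha hb a0 b0 h h1 h2 => ?_) y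
  · rw [map_one, Module.End.one_apply] at h1
    rw [le_antisymm h1 a0] at h
    simp at h
  · rw [rho_r] at h1 h2
    rcases (ha.rf R q).dich with a1 | a1
    · rcases (hb.rf R q).dich with b1 | b1
      · exact ih _ _ (ha.rf R q) (hb.rf R q) a1 b1 (by rwa [B_rf]) h1 h2
      · obtain rfl := hb.eq R b0 b1
        exact step R ih ha a0 (by rwa [B_symm]) h2 h1
    · obtain rfl := ha.eq R a0 a1
      exact step R ih hb b0 h h1 h2

end NESTx

open NESTx in
theorem p_NEST :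
    S_NEST := by
  intro r K R s t u hst x₁ x₂ x₃ x₄ h1 h1' h2 h2' h3 h3' h4 h4'
  obtain ⟨w, hw⟩ := rho_even R u (Pi.single t 1)
  have e : B K (Pi.single s 1) (R.ρ u (Pi.single t 1)) =
      bf K s t + 2 * B K (Pi.single s 1) w := by
    rw [hw, map_add, map_smul, B_ee, smul_eq_mul]
  have e2 : bf K s t = 1 ∨ bf K s t = -1 := by
    rw [bf, if_neg hst]; split_ifs <;> simp
  rcases le_or_gt (B K (Pi.single s 1) (R.ρ u (Pi.single t 1))) (-1) with h | h
  · refine key R (x₁ * x₄⁻¹) _ _ ⟨_, _, rfl⟩ ⟨_, _, rfl⟩ h4 h4' (by rwa [rho_mul, B_rho]) ?_ ?_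
    · rwa [← rho_mul, inv_mul_cancel_right]
    · rwa [← rho_mul, ← mul_assoc, inv_mul_cancel_right]
  · refine key R (x₂ * x₃⁻¹) _ (-R.ρ (x₃ * u) (Pi.single t 1)) ⟨_, _, rfl⟩
      ⟨x₃ * u * gn K t, t, by rw [rho_r, rf_e, map_neg]⟩ h3 (neg_nonneg.2 h3') ?_ ?_ ?_
    · rw [map_neg, rho_mul, B_rho]; omega
    · rwa [← rho_mul, inv_mul_cancel_right]
    · rwa [map_neg, neg_nonpos, ← rho_mul, ← mul_assoc, inv_mul_cancel_right]

end Pool.Agent.P.MP_f30597_gt.DV
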