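import Pool.Agent.P.MP_f30597_gt.DV.Iface

/-! Step PAIR. -/

set_option autoImplicit false
set_option linter.unusedSectionVars false

namespace Pool.Agent.P.MP_f30597_gt.DV

open Finset SI CP
open scoped Classical

namespace PAIRx

variable {r : ℕ} {K : SimpleGraph (Fin r)} (d : Desc K)

theorem self (s : Fin r) : d.D s (gn K s) := by
  simpa using (d.flip s 1).2 (d.one s)

theorem one {s : Fin r} {a g y : RAC K} (e : g * a = 1) (h1 : ¬d.D s y) (h2 : ¬d.D s (g * y))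
    (ha : d.D s a) (hg : d.D s g) : False := by
  by_cases h : d.D s (g * gn K s)
  · exact d.nest s s g K.irrefl _ a 1 y (self d s) h ha (e ▸ d.one s) (d.one s)
      (by rwa [mul_one]) h1 h2
  · exact h2 ((d.edge' hg h y).2 h1)

theorem same {s : Fin r} {a g y : RAC K} (e : g * a = 1) (h1 : d.D s y) (h2 : d.D s (g * y))
    (hg : ¬d.D s g) : d.D s (a * gn K s) := by
  have e' : d.D s (g * (a * gn K s)) := by rw [← mul_assoc, e, one_mul]; exact self d s
  by_cases h : d.D s (g * gn K s)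
  · exact (d.edge s s g hg h _).1 e'
  · by_contra h'
    exact d.nest s s g K.irrefl y _ _ 1 h1 h2 (self d s) h h' e' (d.one s) (by rwa [mul_one])

theorem two {s t : Fin r} {a g y : RAC K} (e : g * a = 1) (h1 : d.D s y) (h2 : d.D s (g * y))
    (ha : ¬d.D s a) (hg : ¬d.D s g) (ht : t ∈ d.Us a) : K.Adj s t := by
  by_contra hn
  obtain ⟨k, k1, k2⟩ := ht
  by_cases h : d.D t (k * gn K s)
  · exact ha ((d.edge s t k k1 h a).1 k2)
  by_cases h' : d.D t (k * a * gn K s)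
  · exact d.nest s t k hn _ _ a 1 (same d e h1 h2 hg) (by rwa [← mul_assoc]) (self d s) h ha k2
      (d.one s) (by rwa [mul_one])
  · have := (d.edge' k2 h' g).2 hg
    rw [mul_assoc, mul_eq_one_comm.1 e, mul_one] at this
    exact k1 this

end PAIRx

theorem p_PAIR :
    S_PAIR := by
  intro r K d l v v' hl hN
  have e : v'⁻¹ * v * (v⁻¹ * v') = 1 := by group
  have hx : ∀ x ∈ l, ∀ s, d.D s (v'⁻¹ * v * (v⁻¹ * x)) ↔ d.D s (v⁻¹ * x) := fun x hx s => by
    rw [mul_assoc, mul_inv_cancel_left, ← d.mem_ds, ← d.mem_ds,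
      show d.ds (v⁻¹ * x) = d.ds (v'⁻¹ * x) from List.map_inj_left.1 hl x hx]
  refine ⟨fun s ha hg => hN ⟨fun σ hσ => ?_, s, fun σ hσ => ?_⟩, fun σ hσ s hs => ?_⟩
  · obtain ⟨x, -, rfl⟩ := List.mem_map.1 hσ
    exact d.cq_ds _
  · obtain ⟨x, h, rfl⟩ := List.mem_map.1 hσ
    by_contra h1
    rw [d.mem_ds] at h1
    exact PAIRx.one d e h1 (mt (hx x h s).1 h1) ha hg
  · obtain ⟨x, h, rfl⟩ := List.mem_map.1 hσ
    rw [d.mem_ds] at hs
    by_cases ha : d.D s (v⁻¹ * v')
    · exact Or.inl ha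
    by_cases hg : d.D s (v'⁻¹ * v)
    · exact Or.inr (Or.inl hg)
    exact Or.inr (Or.inr fun t ht => PAIRx.two d e hs ((hx x h s).2 hs) ha hg ht)

end Pool.Agent.P.MP_f30597_gt.DV
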