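import Pool.Agent.P.MP_f30597_gt.DV.Iface

/-! Step PHI. -/

set_option autoImplicit false
set_option linter.unusedSectionVars false

namespace Pool.Agent.P.MP_f30597_gt.DV

open Finset SI CP
open scoped Classical

namespace PHIx

variable {r : ℕ} {K : SimpleGraph (Fin r)} {I : List (Finset (Fin r))} {ρ μ : Finset (Fin r)}

theorem cov (h : Pair K I ρ μ) {x : Fin r} (hx : x ∈ ρ ∪ μ) : ∃ σ ∈ I, x ∈ σ := by
  rcases mem_union.1 hx with hx | hx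
  · obtain ⟨σ, h1, h2⟩ := h.ex₁
    exact ⟨σ, h1, (mem_inter.1 (h2.symm ▸ hx)).1⟩
  · obtain ⟨σ, h1, h2⟩ := h.ex₂
    exact ⟨σ, h1, (mem_inter.1 (h2.symm ▸ hx)).1⟩

theorem sub {ρ' μ' : Finset (Fin r)} (h : Pair K I ρ μ) (h' : Pair K I ρ' μ')
    (hn : ((ρ ∪ μ) ∩ (ρ' ∪ μ')).Nonempty) : (ρ ∪ μ) ∩ (ρ' ∪ μ') = ρ ∪ μ :=
  h.con.2 _ inter_subset_left hn fun s hs t ht ha => mem_inter.2 ⟨ht, by
    by_contra e
    obtain ⟨σ, h1, h2⟩ := cov h ht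
    exact ha (h'.adj σ h1 t h2 e s (mem_inter.1 hs).2).symm⟩

theorem mono {I' : List (Finset (Fin r))} (hI : ∀ σ ∈ I', σ ∈ I) : Phi K I' ⊆ Phi K I := by
  rintro T ⟨h1, h2, h3⟩
  refine ⟨h1, fun s hs => (h2 s hs).imp fun σ h => ⟨hI σ h.1, h.2⟩, fun ρ μ h => ?_⟩
  by_cases e1 : ∃ σ ∈ I', σ ∩ (ρ ∪ μ) = ρ
  · by_cases e2 : ∃ σ ∈ I', σ ∩ (ρ ∪ μ) = μ
    · exact h3 ρ μ ⟨h.dis, e1, e2, fun σ hσ => h.all σ (hI σ hσ), fun σ hσ => h.adj σ (hI σ hσ),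
        h.con⟩
    · refine Or.inl fun s hs => ?_
      obtain ⟨σ, a1, a2⟩ := h2 s (mem_inter.1 hs).1
      rw [← (h.all σ (hI σ a1)).resolve_right fun e => e2 ⟨σ, a1, e⟩]
      exact mem_inter.2 ⟨a2, (mem_inter.1 hs).2⟩
  · refine Or.inr (Or.inl fun s hs => ?_)
    obtain ⟨σ, a1, a2⟩ := h2 s (mem_inter.1 hs).1
    rw [← (h.all σ (hI σ a1)).resolve_left fun e => e1 ⟨σ, a1, e⟩]
    exact mem_inter.2 ⟨a2, (mem_inter.1 hs).2⟩

theorem ins {t : Fin r} (h0 : ∃ σ ∈ I, t ∈ σ) (ha : ∀ σ ∈ I, ∀ s ∈ σ, s ≠ t → K.Adj s t)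
    {T : Finset (Fin r)} (hT : T ∈ Phi K I) : insert t T ∈ Phi K I := by
  obtain ⟨h1, h2, h3⟩ := hT
  have k : ∀ x ∈ insert t T, ¬K.Adj x t → x = t := fun x hx hn => by
    rcases mem_insert.1 hx with hx | hx
    · exact hx
    · by_contra e
      obtain ⟨σ, a1, a2⟩ := h2 x hx
      exact hn (ha σ a1 x a2 e)
  refine ⟨fun a ha' b hb c hc n1 n2 => ?_, fun s hs => ?_, fun ρ μ h => ?_⟩
  · by_cases e1 : a = t
    · exact Or.inl (e1.trans (k b hb fun e => n1 (e1 ▸ e.symm)).symm)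
    by_cases e2 : b = t
    · exact absurd (k a ha' (e2 ▸ n1)) e1
    by_cases e3 : c = t
    · exact absurd (k a ha' (e3 ▸ n2)) e1
    exact h1 a ((mem_insert.1 ha').resolve_left e1) b ((mem_insert.1 hb).resolve_left e2) c
      ((mem_insert.1 hc).resolve_left e3) n1 n2
  · rcases mem_insert.1 hs with rfl | hs
    · exact h0
    · exact h2 s hs
  · have ht : t ∉ ρ ∪ μ := fun ht => by
      have e := h.con.2 {t} (singleton_subset_iff.2 ht) (singleton_nonempty t)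
        fun s hs x hx hn => mem_singleton.2 (by
          by_contra e
          obtain ⟨σ, a1, a2⟩ := cov h hx
          exact hn (mem_singleton.1 hs ▸ (ha σ a1 x a2 e).symm))
      obtain ⟨p, hp, q, hq, n, -⟩ := h.con.1
      rw [← e, mem_singleton] at hp hq
      exact n (hp.trans hq.symm)
    rw [insert_inter_of_notMem ht]
    exact h3 ρ μ h

theorem rep (hI : Cl K I) (h : Pair K I ρ μ) {T : Finset (Fin r)} (hT : T ∈ Phi K I)
    {Z : Finset (Fin r)} (hZ : Z ⊆ ρ ∨ Z ⊆ μ ∨ Z = ed K (ρ ∪ μ)) :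
    T \ (ρ ∪ μ) ∪ Z ∈ Phi K I := by
  obtain ⟨h1, h2, h3⟩ := hT
  obtain ⟨p, hp, q, hq, -, -, e⟩ := h.con.ed_spec
  obtain ⟨σ₁, a1, b1⟩ := h.ex₁
  obtain ⟨σ₂, a2, b2⟩ := h.ex₂
  have zc : Z ⊆ ρ ∪ μ := by
    rcases hZ with hZ | hZ | hZ
    · exact hZ.trans subset_union_left
    · exact hZ.trans subset_union_right
    · rw [hZ, e]
      exact insert_subset hp (singleton_subset_iff.2 hq)
  have za : InA K Z := by
    have k : ∀ σ ∈ I, Z ⊆ σ ∩ (ρ ∪ μ) → InA K Z := fun σ hσ hs =>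
      Cq.inA fun s a t b => hI σ hσ s (mem_inter.1 (hs a)).1 t (mem_inter.1 (hs b)).1
    rcases hZ with hZ | hZ | hZ
    · exact k σ₁ a1 (b1.symm ▸ hZ)
    · exact k σ₂ a2 (b2.symm ▸ hZ)
    · rw [hZ, e]
      intro a ha b hb c hc _ _
      simp only [mem_insert, mem_singleton] at ha hb hc
      rcases ha with rfl | rfl <;> rcases hb with hb | hb <;> rcases hc with hc | hc <;>
        simp [hb, hc]
  have ad : ∀ s ∈ T \ (ρ ∪ μ), ∀ t ∈ Z, K.Adj s t := fun s hs t ht => by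
    obtain ⟨σ, c1, c2⟩ := h2 s (mem_sdiff.1 hs).1
    exact h.adj σ c1 s c2 (mem_sdiff.1 hs).2 t (zc ht)
  refine ⟨fun a ha b hb c hc n1 n2 => ?_, fun s hs => ?_, fun ρ' μ' h' => ?_⟩
  · rcases mem_union.1 ha with ha | ha
    · exact h1 a (mem_sdiff.1 ha).1
        b (mem_sdiff.1 ((mem_union.1 hb).resolve_right fun x => n1 (ad a ha b x))).1
        c (mem_sdiff.1 ((mem_union.1 hc).resolve_right fun x => n2 (ad a ha c x))).1 n1 n2
    · exact za a ha b ((mem_union.1 hb).resolve_left fun x => n1 (ad b x a ha).symm)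
        c ((mem_union.1 hc).resolve_left fun x => n2 (ad c x a ha).symm) n1 n2
  · rcases mem_union.1 hs with hs | hs
    · exact h2 s (mem_sdiff.1 hs).1
    · exact cov h (zc hs)
  · by_cases hn : ((ρ ∪ μ) ∩ (ρ' ∪ μ')).Nonempty
    · have e1 : ρ ∪ μ = ρ' ∪ μ' := by
        have e3 := sub h h' hn
        rw [inter_comm] at hn e3
        exact e3.symm.trans (sub h' h hn)
      have e2 : (T \ (ρ ∪ μ) ∪ Z) ∩ (ρ' ∪ μ') = Z := by
        rw [← e1]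
        ext x
        have := @zc x
        simp only [mem_inter, mem_sdiff, mem_union (s := T \ (ρ ∪ μ))]
        tauto
      rw [e2]
      have k : ∀ σ ∈ I, Z ⊆ σ ∩ (ρ ∪ μ) → Z ⊆ ρ' ∨ Z ⊆ μ' ∨ Z = ed K (ρ' ∪ μ') := fun σ hσ hs => by
        rw [e1] at hs
        rcases h'.all σ hσ with e3 | e3
        · exact Or.inl (e3 ▸ hs)
        · exact Or.inr (Or.inl (e3 ▸ hs))
      rcases hZ with hZ | hZ | hZ
      · exact k σ₁ a1 (b1.symm ▸ hZ)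
      · exact k σ₂ a2 (b2.symm ▸ hZ)
      · exact Or.inr (Or.inr (e1 ▸ hZ))
    · have e2 : (T \ (ρ ∪ μ) ∪ Z) ∩ (ρ' ∪ μ') = T ∩ (ρ' ∪ μ') := by
        ext x
        have := @zc x
        have : x ∈ ρ ∪ μ → x ∉ ρ' ∪ μ' := fun c1 c2 => hn ⟨x, mem_inter.2 ⟨c1, c2⟩⟩
        simp only [mem_inter, mem_sdiff, mem_union (s := T \ (ρ ∪ μ))]
        tauto
      rw [e2]
      exact h3 ρ' μ' h'

end PHIx

theorem p_PHI :
    S_PHI := fun _ K I hI =>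
  ⟨fun _ h => PHIx.mono h,
    fun σ hσ => ⟨(hI σ hσ).inA, fun _ hs => ⟨σ, hσ, hs⟩, fun _ _ h =>
      (h.all σ hσ).imp Eq.subset fun e => Or.inl e.subset⟩,
    fun _ h0 ha _ hT => PHIx.ins h0 ha hT,
    ⟨(cq_empty K).inA, by simp, fun _ _ _ => Or.inl (by simp)⟩,
    fun _ _ h _ hT _ hZ => PHIx.rep hI h hT hZ⟩

end Pool.Agent.P.MP_f30597_gt.DV
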