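import Pool.Agent.P.MP_f30597_gt.DV.IfaceB

/-! Step QA. -/

set_option autoImplicit false
set_option linter.unusedSectionVars false

namespace Pool.Agent.P.MP_f30597_gt.DV

open Finset Matrix Filter MeasureTheory SI SI.Par

theorem p_QA :
    S_QA := by
  intro G ι _ _ _ P deg c w w' n m Ψ z R hn R' h hz
  obtain ⟨z₀, u, h0, hk, hu, hΦ⟩ := hz.ex
  obtain ⟨Ψ', h'⟩ := exists_psi R'
  obtain ⟨β, hβ⟩ := exists_beta R
  obtain ⟨q1, q2, q3⟩ := psi_beta h' hβ
  generalize hQ : (Matrix.of fun a => Ψ' (β a)) = Q at q2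
  have hQ' : ∀ a, Ψ' (β a) = Q a := fun a => congrFun hQ a
  simp only [hQ'] at q1 q3
  have c1 : ∀ a, Cap Ψ a (mapL bdL z) = 0 := fun a => by
    have := hΦ ((Cap Ψ a).comp (mapL bdL).toAddMonoidHom) fun g m =>
      (congrArg (Cap Ψ a) ((mapL bdL).map_smul _ _)).trans (Cap_inv Ψ a g _)
    refine this.trans ?_
    change Cap Ψ a (mapL bdL (cn z₀)) + Cap Ψ a (mapL bdL (mapL bdL u)) = 0
    rw [show mapL bdL (mapL bdL u) = 0 from Subtype.ext (funext fun x => bdZ_bdZ _), map_zero,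
      add_zero]
    have := inv_co ((Cap Ψ a).toIntLinearMap ∘ₗ (cn (P := P)).restrictScalars ℤ) (fun g l => by
      change Cap Ψ a (cn _) = Cap Ψ a (cn _)
      rw [← el_smul, map_smul, Cap_inv]) (bd z₀)
    rw [h0, map_zero, bd_eq] at this
    exact this.symm
  have c2 : ∀ a, Ev Ψ a z = eps (Ψ z₀ a) • cn (sx []) := fun a => by
    rw [hΦ _ (Ev_inv Ψ a), cn_eq, Ev_mu, ← cn_eq, ← map_smul, smul_nil, eps_rinv, map_zsmul,
      add_eq_left]
    refine fn_eq ((Ev Ψ a).comp (mapL bdL).toAddMonoidHom) 0 u fun l hl f => ?_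
    obtain ⟨x, hx⟩ := mem_occ.1 hl
    change Ev Ψ a (mapL bdL _) = 0
    rw [bd_mu, Ev_mu, ← h.ch, hm_top hn _ (psi_hm h.hm (hu x l hx ▸ sx_len l))]
    simp
  obtain ⟨Γ, hΓ⟩ : ∃ Γ : ι → P.Fn (Bar G), ∀ a, Γ a = (eta n * eta (deg a)) • Cap Ψ a z :=
    ⟨_, fun _ => rfl⟩
  have g1 : ∀ a, mapL bdL (Γ a) = (m * w' a) • cn (sx []) + ∑ b, cst c a b • Γ b := fun a => by
    have e := Cap_bd a h z
    rw [c1, c2, eq_comm, sub_eq_zero] at e
    have e1 : ∑ b, cst c a b • Γ b =
        (eta n * eta (deg a + 1)) • ∑ b, cst c a b • Cap Ψ b z := by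
      rw [smul_sum]
      refine sum_congr rfl fun b _ => ?_
      by_cases e' : c b a = 0
      · simp [cst, e', lap_rinv_zero]
      · rw [hΓ, R.graded b a e', smul_comm]
    have e2 : m * w' a = eta n * eta (deg a) * eps (Ψ z₀ a) := by
      by_cases e' : w' a = 0
      · rw [hk, e', mul_zero, mul_zero]
      · rw [dual_deg hn R' a e', eta_sq, one_mul, hk]
    rw [e1, e, smul_smul, eta, e2, hΓ, map_zsmul, show eta n * ((-1) ^ (deg a + 1) *
      eta (deg a)) * (-1) ^ (deg a + 1) = eta n * eta (deg a) by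
        rcases neg_one_pow_eq_or ℤ (deg a + 1) with e | e <;> rw [e] <;> ring, smul_sub, smul_smul]
    abel
  refine ⟨fun a => ∑ b, Q a b • Γ b, fun a => ⟨show _ ∈ pc (Len (deg a + 1)) from
    sum_mem fun b _ => ?_, ?_, sum_mem fun b _ => Submodule.smul_mem _ _ ?_⟩⟩
  · by_cases e : Q a b = 0
    · simp [e]
    · rw [← q1 a b e, hΓ]
      refine Submodule.smul_mem _ _ (zsmul_mem (Cap_mem b h z (pc _) fun l hl x => ?_) _)
      refine (Len (G := G) _).toAddSubgroup.zsmul_mem ?_ _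
      obtain ⟨y, hy⟩ := mem_occ.1 hl
      have := hn b
      have e1 : (l.drop (deg b)).length = n - deg b + 1 := by
        rw [List.length_drop, hz.len y l hy]; omega
      exact e1 ▸ sx_len _
  · simp only [map_sum, map_smul, g1, smul_add, smul_sum, smul_smul, sum_add_distrib]
    congr 1
    · rw [← q3, aug_eq, mul_sum, sum_smul]
      exact sum_congr rfl fun b _ => by
        rw [smul_comm, ← map_smul, smul_nil, map_zsmul, smul_smul, mul_assoc]
    · rw [sum_comm, sum_comm (f := fun b e => (c a b * Q b e) • Γ e)]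
      exact sum_congr rfl fun e _ => by
        rw [← sum_smul, ← sum_smul, ← mul_apply, ← mul_apply, q2]
  · rw [hΓ]
    refine zsmul_mem (Cap_mem b h z (AdmM z) fun l _ x => ?_) _
    change z.1 x l • sx _ ∈ Finsupp.supported ℤ ℤ (AdmX z x)
    by_cases e : z.1 x l = 0
    · simp [e]
    · exact zsmul_mem (Finsupp.single_mem_supported ℤ 1 (show _ ∈ AdmX z x from
        ⟨1, l, _, by simpa using e, List.drop_sublist _ _, (tr_one _).symm⟩)) _

end Pool.Agent.P.MP_f30597_gt.DV
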