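import Pool.Agent.P.MP_f30597_gt.DV.IfaceB

/-! Step QB. -/

set_option autoImplicit false
set_option linter.unusedSectionVars false

namespace Pool.Agent.P.MP_f30597_gt.DV

open Finset Matrix Filter MeasureTheory SI SI.Par

theorem p_QB (hQA : S_QA) :
    S_QB := by
  intro G ι _ _ _ _ P deg c w w' n m Ψ z δ ε R hn R' h hz hδ0 hε hδ
  classical
  obtain ⟨β, hβ⟩ := hQA G ι P deg c w w' n m Ψ z R hn R' h hz
  have e1 : ∀ a, (1 : Matrix ι ι (ZG G)) a = Pi.single a 1 := fun a => by
    ext b : 1; simp [one_apply, Pi.single_apply, eq_comm]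
  have b0 : ∀ {κ : Type} (Φ : Bar G →ₗ[ZG G] (κ → ZG G)), Φ (sx []) = 0 → ∀ a,
      ∑ b, c a b • mapL Φ (β b) = mapL Φ (mapL bdL (β a)) := fun Φ hΦ a => by
    rw [(hβ a).2.1, map_add, map_zsmul, map_sum,
      show mapL Φ (cn (sx [])) = 0 from Subtype.ext (funext fun _ => hΦ), smul_zero, zero_add]
    simp only [map_smul]
  obtain ⟨t, ht⟩ := genF deg (-c) (fun a b e => R.graded a b (neg_ne_zero.1 e))
    (by rw [neg_mul_neg, R.sq]) c.vecMulLinear (fun k => Hm deg k ⊓ augK w)
    (fun k => Hm deg (k + 1)) (hm_le R) (hm_fill R)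
    (fun a => mapL Ψ (β a) - cn ((m • (1 : Matrix ι ι (ZG G))) a))
    (fun a x => ⟨sub_mem (psi_hm h.hm ((hβ a).1 x))
      (zsmul_mem (show (1 : Matrix ι ι (ZG G)) a ∈ Hm deg (deg a) from
        e1 a ▸ pat_hom_single deg a) m), by
      change aug w (Ψ ((β a).1 x) - m • (1 : Matrix ι ι (ZG G)) a) = 0
      rw [pat_aug_sub, h.au, e1, show aug w (m • (Pi.single a 1 : ι → ZG G)) =
        m • aug w (Pi.single a 1 : ι → ZG G) from (augH w).map_smul m _, pat_aug_single,
        sub_eq_zero]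
      refine (congrFun (congrArg DFunLike.coe (congrFun (congrArg Subtype.val (hβ a).2.1) x))
        []).trans ?_
      change ((m * w a) • sx [] + (∑ b, c a b • β b).1 x : Bar G) [] = _
      rw [Finsupp.add_apply, Par.sum_val, Finsupp.finsetSum_apply, sum_eq_zero fun b _ =>
        len_at_nil ((pc (Len (deg b + 1))).smul_mem (c a b) (hβ b).1 x)]
      simp⟩)
    fun a => by
      simp only [Matrix.neg_apply, neg_smul, smul_sub, sum_neg_distrib, sum_sub_distrib, map_sub,
        b0 Ψ (psi_nil h.hm)]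
      rw [← neg_sub', add_neg_eq_zero]
      congr 1
      · exact Subtype.ext (funext fun x => h.ch _)
      · refine Subtype.ext (funext fun x => Eq.trans ?_ (row_cn _ _ x).symm)
        change ((m • (1 : Matrix ι ι (ZG G))) * c : Matrix _ _ _) a =
          (c * (m • (1 : Matrix ι ι (ZG G))) : Matrix _ _ _) a
        rw [smul_mul_assoc, mul_smul_comm, one_mul, mul_one]
  have n1 := fun {κ : Type} [Fintype κ] [DecidableEq κ] (Φ : Bar G →ₗ[ZG G] (κ → ZG G))
    (hΦ : Φ (sx []) = 0) => neg_mat_mul (fun a => mapL (crd (zU z)) (β a)) (cut z Φ)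
      (fun a => mapL Φ (β a)) fun a x => crd_cut Φ hΦ ((hβ a).2.2 x)
  refine ⟨fun i => mat (fun a => mapL (crd (zU z)) (β a)) i * mat (cut z Ψ) i, mat t, ?_, ?_⟩
  · refine (((n1 Ψ (psi_nil h.hm)).add
      ((Sof.neg_mdl_one (κ := ι)).mul_left fun _ => (m : ℝ) • 1)).sub
      ((neg_mat_mul t (fun a => cn (c a)) (fun a => mapL c.vecMulLinear (t a))
        fun a x => row_cn _ _ x).add (neg_mat_mul (fun a => cn (c a)) t
          (fun a => ∑ b, c a b • t b) fun a x => rfl))).congr fun i => ?_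
    have : mat (fun a => mapL Ψ (β a)) i = (m : ℝ) • mdl (P.S.act i) 1 +
        (mat (fun a => mapL c.vecMulLinear (t a)) i + mat (fun a => ∑ b, c a b • t b) i) := by
      funext p
      refine Eq.trans (congrArg (pl _ p.2) ?_) ((pl_add _ _ _ _).trans
        (congrArg₂ _ (pl_zsmul _ _ m ((1 : Matrix ι ι (ZG G)) p.1)) (pl_add _ _ _ _)))
      have := (ht p.1).2
      simp only [Matrix.neg_apply, neg_smul, sum_neg_distrib] at this
      exact congrFun (congrArg Subtype.val
        (sub_eq_iff_eq_add'.1 (eq_add_neg_iff_add_eq.1 this).symm)) _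
    rw [this, smul_mul_assoc, one_mul, smul_sub]
    change _ = _ - (m : ℝ) • 1 -
      (mat t i * mat (fun a => cn (c a)) i + mat (fun a => cn (c a)) i * mat t i)
    abel
  · filter_upwards [act_count hz.len hε hδ, (n1 _ (psi_nil (crd_hm (zU z)))).symm.ev hε]
      with i a1 a2
    obtain ⟨A, hA, a1⟩ : ∃ A : Finset (cells (zU z) × Fin (P.S.N i)), _ = A ∧
      (A.card : ℝ) ≤ 2 ^ (n + 1) * (δ + ε) * P.S.N i := ⟨_, rfl, a1⟩
    have a0 : ∀ p, p ∈ A ↔ Act z p.1.1 (P.π i p.2) := fun p => by simp [← hA]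
    have a3 : ∀ p ∉ A, mat (cut z (crd (zU z))) i p = 0 := fun p hp =>
      (congrArg (pl _ p.2) (if_neg fun e => hp ((a0 p).2 e))).trans (pl_zero _ _)
    have a5 : (1 : ℝ) ≤ 2 ^ (n + 1) := one_le_pow₀ one_le_two
    have a6 : (0 : ℝ) ≤ ε * P.S.N i := by positivity
    have a7 := (rk_add _ _).trans (Nat.add_le_add_left ((rank_mul_le_right
      (mat (fun a => mapL (crd (zU z)) (β a)) i) (mat (cut z (crd (zU z))) i)).trans
        (rank_le_card_of_support_subset _ A fun p hp => by_contra fun e => hp (a3 p e)))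
        (mat (fun a => mapL (crd (zU z)) (β a)) i -
          mat (fun a => mapL (crd (zU z)) (β a)) i * mat (cut z (crd (zU z))) i).rank)
    rw [sub_add_cancel] at a7
    calc _ ≤ ε * P.S.N i + 2 ^ (n + 1) * (δ + ε) * P.S.N i :=
          (Nat.cast_le.2 ((rank_mul_le_left _ _).trans a7)).trans (by push_cast; gcongr)
      _ ≤ _ := by nlinarith

end Pool.Agent.P.MP_f30597_gt.DV
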