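import Pool.Agent.P.MP_f30597_gt.DV.IfaceB

/-! Step QC. -/

set_option autoImplicit false
set_option linter.unusedSectionVars false

namespace Pool.Agent.P.MP_f30597_gt.DV

open Finset Matrix Filter MeasureTheory SI SI.Par

namespace QCx

theorem triv_ex {G Y : Type} [Group G] [MulAction G Y] {k : ℕ} {t : Bar Y}
    (ht : t ∈ Triv G Y k) : ∃ v : G × List Y →₀ ℤ, (∀ p ∈ v.support, p.2.length = k) ∧
      t = v.mapDomain (fun p => p.2.map fun s => p.1 • s) - v.mapDomain fun p => p.2 := by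
  change ∃ v ∈ Finsupp.supported ℤ ℤ {p : G × List Y | p.2.length = k}, _
  induction ht using Submodule.span_induction with
  | mem x hx =>
    obtain ⟨g, l, hl, rfl⟩ := hx
    exact ⟨Finsupp.single (g, l) 1, Finsupp.single_mem_supported ℤ _ hl, by
      rw [Finsupp.mapDomain_single, Finsupp.mapDomain_single]⟩
  | zero => exact ⟨0, zero_mem _, by simp⟩
  | add x y _ _ hx hy =>
    obtain ⟨a, ha, rfl⟩ := hx
    obtain ⟨b, hb, rfl⟩ := hy
    exact ⟨a + b, add_mem ha hb, by
      rw [Finsupp.mapDomain_add, Finsupp.mapDomain_add]; abel⟩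
  | smul r x _ hx =>
    obtain ⟨a, ha, rfl⟩ := hx
    exact ⟨r • a, Submodule.smul_mem _ r ha, by
      rw [Finsupp.mapDomain_smul, Finsupp.mapDomain_smul, smul_sub]⟩

end QCx

theorem p_QC (hQB : S_QB) :
    S_QC := by
  intro G ι Y _ _ _ _ S deg c w w' n y R hn hn0 R' hY hy δ hδ
  classical
  obtain ⟨Ψ, h⟩ := exists_psi R
  obtain ⟨β, hβ⟩ := exists_beta R
  obtain ⟨g1, g2, g3⟩ := fund0 R hn hn0 R' h hβ
  obtain ⟨m, hm, hy⟩ := hy
  obtain ⟨t, ht, _, ⟨u, hu, rfl⟩, e⟩ := Submodule.mem_sup.1 (hy _ g1 g2)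
  obtain ⟨v, hv, rfl⟩ := QCx.triv_ex ht
  replace hu : ∀ l ∈ u.support, l.length = n + 2 := hu
  obtain ⟨z₀, hz⟩ : ∃ z₀, ∑ a, (m * w' a) • β a = z₀ := ⟨_, rfl⟩
  have hz0 : z₀ = m • ∑ a, w' a • β a := by simp only [← hz, mul_smul, smul_sum]
  have f1 : z₀ ∈ Len (G := G) (n + 1) := hz0 ▸ zsmul_mem g1 m
  have f2 : co (bd z₀) = 0 := by
    rw [hz0, bd_eq', map_zsmul, ← bd_eq', co, Finsupp.mapDomain_smul]
    exact smul_eq_zero_of_right m g2
  have f3 : ∀ a, eps (Ψ z₀ a) = m * w' a := fun a => by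
    rw [hz0, map_zsmul, Pi.smul_apply, map_zsmul, g3, smul_eq_mul]
  replace e : z₀.mapDomain (List.map fun g => g • y) =
      bd u + (v.mapDomain (fun p => p.2.map fun s => p.1 • s) - v.mapDomain fun p => p.2) := by
    rw [hz0, Finsupp.mapDomain_smul, bd_eq', add_comm]
    exact e.symm
  obtain ⟨L, hL⟩ : ∃ L : ℕ, L = z₀.support.card + (bd u).support.card +
    (v.support.card + v.support.card) := ⟨_, rfl⟩
  obtain ⟨η, hη, hη0⟩ : ∃ η : ℝ, 2 ^ (n + 1) * (L * η + 2 * η) = δ ∧ 0 < η :=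
    ⟨δ / (2 ^ (n + 1) * (L + 2)), by field_simp, by positivity⟩
  obtain ⟨P, τ, hτ, hg⟩ := exists_tau S hY
    (z₀.support.biUnion List.toFinset ∪ v.support.image Prod.fst)
    (insert y (v.support.biUnion fun p => p.2.toFinset)) hη0
  have hT : ∀ g : G, P.Tame fun x => g * τ y (g⁻¹ • x) := fun g => ((hτ y).shift g).comp (g * ·)
  obtain ⟨A, hA⟩ : ∃ A : Bar G →ₗ[ZG G] P.Fn (Bar G), ∀ u, A u = pm hT u :=
    ⟨lin (pm hT).toIntLinearMap fun g l => psh_el (tame_map hT) (tame_map hT) fun x => by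
      simp [tr, mul_assoc, mul_smul], fun _ => rfl⟩
  have a0 : A (sx []) = cn (sx []) :=
    (hA _).trans (Subtype.ext (funext fun x => Finsupp.mapDomain_single))
  obtain ⟨U, hU⟩ := genF (P := P) (fun a => deg a + 1) (-c)
    (fun a b e => congrArg (· + 1) (R.graded a b (neg_ne_zero.1 e))) (by rw [neg_mul_neg, R.sq])
    bdL Len (fun k => Len (k + 1)) (fun _ => le_rfl) len_fill (fun a => A (β a) - cn (β a))
    (fun a x => sub_mem (hA _ ▸ psh_len _ (fun l hl _ => by simpa using (hβ a).1 l hl) x) (hβ a).1)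
    fun a => by
      have e1 : mapL bdL (cn (P := P) (β a)) = cn (bdZ (β a)) := rfl
      have e2 : mapL bdL (A (β a)) = A (bdZ (β a)) := by rw [hA, hA, pm_bd, bd_eq]
      simp only [map_sub, e1, e2, (hβ a).2, map_add, map_zsmul, map_sum, map_smul, a0,
        Matrix.neg_apply, neg_smul, smul_sub, sum_neg_distrib, sum_sub_distrib]
      abel
  have t1 : ∀ p : G × List Y, P.Tame fun x => p.2.map (τ · x) := fun p => tame_map hτ p.2
  have t2 : ∀ p : G × List Y, P.Tame fun x => tr p.1 (p.2.map (τ · (p.1⁻¹ • x))) :=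
    fun p => ((t1 p).shift p.1).comp _
  obtain ⟨z, hz'⟩ : ∃ z, z = pm hT z₀ - pm hτ (bd u) - (psh _ t2 v - psh _ t1 v) := ⟨_, rfl⟩
  have z1 : ∀ x, z.1 x = (pm hT z₀).1 x - (pm hτ (bd u)).1 x -
    ((psh _ t2 v).1 x - (psh _ t1 v).1 x) := fun x => by rw [hz']; rfl
  refine ⟨P.S, m, hm, hη ▸ hQB G ι P deg c w w' n m Ψ z (L * η) η R hn R' h
    ⟨fun x => ?_, z₀, ∑ a, (m * w' a) • U a - pm hτ u, f2, f3, fun x => ?_,
      fun Φ hΦ => ?_⟩ (by positivity) hη0 (hg.mono fun i hi => ?_)⟩
  · rw [z1]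
    exact sub_mem (sub_mem (psh_len _ (fun l hl _ => by simpa using f1 l hl) x)
      (psh_len _ (fun l hl _ => by simpa using bd_len hu l hl) x))
      (sub_mem (psh_len _ (fun p hp _ => by simpa [tr] using hv p hp) x)
        (psh_len _ (fun p hp _ => by simpa using hv p hp) x))
  · refine sub_mem ((show ∑ a, (m * w' a) • U a ∈ pc (Len (n + 2)) from
      sum_mem fun a _ => ?_) x)
      (psh_len (tame_map hτ) (fun l hl _ => by simpa using hu l hl) x)
    by_cases e : w' a = 0
    · simp [e]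
    · exact zsmul_mem (dual_deg hn R' a e ▸ (hU a).1) _
  · have e1 : ∀ v, Φ (psh _ t2 v) = Φ (psh _ t1 v) := fun v => by
      induction v using Finsupp.induction_linear with
      | zero => simp
      | add a b ha hb => simp only [map_add, ha, hb]
      | single p k =>
        rw [← Finsupp.smul_single_one, map_zsmul, map_zsmul, map_zsmul, map_zsmul,
          psh_el t1 t2 fun _ => rfl, hΦ]
    have e2 : ∑ a, ∑ b, (m * w' a) • Φ (c a b • U b) = 0 := by
      rw [sum_comm]
      exact sum_eq_zero fun b _ => by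
        simp only [invG Φ hΦ, smul_smul, ← sum_smul, mul_assoc, ← mul_sum, dual_sum R' b,
          mul_zero, zero_smul]
    rw [hz', ← hA]
    simp only [← hz, map_sub, map_sum, map_zsmul, e1, pm_bd, (hU _).2, map_add,
      Matrix.neg_apply, neg_smul, map_neg, smul_add, smul_sub, sum_add_distrib, sum_sub_distrib,
      smul_sum, smul_neg, sum_neg_distrib, e2]
    abel
  · obtain ⟨B, hB, hi⟩ : ∃ B : Finset (Fin (P.S.N i)), _ = B ∧ (B.card : ℝ) ≤ η * P.S.N i :=
      ⟨_, rfl, hi⟩
    rw [← sum_subset (subset_univ B) fun k _ hk => ?_]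
    · refine (sum_le_card_nsmul _ _ (L : ℝ) fun k _ => Nat.cast_le.2 ?_).trans ?_
      · rw [z1, hL]
        exact (card_le_card Finsupp.support_sub).trans ((card_union_le _ _).trans (add_le_add
          ((card_le_card Finsupp.support_sub).trans ((card_union_le _ _).trans
            (add_le_add (psh_card _ _ _) (psh_card _ _ _))))
          ((card_le_card Finsupp.support_sub).trans ((card_union_le _ _).trans
            (add_le_add (psh_card _ _ _) (psh_card _ _ _))))))
      · rw [nsmul_eq_mul, mul_comm, mul_assoc]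
        gcongr
    · rw [← hB, mem_filter, not_and, not_not] at hk
      have e1 := congrArg (fun m => (pm hτ m).1 (P.π i k)) e
      have e2 : (pm hT z₀).1 (P.π i k) =
          (pm hτ (z₀.mapDomain (List.map fun g => g • y))).1 (P.π i k) :=
        (Finsupp.mapDomain_congr fun l hl => (List.map_congr_left fun g hg =>
          (hk (mem_univ _) g (by simpa using Or.inl ⟨l, by simpa using hl, hg⟩) y
            (mem_insert_self _ _)).symm).trans (List.map_map (g := (τ · (P.π i k)))).symm).trans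
          Finsupp.mapDomain_comp
      have e3 : (psh _ t2 v).1 (P.π i k) =
          (pm hτ (v.mapDomain fun p => p.2.map fun s => p.1 • s)).1 (P.π i k) :=
        (Finsupp.mapDomain_congr fun p hp => List.map_map.trans ((List.map_congr_left fun s hs =>
          (hk (mem_univ _) p.1 (mem_union_right _ (mem_image_of_mem _ hp)) s (mem_insert_of_mem
            (mem_biUnion.2 ⟨p, hp, List.mem_toFinset.2 hs⟩))).symm).trans
              (List.map_map (g := (τ · (P.π i k)))).symm)).trans Finsupp.mapDomain_comp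
      have e4 : (psh _ t1 v).1 (P.π i k) = (pm hτ (v.mapDomain fun p => p.2)).1 (P.π i k) :=
        Finsupp.mapDomain_comp
      simp only [map_add, map_sub] at e1
      rw [z1, e2, e3, e4, e1]
      simp

end Pool.Agent.P.MP_f30597_gt.DV
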