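import Pool.Agent.P.MP_f30597_gt.DV.Iface

/-! Step SEG. -/

set_option autoImplicit false
set_option linter.unusedSectionVars false

namespace Pool.Agent.P.MP_f30597_gt.DV

open Finset SI CP
open scoped Classical

theorem p_SEG (hHULL : S_HULL) :
    S_SEG := by
  intro r K d N v hv i j hij hjN s t g h hst h1 h2 h3 h4 y hy
  have key : ∀ (s : Fin r) (g x y z : RAC K), ¬d.D s (g * x) → d.D s (g * y) → d.D s (g * z) →
      ∃ s', d.D s' (x⁻¹ * y) ∧ d.D s' (x⁻¹ * z) := by
    intro s g x y z a1 a2 a3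
    obtain ⟨s', -, hs'⟩ := hHULL r K d (x⁻¹ * y) Set.univ (fun _ _ _ _ _ => trivial) (g * x) s
      trivial a1 (by rwa [mul_assoc, mul_inv_cancel_left])
    exact ⟨s', hs' _ (by rwa [mul_assoc, mul_inv_cancel_left]),
      hs' _ (by rwa [mul_assoc, mul_inv_cancel_left])⟩
  have ha : ∀ a ≤ j, ¬d.D t (h * v a) := by
    intro a haj hc
    rcases haj.eq_or_lt with rfl | hlt
    · exact h3 hc
    · obtain ⟨s', b1, b2⟩ := key t h (v j) (v a) (v (j + 1)) h3 hc h4
      exact hv a j (j + 1) hlt (Nat.lt_succ_self j) hjN s' b1 b2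
  have hb : d.D s (g * v (j + 1)) := by
    by_contra hc
    obtain ⟨s', b1, b2⟩ := key s (gn K s * g) (v (i + 1)) (v i) (v (j + 1))
      (by rwa [mul_assoc, d.flip, not_not]) (by rwa [mul_assoc, d.flip])
      (by rwa [mul_assoc, d.flip])
    exact hv i (i + 1) (j + 1) (Nat.lt_succ_self i) (by omega) hjN s' b1 b2
  by_contra hc
  have e : ∀ x, h * g⁻¹ * (g * x) = h * x := fun x => by rw [mul_assoc, inv_mul_cancel_left]
  exact d.nest s t (h * g⁻¹) hst (g * v (j + 1)) (g * v (i + 1)) (g * y) (g * v i) hb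
    (by rwa [e]) h2 (by rw [e]; exact ha _ hij) hc (by rwa [e]) h1 (by rw [e]; exact ha _ hij.le)

end Pool.Agent.P.MP_f30597_gt.DV
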