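import Pool.Agent.P.MP_f30597_gt.DV.Iface
import Pool.Agent.P.MP_f30597_gt.CP.TSOFIC

/-! Step SOFW. -/

set_option autoImplicit false
set_option linter.unusedSectionVars false

namespace Pool.Agent.P.MP_f30597_gt.DV

open Finset SI CP
open scoped Classical

namespace SOFWx

variable {r : ℕ} {K : SimpleGraph (Fin r)}

theorem rf_self (s : Fin r) : rf K s (Pi.single s 1) = -Pi.single s 1 := by
  have e : ∑ t, bf K s t * (Pi.single s 1 : Fin r → ℤ) t = 1 := by
    rw [sum_eq_single s (fun t _ h => by simp [h]) (by simp)]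
    simp [bf]
  change (Pi.single s 1 : Fin r → ℤ) - (2 * ∑ t, bf K s t * (Pi.single s 1 : Fin r → ℤ) t) •
    (Pi.single s 1 : Fin r → ℤ) = _
  rw [e, mul_one, two_smul]
  abel

theorem inj (R : Rep K) : Function.Injective R.ρ := by
  have h : ∀ g, g = 1 ∨ ∃ s, R.ρ g (Pi.single s 1) ≤ 0 :=
    R.ind _ (Or.inl rfl) fun s g h _ => Or.inr ⟨s, by
      rw [map_mul, R.gen, Module.End.mul_apply, rf_self, map_neg]
      exact neg_nonpos.2 h⟩
  have h1 : ∀ g, R.ρ g = 1 → g = 1 := fun g e => (h g).resolve_right fun ⟨s, hs⟩ => by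
    have := hs s
    rw [e] at this
    simp at this
  intro a b e
  have := h1 (a * b⁻¹) (by rw [map_mul, e, ← map_mul, mul_inv_cancel, map_one])
  exact mul_inv_eq_one.1 this

end SOFWx

theorem p_SOFW (hREP : S_REP) :
    S_SOFW := by
  intro r K G
  obtain ⟨R⟩ := hREP r K
  let f : Module.End ℤ (Fin r → ℤ) →* En r :=
    ((Matrix.toLinAlgEquiv' : Matrix (Fin r) (Fin r) ℝ ≃ₐ[ℝ] _).toMulEquiv.toMonoidHom.comp
      (Int.castRingHom ℝ).mapMatrix.toMonoidHom).comp
      (LinearMap.toMatrixAlgEquiv' : Module.End ℤ (Fin r → ℤ) ≃ₐ[ℤ] _).toMulEquiv.toMonoidHom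
  have hf : Function.Injective f :=
    (Matrix.toLinAlgEquiv'.injective.comp
      (Matrix.map_injective (Int.cast_injective (α := ℝ)))).comp
      LinearMap.toMatrixAlgEquiv'.injective
  exact p_SOFIC r G ((f.comp R.ρ).comp G.subtype)
    ((hf.comp (SOFWx.inj R)).comp G.subtype_injective)

end Pool.Agent.P.MP_f30597_gt.DV
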