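import Pool.Agent.P.MP_f30597_gt.DV.Iface

/-! Step STAB. -/

set_option autoImplicit false
set_option linter.unusedSectionVars false

namespace Pool.Agent.P.MP_f30597_gt.DV

open Finset SI CP
open scoped Classical

namespace STABx

theorem conj_mem {r : ℕ} {K : SimpleGraph (Fin r)} {p : Finset (Fin r) → Prop}
    {G : Subgroup (RAC K)} {g : G} {y : Cos K p} (h : g • y = y) :
    y.2.out⁻¹ * g * y.2.out ∈ par K y.1.1 := by
  obtain ⟨T, q⟩ := y
  have h1 : (g : RAC K) • q = q := eq_of_heq (Sigma.mk.inj h).2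
  have h2 : ((q.out : RAC K) : RAC K ⧸ par K T.1) = ((g * q.out : RAC K) : RAC K ⧸ par K T.1) := by
    rw [← smul_eq_mul, ← MulAction.Quotient.smul_coe, QuotientGroup.out_eq', h1]
  rw [mul_assoc]
  exact QuotientGroup.eq.1 h2

end STABx

theorem p_STAB (hVAM : S_VAM) (hVAB : S_VAB) (hCUBE : S_CUBE) (hDESC : S_DESC) :
    S_STAB := by
  intro r K G
  refine ⟨fun y => ?_, fun hG g x h => ?_⟩
  · obtain ⟨A, hA, hc⟩ := hVAB r K y.1.1 y.1.2
    let φ : MulAction.stabilizer G y →* par K y.1.1 :=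
      { toFun := fun g => ⟨y.2.out⁻¹ * g.1 * y.2.out, STABx.conj_mem g.2⟩
        map_one' := Subtype.ext (by simp)
        map_mul' := fun g h => Subtype.ext (by simp [mul_assoc]) }
    have hφ : Function.Injective φ := fun g h e => Subtype.ext (Subtype.ext (by
      simpa [φ] using congrArg Subtype.val e))
    refine hVAM _ (A.comap φ) ⟨?_⟩ fun a ha b hb => hφ (by rw [map_mul, map_mul, hc _ ha _ hb])
    rw [Subgroup.index_comap]
    exact (Subgroup.instFiniteIndex_subgroupOf A φ.range).index_ne_zero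
  · obtain ⟨d⟩ := hDESC r K
    have h1 := (hCUBE r K d).2.2.2 _ x.1.2 _ (STABx.conj_mem h)
    refine Subtype.ext (hG g g.2 (isOfFinOrder_iff_pow_eq_one.2 ⟨2, two_pos, ?_⟩))
    have h2 : (g : RAC K) ^ 2 = x.2.out * (x.2.out⁻¹ * g * x.2.out * (x.2.out⁻¹ * g * x.2.out)) *
      x.2.out⁻¹ := by rw [sq]; group
    rw [h2, h1, mul_one, mul_inv_cancel]

end Pool.Agent.P.MP_f30597_gt.DV
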