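import Pool.Agent.P.MP_f30597_gt.DV.Iface

/-! Step SUBD. -/

set_option autoImplicit false
set_option linter.unusedSectionVars false

namespace Pool.Agent.P.MP_f30597_gt.DV

open Finset SI CP
open scoped Classical

namespace SUBDx

variable {r : ℕ}

theorem jump_cons (s : Fin r) (q : List (Fin r)) (σ τ : Finset (Fin r)) (u : Bar (Finset (Fin r))) :
    ev (jump (s :: q)) (cons σ (cons τ u)) =
      ((if s ∈ τ then 1 else 0) - if s ∈ σ then 1 else 0) * ev (jump q) (cons τ u) := by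
  induction u using ind' with
  | h0 => simp
  | h1 x y hx hy => simp only [map_add, hx, hy, mul_add]
  | h2 k l => simp only [map_zsmul, cons_sx', ev_sx, jump, zsmul_eq_mul]; ring

variable {sd : Bar (Fin r) →ₗ[ℤ] Bar (Finset (Fin r))} (h0 : sd (sx []) = sx [])
  (h1 : ∀ l, l ≠ [] → sd (sx l) = cons l.toFinset (sd (bdZ (sx l))))

include h0 h1

theorem bd_sd (u : Bar (Fin r)) : bdZ (sd u) = sd (bdZ u) := by
  refine all_eq (bdZ ∘ₗ sd) (sd ∘ₗ bdZ) (len_ind ?_ fun l h ih => ?_) u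
  · change bdZ (sd _) = sd (bdZ _)
    rw [h0, bd_nil, bd_nil, map_zero]
  · have h4 : bdZ (sd (bdZ (sx l))) = sd (bdZ (bdZ (sx l))) :=
      sub_eq_zero.1 (bd_sx_map (bdZ ∘ₗ sd - sd ∘ₗ bdZ) ⊥ fun i hi => sub_eq_zero.2 (ih i hi))
    change bdZ (sd _) = sd (bdZ _)
    rw [h1 l h, bd_cons, h4, bd_bd, map_zero, map_zero, sub_zero]

theorem sd_on (l : List (Fin r)) : sd (sx l) ∈ On fun I => I.length = l.length ∧
    (∀ σ ∈ I, ∀ s ∈ σ, s ∈ l) ∧ (I ≠ [] → ∃ t ∈ l, ∀ σ ∈ I, t ∈ σ) := by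
  induction l using len_ind with
  | h0 => rw [h0]; exact sx_on (by simp)
  | h1 l h ih =>
    rw [h1 l h]
    refine bd_sx_map (cons l.toFinset ∘ₗ sd) _ fun i hi => cons_on _ (fun I ⟨a, b, c⟩ => ?_) (ih i hi)
    rw [List.length_eraseIdx_of_lt hi] at a
    refine ⟨by rw [List.length_cons]; omega, List.forall_mem_cons.2 ⟨fun s => List.mem_toFinset.1,
      fun σ hσ s hs => List.mem_of_mem_eraseIdx (b σ hσ s hs)⟩, fun _ => ?_⟩
    by_cases e : I = []
    · exact ⟨l[i], List.getElem_mem _, by simp [e]⟩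
    · obtain ⟨t, ht, k⟩ := c e
      have := List.mem_of_mem_eraseIdx ht
      exact ⟨t, this, List.forall_mem_cons.2 ⟨List.mem_toFinset.2 this, k⟩⟩

omit h0 in
theorem top (s : Fin r) (q : List (Fin r)) (σ : Finset (Fin r)) {l : List (Fin r)} (h : l ≠ []) :
    ev (jump (s :: q)) (cons σ (sd (sx l))) =
      ((if s ∈ l then 1 else 0) - if s ∈ σ then 1 else 0) * ev (jump q) (sd (sx l)) := by
  simp only [h1 l h, jump_cons, List.mem_toFinset]

omit h0 in
theorem step (s : Fin r) (q : List (Fin r)) {l : List (Fin r)} (h : 2 ≤ l.length) :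
    ev (jump (s :: q)) (sd (sx l)) = ∑ i ∈ range l.length, (-1) ^ i *
      (((if s ∈ l.eraseIdx i then 1 else 0) - if s ∈ l then 1 else 0) *
        ev (jump q) (sd (sx (l.eraseIdx i)))) := by
  rw [h1 l (List.ne_nil_of_length_pos (by omega)), bd_sx, map_sum, map_sum, map_sum]
  refine sum_congr rfl fun i hi => ?_
  rw [map_zsmul, map_zsmul, map_zsmul, top h1 s q _ (List.ne_nil_of_length_pos (by
    rw [List.length_eraseIdx_of_lt (mem_range.1 hi)]; omega))]
  simp

omit h0 in
theorem sub (q : List (Fin r)) : ∀ l : List (Fin r), l.length = q.length + 1 →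
    ev (jump q) (sd (sx l)) ≠ 0 → q ⊆ l := by
  induction q with
  | nil => simp
  | cons s q ih =>
    intro l hl h
    rw [List.length_cons] at hl
    rw [step h1 s q (by omega)] at h
    obtain ⟨i, hi, e⟩ := exists_ne_zero_of_sum_ne_zero h
    have e' := right_ne_zero_of_mul e
    refine List.cons_subset.2 ⟨by_contra fun n => left_ne_zero_of_mul e' ?_, fun x hx =>
      List.mem_of_mem_eraseIdx (ih _ (by rw [List.length_eraseIdx_of_lt (mem_range.1 hi)]; omega)
        (right_ne_zero_of_mul e') hx)⟩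
    rw [if_neg n, if_neg (mt List.mem_of_mem_eraseIdx n), sub_zero]

theorem one (t : Fin r) (q : List (Fin r)) (h : (t :: q).Nodup) :
    ev (jump q) (sd (sx (t :: q))) = 1 := by
  induction q with
  | nil =>
    rw [h1 _ (by simp), bd_sx]
    simp [h0, cons_sx', ev_sx, jump]
  | cons s q ih =>
    have n : s ∉ t :: q := by
      simp only [List.nodup_cons, List.mem_cons, not_or] at h ⊢
      exact ⟨Ne.symm h.1.1, h.2.1⟩
    rw [step h1 s q (by simp), List.length_cons, List.length_cons, sum_range_succ', sum_range_succ']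
    simp [n, ih (h.sublist (by simp))]

end SUBDx

open SUBDx in
theorem p_SUBD :
    S_SUBD := by
  intro r K n a hn ha
  obtain ⟨sd, h0, h1⟩ := exists_rec (X := Fin r) (sx ([] : List (Finset (Fin r))))
    fun l y => cons l.toFinset y
  have hs : a ∈ On fun l => l.length = n ∧ l.Pairwise fun s t => s < t ∧ K.Adj s t := ha.simplex
  refine ⟨sd a, on_map sd _ (fun l hl => on_mono (fun I hI => ?_) (sd_on h0 h1 l)) hs,
    by rw [bd_sd h0 h1, ← bd_eq', ha.cycle, map_zero], ?_⟩
  · obtain ⟨x, y, z⟩ := hI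
    obtain ⟨t, -, k⟩ := z (List.ne_nil_of_length_pos (by omega))
    have : Std.Symm K.Adj := ⟨fun _ _ => K.adj_symm⟩
    exact ⟨⟨fun σ hσ s hs t ht e => (hl.2.imp And.right).forall (y σ hσ s hs) (y σ hσ t ht) e,
      t, k⟩, x.trans hl.1⟩
  obtain ⟨l, hl⟩ := Finsupp.support_nonempty_iff.2 ha.ne
  obtain ⟨e1, e2⟩ := ha.simplex l hl
  obtain ⟨t, q, rfl⟩ := List.exists_cons_of_length_pos (e1 ▸ hn)
  have nd : (t :: q).Nodup := e2.imp fun h => h.1.ne
  have key := on_eq (ev (jump (t :: q)) ∘ₗ cons ∅ ∘ₗ sd) (ev fun l => if l = t :: q then 1 else 0)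
    (fun l hl => ?_) hs
  · refine ⟨_, hl, fun e => Finsupp.mem_support_iff.1 hl ?_⟩
    have := key.symm.trans e
    simpa [ev, Finsupp.linearCombination_apply, Finsupp.sum, hl] using this
  change ev _ (cons ∅ (sd _)) = _
  rw [top h1 t q _ (List.ne_nil_of_length_pos (by omega)), ev_sx]
  by_cases e : l = t :: q
  · simp [e, one h0 h1 t q nd]
  rw [if_neg e]
  by_contra c
  have s1 : t ∈ l := by_contra fun n => left_ne_zero_of_mul c (by simp [n])
  have s2 := sub h1 q l (hl.1.trans e1.symm) (right_ne_zero_of_mul c)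
  have pm := (nd.subperm (List.cons_subset.2 ⟨s1, s2⟩)).perm_of_length_le (by omega)
  exact e (pm.symm.eq_of_pairwise (fun _ _ _ _ x y => absurd x.1 y.1.asymm) hl.2 e2)

end Pool.Agent.P.MP_f30597_gt.DV
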