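import Pool.Agent.P.MP_f30597_gt.DV.Iface

/-! Step TR. -/

set_option autoImplicit false
set_option linter.unusedSectionVars false

namespace Pool.Agent.P.MP_f30597_gt.DV

open Finset SI CP
open scoped Classical

namespace TRx

variable {W : Type} [Group W] (ε : W →* ℤˣ) (G : Subgroup W) [G.FiniteIndex]
  (X : Type) [MulAction W X]

theorem tf_ap (u : Bar X) : tf ε G X u =
    ∑ q ∈ @univ (W ⧸ G) (Fintype.ofFinite _), (ε q.out : ℤ) • mp (q.out⁻¹ • ·) u := by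
  simp only [tf, LinearMap.sum_apply, LinearMap.smul_apply]

theorem key (hε : ∀ g ∈ G, ε g = 1) (w : W) {k : ℕ} {u : Bar X} (hu : u ∈ Ln k) :
    tf ε G X (mp (w • ·) u) - (ε w : ℤ) • tf ε G X u ∈ Triv G X k := by
  let _ := Fintype.ofFinite (W ⧸ G)
  have e : tf ε G X u = ∑ q : W ⧸ G, (ε (w⁻¹ • q).out : ℤ) • mp ((w⁻¹ • q).out⁻¹ • ·) u := by
    rw [tf_ap]
    exact (Equiv.sum_comp (MulAction.toPerm w⁻¹)
      fun q : W ⧸ G => (ε q.out : ℤ) • mp (q.out⁻¹ • ·) u).symm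
  rw [e, tf_ap, smul_sum, ← sum_sub_distrib]
  refine sum_mem fun q _ => ?_
  have hg : (w⁻¹ * q.out)⁻¹ * (w⁻¹ • q).out ∈ G := by
    rw [← QuotientGroup.eq, QuotientGroup.out_eq']
    exact MulAction.Quotient.mk_smul_out G w⁻¹ q
  generalize (w⁻¹ • q).out = b at hg
  generalize q.out = a at hg
  have h1 : (ε a : ℤ) = (ε w : ℤ) * (ε b : ℤ) := by
    have h := hε _ hg
    rw [map_mul, map_inv, map_mul, map_inv, inv_mul_eq_one] at h
    rw [← Units.val_mul, ← h, mul_inv_cancel_left]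
  have h2 : mp (a⁻¹ • ·) (mp (w • ·) u) =
      mp ((⟨_, hg⟩ : G) • ·) (mp (b⁻¹ • ·) u) := by
    rw [mp_mp, mp_mp]
    refine congrArg (fun f : X → X => mp f u) (funext fun x => ?_)
    change a⁻¹ • w • x = ((w⁻¹ * a)⁻¹ * b) • b⁻¹ • x
    rw [smul_smul, smul_smul, mul_inv_cancel_right, mul_inv_rev, inv_inv]
  rw [smul_smul, ← h1, ← smul_sub, h2]
  exact Submodule.smul_mem _ _ (triv_mp _ (mp_ln _ hu))

end TRx

open TRx in
theorem p_TR :
    S_TR := by
  intro W _ ε G _ X _ hε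
  refine ⟨fun u => ?_, fun k u hu => ?_, fun k u hu => ?_, fun ω hω u => ?_,
    fun Y _ f hf u => ?_⟩
  · simp only [tf_ap, map_sum, map_zsmul, bd_mp]
  · rw [tf_ap]
    exact sum_mem fun q _ => Submodule.smul_mem _ _ (mp_ln _ hu)
  · refine on_map ((2 : ℤ) • tf ε G X) (Triv G X k) (fun l hl => ?_) hu
    obtain ⟨⟨w, hw, hl⟩, hk⟩ := hl
    have h := key ε G X hε w (sx_on (p := fun l => l.length = k) hk)
    rw [mp_sx, hl, hw] at h
    rw [LinearMap.smul_apply, two_smul]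
    simpa using h
  · let _ := Fintype.ofFinite (W ⧸ G)
    have e : ∀ a : W, ev ω ((ε a : ℤ) • mp (a⁻¹ • ·) u) = ev ω u := fun a => by
      refine all_eq (ev ω ∘ₗ ((ε a : ℤ) • mp (a⁻¹ • ·))) (ev ω) (fun l => ?_) u
      rw [LinearMap.comp_apply, LinearMap.smul_apply, map_zsmul, mp_sx, ev_sx, ev_sx, hω,
        zsmul_eq_mul, ← mul_assoc, ← Int.cast_mul, ← Units.val_mul, ← map_mul, mul_inv_cancel,
        map_one, Units.val_one, Int.cast_one, one_mul]
    rw [tf_ap, map_sum, sum_congr rfl fun q _ => e q.out, sum_const, nsmul_eq_mul, card_univ,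
      Subgroup.index, Nat.card_eq_fintype_card]
  · simp only [tf_ap, map_sum, map_zsmul, mp_mp, hf]

end Pool.Agent.P.MP_f30597_gt.DV
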