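import Pool.Agent.P.MP_f30597_gt.DV.Iface

/-! Step VAB. -/

set_option autoImplicit false
set_option linter.unusedSectionVars false

namespace Pool.Agent.P.MP_f30597_gt.DV

open Finset SI CP
open scoped Classical

namespace VABx

theorem main {H ι : Type} [Group H] [Finite ι] (g : ι → H)
    (hg : Subgroup.closure (Set.range g) = ⊤) (h2 : ∀ i, g i * g i = 1) (R : ι → ι → Prop)
    (hR : ∀ i j, R i j → g i * g j = g j * g i) (hs : ∀ i j, R i j → R j i)
    (hm : ∀ s t u, ¬R s t → ¬R s u → s = t ∨ s = u ∨ t = u) :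
    ∃ A : Subgroup H, A.FiniteIndex ∧ ∀ a ∈ A, ∀ b ∈ A, a * b = b * a := by
  have hi : ∀ i, (g i)⁻¹ = g i := fun i => inv_eq_of_mul_eq_one_right (h2 i)
  have ind : ∀ P : H → Prop, P 1 → (∀ s x, P x → P (g s * x)) → ∀ x, P x := fun P h1 h3 x => by
    have hx : x ∈ Subgroup.closure (Set.range g) := hg ▸ trivial
    induction hx using Subgroup.closure_induction_left with
    | one => exact h1
    | mul_left x hx y _ ih => obtain ⟨s, rfl⟩ := hx; exact h3 s y ih
    | inv_mul_cancel x hx y _ ih => obtain ⟨s, rfl⟩ := hx; rw [hi]; exact h3 s y ih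
  have inv : ∀ p q s, s = p ∨ s = q → g s * (g p * g q) = g q * g p * g s := by
    rintro p q s (rfl | rfl)
    · rw [← mul_assoc, h2, mul_assoc, h2, one_mul, mul_one]
    · rw [mul_assoc]
  have fix : ∀ p q s, ¬R p q → p ≠ q → ¬(s = p ∨ s = q) → g s * (g p * g q) = g p * g q * g s := by
    intro p q s h hpq h'
    have a1 : R p s := by_contra fun e => by have := hm p q s h e; tauto
    have a2 : R q s := by_contra fun e => by
      have := hm q p s (fun e' => h (hs _ _ e')) e; tauto
    rw [← mul_assoc, ← hR _ _ a1, mul_assoc, ← hR _ _ a2, mul_assoc]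
  have oth : ∀ p q s t, ¬R p q → ¬R s t → p ≠ q → s ≠ t → s = p ∨ s = q → t = p ∨ t = q := by
    rintro p q s t h h' a b (rfl | rfl)
    · have := hm s q t h h'; tauto
    · have := hm s p t (fun e' => h (hs _ _ e')) h'; tauto
  let S : Set H := {x | ∃ p q, ¬R p q ∧ x = g p * g q}
  have hS : ∀ x ∈ S, ∀ y ∈ S, x * y = y * x := by
    rintro _ ⟨p, q, h, rfl⟩ _ ⟨s, t, h', rfl⟩
    by_cases a : p = q
    · rw [a, h2, one_mul, mul_one]
    by_cases b : s = t
    · rw [b, h2, one_mul, mul_one]
    by_cases c : s = p ∨ s = q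
    · rw [mul_assoc (g s), inv p q t (oth p q s t h h' a b c), ← mul_assoc (g s),
        inv q p s c.symm, mul_assoc _ (g s)]
    · rw [mul_assoc (g s), fix p q t h a fun e => c (oth p q t s h (fun e' => h' (hs _ _ e')) a
        (Ne.symm b) e), ← mul_assoc (g s), fix p q s h a c, mul_assoc _ (g s)]
  have hN : (Subgroup.closure S).Normal := by
    refine ⟨fun a ha x => ?_⟩
    refine ind (fun x => x * a * x⁻¹ ∈ Subgroup.closure S) (by simpa using ha) (fun s x hx => ?_) x
    have e : g s * x * a * (g s * x)⁻¹ = MulAut.conj (g s) (x * a * x⁻¹) := by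
      simp [mul_assoc]
    rw [e]
    refine (Subgroup.closure_le ((Subgroup.closure S).comap (MulAut.conj (g s)).toMonoidHom)).2 ?_ hx
    rintro _ ⟨p, q, h, rfl⟩
    change g s * (g p * g q) * (g s)⁻¹ ∈ Subgroup.closure S
    by_cases a : p = q
    · rw [a, h2, mul_one, mul_inv_cancel]; exact one_mem _
    by_cases c : s = p ∨ s = q
    · rw [inv p q s c, mul_inv_cancel_right]
      exact Subgroup.subset_closure ⟨q, p, fun e => h (hs _ _ e), rfl⟩
    · rw [fix p q s h a c, mul_inv_cancel_right]
      exact Subgroup.subset_closure ⟨p, q, h, rfl⟩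
  refine ⟨Subgroup.closure S, ?_, fun a ha b hb => ?_⟩
  · let f := QuotientGroup.mk' (Subgroup.closure S)
    have c1 : ∀ i j, f (g i) * f (g j) = f (g j) * f (g i) := fun i j => by
      rw [← map_mul, ← map_mul]
      by_cases h : R i j
      · rw [hR i j h]
      · have e : ∀ p q, ¬R p q → f (g p * g q) = 1 := fun p q h =>
          (QuotientGroup.eq_one_iff _).2 (Subgroup.subset_closure ⟨p, q, h, rfl⟩)
        rw [e i j h, e j i fun e => h (hs _ _ e)]
    have c2 : ∀ i y, f (g i) * f y = f y * f (g i) := fun i => ind _ (by simp) fun s x hx => by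
      rw [map_mul, ← mul_assoc, c1, mul_assoc, hx, mul_assoc]
    have c3 : ∀ x y, f x * f y = f y * f x := fun x y => ind (fun x => f x * f y = f y * f x)
      (by simp) (fun s x hx => by rw [map_mul, mul_assoc, hx, ← mul_assoc, c2, mul_assoc]) x
    have c4 : ∀ x, f x * f x = 1 := ind _ (by simp) fun s x hx => by
      rw [map_mul, mul_assoc, ← mul_assoc (f x), ← c2, mul_assoc, hx, mul_one, ← map_mul, h2, map_one]
    have sj := QuotientGroup.mk'_surjective (Subgroup.closure S)
    let _ : CommGroup (H ⧸ Subgroup.closure S) :=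
      { (inferInstance : Group (H ⧸ Subgroup.closure S)) with
        mul_comm := fun x y => by
          obtain ⟨x, rfl⟩ := sj x
          obtain ⟨y, rfl⟩ := sj y
          exact c3 x y }
    have : Group.FG H := Group.fg_iff.2 ⟨_, hg, Set.finite_range g⟩
    have : Group.FG (H ⧸ Subgroup.closure S) := Group.fg_of_surjective sj
    have : Finite (H ⧸ Subgroup.closure S) := CommGroup.finite_of_fg_isMulTorsion _ fun x => by
      obtain ⟨x, rfl⟩ := sj x
      exact isOfFinOrder_iff_pow_eq_one.2 ⟨2, two_pos, by rw [sq]; exact c4 x⟩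
    exact Subgroup.finiteIndex_of_finite_quotient
  · induction ha, hb using Subgroup.closure_induction₂ with
    | mem x y hx hy => exact hS x hx y hy
    | one_left => simp
    | one_right => simp
    | mul_left x y z _ _ _ h1 h2 => exact Commute.mul_left h1 h2
    | mul_right x y z _ _ _ h1 h2 => exact Commute.mul_right h1 h2
    | inv_left x y _ _ h => exact Commute.inv_left h
    | inv_right x y _ _ h => exact Commute.inv_right h

end VABx

theorem p_VAB :
    S_VAB := by
  intro r K T hT
  refine VABx.main (ι := T) (fun s => ⟨gn K s, Subgroup.subset_closure ⟨s, s.2, rfl⟩⟩) ?_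
    (fun s => Subtype.ext (gn_sq K s)) (fun s t => K.Adj s t)
    (fun s t h => Subtype.ext (gn_comm h)) (fun s t h => h.symm) fun s t u h h' => ?_
  · refine Eq.trans (congrArg _ ?_) Subgroup.closure_closure_coe_preimage
    ext x
    exact ⟨by rintro ⟨s, rfl⟩; exact ⟨s, s.2, rfl⟩, fun ⟨s, hs, e⟩ => ⟨⟨s, hs⟩, Subtype.ext e⟩⟩
  · simpa only [Subtype.ext_iff] using hT s s.2 t t.2 u u.2 h h'

end Pool.Agent.P.MP_f30597_gt.DV
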