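import Pool.Agent.P.MP_f30597_gt.DV.Iface
import Pool.Agent.P.MP_f30597_gt.CP.TAMEN

/-! Step VAM. -/

set_option autoImplicit false
set_option linter.unusedSectionVars false

namespace Pool.Agent.P.MP_f30597_gt.DV

open Finset SI CP
open scoped Classical

namespace VAMx

variable {H : Type} [Group H] {A : Subgroup H}

/-- The cocycle of the action on the cosets. -/
noncomputable def co (a : H) (q : H ⧸ A) : A :=
  ⟨(a • q).out⁻¹ * (a * q.out), QuotientGroup.eq.1 (by
    rw [QuotientGroup.out_eq', ← smul_eq_mul, ← MulAction.Quotient.smul_mk, QuotientGroup.out_eq'])⟩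

/-- Coordinates. -/
noncomputable def ph (z : (H ⧸ A) × A) : H := z.1.out * z.2

theorem mk_ph (z : (H ⧸ A) × A) : QuotientGroup.mk (s := A) (ph z) = z.1 := by
  rw [ph, QuotientGroup.mk_mul_of_mem _ z.2.2, QuotientGroup.out_eq']

theorem ph_inj : Function.Injective (ph (A := A)) := by
  rintro ⟨q, x⟩ ⟨q', x'⟩ e
  obtain rfl : q = q' := by simpa only [mk_ph] using congrArg (QuotientGroup.mk (s := A)) e
  rw [Subtype.ext (mul_left_cancel e : (x : H) = x')]

theorem mul_ph (a : H) (q : H ⧸ A) (x : A) : a * ph (q, x) = ph (a • q, co a q * x) := by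
  simp [ph, co, mul_assoc]

end VAMx

open VAMx in
theorem p_VAM :
    S_VAM := by
  intro H _ A hA hc E ε hε
  let _ : Fintype (H ⧸ A) := Fintype.ofFinite _
  obtain ⟨F, hF, h⟩ := p_AMEN A (fun a b => Subtype.ext (hc a a.2 b b.2))
    ((E ×ˢ (univ : Finset (H ⧸ A))).image fun z => co z.1 z.2) ε hε
  refine ⟨(univ ×ˢ F).image ph, (univ_nonempty.product hF).image _, fun a ha => ?_⟩
  have h1 : ((fun x => a * x) '' (((univ ×ˢ F).image ph : Finset H) : Set H)) \
      (((univ ×ˢ F).image ph : Finset H) : Set H) ⊆ ((univ : Finset (H ⧸ A)).biUnion fun q =>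
        (F.image (fun x => co a q * x) \ F).image fun x => ph (a • q, x) : Finset H) := by
    rintro _ ⟨⟨y, hy, rfl⟩, h2⟩
    obtain ⟨⟨q, x⟩, hz, rfl⟩ := mem_image.1 (mem_coe.1 hy)
    simp only [mul_ph] at h2 ⊢
    refine mem_coe.2 (mem_biUnion.2 ⟨q, mem_univ _, mem_image_of_mem _ (mem_sdiff.2
      ⟨mem_image_of_mem _ (mem_product.1 hz).2, fun h3 => h2 ?_⟩)⟩)
    exact mem_coe.2 (mem_image_of_mem _ (mem_product.2 ⟨mem_univ _, h3⟩))
  have h2 := Set.ncard_le_ncard h1 (finite_toSet _)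
  rw [Set.ncard_coe_finset] at h2
  refine (Nat.cast_le.2 (h2.trans card_biUnion_le)).trans ?_
  rw [card_image_of_injective _ ph_inj, card_product, Nat.cast_sum, Nat.cast_mul, mul_left_comm,
    ← nsmul_eq_mul]
  refine sum_le_card_nsmul _ _ _ fun q _ => (Nat.cast_le.2 card_image_le).trans ?_
  have := h (co a q) (mem_image.2 ⟨(a, q), mem_product.2 ⟨ha, mem_univ _⟩, rfl⟩)
  rwa [← coe_image, ← coe_sdiff, Set.ncard_coe_finset] at this

end Pool.Agent.P.MP_f30597_gt.DV
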