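import Pool.Agent.P.MP_f30597_gt.DV.TREP
import Pool.Agent.P.MP_f30597_gt.DV.TNEST
import Pool.Agent.P.MP_f30597_gt.DV.TDESC
import Pool.Agent.P.MP_f30597_gt.DV.TSOFW
import Pool.Agent.P.MP_f30597_gt.DV.THULL
import Pool.Agent.P.MP_f30597_gt.DV.TCUBE
import Pool.Agent.P.MP_f30597_gt.DV.TFINH
import Pool.Agent.P.MP_f30597_gt.DV.TPAIR
import Pool.Agent.P.MP_f30597_gt.DV.TSEG
import Pool.Agent.P.MP_f30597_gt.DV.THOM
import Pool.Agent.P.MP_f30597_gt.DV.TREC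
import Pool.Agent.P.MP_f30597_gt.DV.TCPA
import Pool.Agent.P.MP_f30597_gt.DV.TCPB
import Pool.Agent.P.MP_f30597_gt.DV.TJUMP
import Pool.Agent.P.MP_f30597_gt.DV.TSUBD
import Pool.Agent.P.MP_f30597_gt.DV.TLIN
import Pool.Agent.P.MP_f30597_gt.DV.TACT
import Pool.Agent.P.MP_f30597_gt.DV.TCONT
import Pool.Agent.P.MP_f30597_gt.DV.TPHI
import Pool.Agent.P.MP_f30597_gt.DV.TEXP
import Pool.Agent.P.MP_f30597_gt.DV.TACY
import Pool.Agent.P.MP_f30597_gt.DV.TXI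
import Pool.Agent.P.MP_f30597_gt.DV.TTR
import Pool.Agent.P.MP_f30597_gt.DV.TFREE
import Pool.Agent.P.MP_f30597_gt.DV.TGEN
import Pool.Agent.P.MP_f30597_gt.DV.TVAM
import Pool.Agent.P.MP_f30597_gt.DV.TVAB
import Pool.Agent.P.MP_f30597_gt.DV.TSTAB
import Pool.Agent.P.MP_f30597_gt.DV.TKQ
import Pool.Agent.P.MP_f30597_gt.DV.TQA
import Pool.Agent.P.MP_f30597_gt.DV.TQB
import Pool.Agent.P.MP_f30597_gt.DV.TQC
import Pool.Agent.P.MP_f30597_gt.DV.TQD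
import Pool.Agent.P.MP_f30597_gt.DV.TE1
import Pool.Agent.P.MP_f30597_gt.DV.TE2
import Pool.Agent.P.MP_f30597_gt.DV.TE3
import Pool.Agent.P.MP_f30597_gt.DV.TE4
import Pool.Agent.P.MP_f30597_gt.DV.TE5
import Pool.Agent.P.MP_f30597_gt.DV.TE6
import Pool.Agent.P.MP_f30597_gt.DV.TE7

/-! All steps together. -/

namespace Pool.Agent.P.MP_f30597_gt.DV

open SI CP MeasureTheory

theorem desc : S_DESC := p_DESC p_REP p_NEST

theorem stab : S_STAB := p_STAB p_VAM p_VAB p_CUBE desc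

theorem kq : S_KQ :=
  p_KQ desc (p_CPA p_CUBE (p_FINH p_HULL))
    (p_CPB p_CUBE (p_REC p_PAIR (p_HOM p_HULL (p_SEG p_HULL)))) p_JUMP p_SUBD p_LIN
    (p_XI p_ACT p_PHI (p_ACY p_CONT p_PHI p_EXP)) p_TR p_FREE p_GEN stab

theorem betti_zero {G ι Y : Type} [Group G] [Fintype ι] [DecidableEq ι] [MulAction G Y]
    (S : Sof G) {deg : ι → ℕ} {c : Matrix ι ι (ZG G)} {w w' : ι → ℤ} {n : ℕ} {y : Y}
    (R : IsResolution deg c w) (hn : ∀ a, deg a ≤ n) (hn0 : 0 < n)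
    (R' : IsResolution (fun a => n - deg a) (cst c) w')
    (hY : ∀ s : Y, IsAmenable (MulAction.stabilizer G s)) (hy : KillsQ G y n)
    {H : ℕ → Type} [∀ p, NormedAddCommGroup (H p)] [∀ p, InnerProductSpace ℂ (H p)]
    [∀ p, CompleteSpace (H p)] {b : ∀ p, HilbertBasis (G × {a // deg a = p}) ℂ (H p)}
    {D : ∀ p q, H p →L[ℂ] H q}
    (hD : ∀ p q, IsRightMul (b p) (b q) (c.submatrix Subtype.val Subtype.val) (D p q)) (p : ℕ) :
    l2Betti b D p = 0 := by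
  obtain ⟨μ, B, hμ⟩ := asm_spec hD R.graded
  refine (hμ p).1.trans (le_antisymm (le_of_forall_pos_le_add fun δ hδ => ?_) measureReal_nonneg)
  obtain ⟨S', m, hm, h⟩ := p_QC (p_QB p_QA) G ι Y S deg c w w' n y R hn hn0 R' hY hy δ hδ
  rw [zero_add]
  exact p_QD G ι S' deg c m δ _ _ p R.graded R.sq hm h (hμ p).2.1

theorem torsion_zero {G ι : Type} [Group G] [Fintype ι] [DecidableEq ι]
    (S : Sof G) {deg : ι → ℕ} {c : Matrix ι ι (ZG G)} {w w' : ι → ℤ} {n : ℕ}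
    (R : IsResolution deg c w) (hn : ∀ a, deg a ≤ n) (he : Even n)
    (R' : IsResolution (fun a => n - deg a) (cst c) w')
    {H : ℕ → Type} [∀ p, NormedAddCommGroup (H p)] [∀ p, InnerProductSpace ℂ (H p)]
    [∀ p, CompleteSpace (H p)] {b : ∀ p, HilbertBasis (G × {a // deg a = p}) ℂ (H p)}
    {D : ∀ p q, H p →L[ℂ] H q}
    (hD : ∀ p q, IsRightMul (b p) (b q) (c.submatrix Subtype.val Subtype.val) (D p q))
    (hb : ∀ p, l2Betti b D p = 0) : IsL2Torsion b D n 0 := by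
  obtain ⟨μ, B, hμ⟩ := asm_spec hD R.graded
  obtain ⟨h1, h2⟩ := p_E7 (p_E4 (p_E3 p_E1 p_E2)) p_E5 p_E6 G ι S deg c w w' n μ B he R hn R'
    fun p => (hμ p).2.1
  exact ⟨μ, fun p => (hμ p).2.2 (h1 p),
    (mul_eq_zero_of_right _ (h2 fun p => (hμ p).1.symm.trans (hb p))).symm⟩

end Pool.Agent.P.MP_f30597_gt.DV
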