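import Pool.Agent.P.MP_f30597_gt.DV.IfaceB
import Pool.Agent.P.MP_f30597_gt.FIN2
import Pool.Agent.P.MP_f30597_gt.CORE
import Pool.Agent.P.MP_f30597_gt.DP

/-! Step QD. -/

set_option autoImplicit false
set_option linter.unusedSectionVars false

namespace Pool.Agent.P.MP_f30597_gt.DV

open Finset Matrix Filter MeasureTheory SI SI.Par

namespace QDx

theorem ker_le {X : Type} [Fintype X] [DecidableEq X] (d h A : Matrix X X ℝ) {m : ℝ}
    (hm : m ≠ 0) : (fc z0 (d * dᴴ + dᴴ * d)).trace ≤
      A.rank + (A - m • 1 - (h * d + d * h)).rank := by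
  have ha := isHermitian_conjTranspose_mul_self d
  have hb := isHermitian_mul_conjTranspose_self d
  have hD := hb.add ha
  obtain ⟨P, hP⟩ : ∃ P, P = fc z0 (d * dᴴ + dᴴ * d) := ⟨_, rfl⟩
  have Ph : Pᴴ = P := hP ▸ fc_conjT _ _
  have PP : P * P = P := by
    rw [hP, fc_mul hD]
    refine congrArg (fun g => fc g _) ?_
    funext t
    by_cases h : t = 0 <;> simp [z0, h]
  have e1 : (dᴴ * P)ᴴ * (dᴴ * P) + (d * P)ᴴ * (d * P) = 0 := by
    have : P * (d * dᴴ + dᴴ * d) = 0 := by
      rw [hP, fc_mul_self hD, ← fc_zero hD]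
      refine congrArg (fun g => fc g _) ?_
      funext t
      by_cases h : t = 0 <;> simp [z0, h]
    simpa only [conjTranspose_mul, conjTranspose_conjTranspose, Ph, Matrix.mul_add,
      Matrix.add_mul, Matrix.mul_assoc, Matrix.zero_mul] using congrArg (· * P) this
  have e2 := congrArg trace e1
  rw [trace_add, trace_zero] at e2
  have e3 := (posSemidef_conjTranspose_mul_self (dᴴ * P)).trace_nonneg
  have e4 := (posSemidef_conjTranspose_mul_self (d * P)).trace_nonneg
  have e5 : dᴴ * P = 0 := trace_conjTranspose_mul_self_eq_zero_iff.1 (by linarith)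
  have e6 : d * P = 0 := trace_conjTranspose_mul_self_eq_zero_iff.1 (by linarith)
  have e7 : P * d = 0 := by
    simpa only [conjTranspose_mul, conjTranspose_conjTranspose, Ph, conjTranspose_zero] using
      congrArg conjTranspose e5
  have e8 : P * (m • 1) = P * A * P - P * ((A - m • 1 - (h * d + d * h)) * P) := by
    simp only [Matrix.sub_mul, Matrix.mul_sub, Matrix.add_mul, Matrix.mul_add, Matrix.mul_assoc,
      e6, ← Matrix.mul_assoc P d, e7, Matrix.one_mul, Matrix.smul_mul, Matrix.mul_smul, PP]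
    simp
  have e8' : P = P * (m • 1) * (m⁻¹ • (1 : Matrix X X ℝ)) := by
    simp [smul_smul, hm]
  have e9 : P.rank ≤ A.rank + (A - m • 1 - (h * d + d * h)).rank := by
    conv_lhs => rw [e8']
    refine (rank_mul_le_left _ _).trans ?_
    rw [e8]
    exact (rk_sub _ _).trans (Nat.add_le_add
      ((rank_mul_le_left _ _).trans (rank_mul_le_right _ _))
      ((rank_mul_le_right _ _).trans (rank_mul_le_left _ _)))
  have e10 : (P.rank : ℝ) = P.trace := by
    rw [hP]
    exact fc_rank hD (· = 0)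
  rw [← hP, ← e10]
  exact_mod_cast e9

end QDx

open scoped Matrix.Norms.L2Operator Topology in
theorem p_QD :
    S_QD := by
  intro G ι _ _ _ S deg c m δ μ K p hc h2 hm ⟨A, h, N3, ev⟩ hμ
  have := S.ne
  obtain ⟨d, M', hd, Nd⟩ := t_DP G ι S deg c hc h2
  obtain ⟨X, hX⟩ : ∃ X : S.Mat ι ι, X = fun i => d i * (d i)ᴴ + (d i)ᴴ * d i := ⟨_, rfl⟩
  have XP : ∀ i, (X i).PosSemidef := fun i => hX ▸
    (posSemidef_self_mul_conjTranspose _).add (posSemidef_conjTranspose_mul_self _)
  have Xb : ∀ i, ‖X i‖ ≤ M' * M' + M' * M' := fun i => by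
    have e := (hd i).2.2.1
    have e' := e
    rw [← l2_opNorm_conjTranspose] at e'
    exact hX ▸ (norm_add_le _ _).trans (add_le_add (nrm_mul e e') (nrm_mul e' e))
  have Nd' : S.Neg fun i => (d i)ᴴ - mdl (S.act i) (cst c) :=
    (Nd.conjT.congr fun i => conjTranspose_sub _ _).trans (Sof.neg_mdl_cst c)
  have NX : S.Neg fun i => X i - mdl (S.act i) (c * cst c + cst c * c) :=
    (((Nd.mul_congr Nd').trans (Sof.neg_mdl_mul _ _)).add
      ((Nd'.mul_congr Nd).trans (Sof.neg_mdl_mul _ _))).congr fun i => by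
      simp only [hX, mdl_add]
      abel
  have N0 : ∀ i, (0 : ℝ) < S.N i := fun i => by exact_mod_cast S.pos i
  have w0 : ∀ a, 0 ≤ ind deg p a := fun a => by unfold ind; split_ifs <;> simp
  have w1 : ∀ a, ind deg p a ≤ 1 := fun a => by unfold ind; split_ifs <;> simp
  have lim := t_LIM S.Λ S.l (fun i => ι × Fin (S.N i)) (fun i => S.N i) (Fintype.card ι)
    K _ X (fun i => diagonal fun q => ind deg p q.1) μ _ N0 (fun i => by simp)
    (fun i => (XP i).1) Xb
    (fun i => nrm_diag zero_le_one fun q => by rw [abs_of_nonneg (w0 _)]; exact w1 _) hμ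
    (t_MOM G ι S _ X _ (ind deg p) Xb NX)
  have r0 : S.Neg fun i => A i - (m : ℝ) • 1 - (h i * d i + d i * h i) :=
    ((N3.sub (Nd.mul_left h)).sub (Nd.mul_right h)).congr fun i => by
      rw [Matrix.mul_sub, Matrix.sub_mul]
      abel
  obtain ⟨-, m2⟩ := t_MEAS S.Λ S.l (fun i g =>
    (diagonal (fun q : ι × Fin (S.N i) => ind deg p q.1) * fc g (X i)).trace / S.N i) μ _ _
    hμ (fun i g h => by rw [← fc_add (XP i).1, Matrix.mul_add, trace_add, add_div])
    (fun i r g => by
      rw [← fc_smul (XP i).1, Matrix.mul_smul, trace_smul, smul_eq_mul, mul_div_assoc])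
    (fun i g h hgh => div_le_div_of_nonneg_right (by
      rw [← sub_nonneg, ← trace_sub, ← Matrix.mul_sub, fc_sub (XP i).1]
      exact fin_mono (fun q => w0 _) (fc_posSemidef (XP i).1 fun j =>
        sub_nonneg.2 (hgh _ ((XP i).eigenvalues_nonneg j)))) (N0 i).le)
    (fun i => div_nonneg (by
      have e0 : Deg (fun q : ι × Fin (S.N i) => deg q.1) (fun q => deg q.1) 0 (X i) := hX ▸
        (((hd i).2.2.2.mul (hd i).2.2.2.conjT).of_eq (by norm_num)).add
          (((hd i).2.2.2.conjT.mul (hd i).2.2.2).of_eq (by norm_num))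
      obtain ⟨e1, e2⟩ := core_fc_proj (e := diagonal fun q : ι × Fin (S.N i) => ind deg p q.1)
        (XP i).1 (isHermitian_diagonal _) (by
          rw [diagonal_mul_diagonal]
          refine congrArg diagonal ?_
          funext q
          unfold ind
          split_ifs <;> simp)
        (e0.comm (fun k => if k = p then 1 else 0) (fun k => if k = p then 1 else 0)
          fun a b e => by rw [show a = b by omega]) Real.log
      have e3 := int_log e1 ((isInt_diag _).mul (hX ▸ ((hd i).2.1.mul (hd i).2.1.conjT).add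
        ((hd i).2.1.conjT.mul (hd i).2.1)))
      rwa [e2, Real.log_zero, zero_smul, add_zero] at e3) (N0 i).le) lim
  refine le_of_forall_pos_le_add fun ε hε => m2 _ ?_
  filter_upwards [ev, Tendsto.eventually r0 (gt_mem_nhds hε)] with i e1 e2
  rw [div_lt_iff₀ (N0 i)] at e2
  rw [div_le_iff₀ (N0 i)]
  have e3 := fin_mono (w := fun q : ι × Fin (S.N i) => 1 - ind deg p q.1)
    (fun q => sub_nonneg.2 (w1 _)) (fc_posSemidef (f := z0) (XP i).1 fun j => by
      unfold z0; split_ifs <;> simp)
  rw [← diagonal_sub, diagonal_one, Matrix.sub_mul, Matrix.one_mul, trace_sub] at e3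
  have e4 := QDx.ker_le (d i) (h i) (A i) (m := m) (by exact_mod_cast hm)
  rw [show d i * (d i)ᴴ + (d i)ᴴ * d i = X i by rw [hX]] at e4
  linarith

end Pool.Agent.P.MP_f30597_gt.DV
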