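import Pool.Agent.P.MP_f30597_gt.DV.Iface
import Pool.Agent.P.MP_61d55c_co.Ramsey

/-! Step REC. -/

set_option autoImplicit false
set_option linter.unusedSectionVars false

namespace Pool.Agent.P.MP_f30597_gt.DV

open Finset SI CP
open scoped Classical

theorem p_REC (hPAIR : S_PAIR) (hHOM : S_HOM) :
    S_REC := by
  intro r K d m
  obtain ⟨N, hN, hH⟩ := hHOM r K d
  obtain ⟨R, hR⟩ := Pool.Agent.P.MP_61d55c_co.ramsey_fin
    (C := (Fin m → Finset (Fin r)) × Set (Fin r) × Set (Fin r) × Set (Fin r)) 2 (N + 2)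
  refine ⟨R, fun l hl A hA => ?_⟩
  subst hl
  by_contra hc
  rw [not_le] at hc
  let e : ℕ → RAC K := fun i => if h : i < A.card then (A.equivFin.symm ⟨i, h⟩).1 else 1
  have eA : ∀ i < R, e i ∈ A := fun i hi => by
    simp only [e, dif_pos (hi.trans hc)]; exact Subtype.prop _
  have eI : ∀ i < R, ∀ j < R, e i = e j → i = j := fun i hi j hj h => by
    simp only [e, dif_pos (hi.trans hc), dif_pos (hj.trans hc)] at h
    exact congrArg Fin.val (A.equivFin.symm.injective (Subtype.ext h))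
  obtain ⟨h, h1, h2, h3⟩ := hR fun t => (fun a => d.ds ((e (t 0))⁻¹ * l.get a),
    {s | d.D s ((e (t 0))⁻¹ * e (t 1))}, {s | d.D s ((e (t 1))⁻¹ * e (t 0))},
    d.Us ((e (t 0))⁻¹ * e (t 1)))
  let q : ℕ → Fin (N + 2) := fun i => ⟨min i (N + 1), by omega⟩
  let v : ℕ → RAC K := fun i => e (h (q i))
  have sm : ∀ i j, i < j → j ≤ N + 1 → StrictMono ![q i, q j] := fun i j a b => by
    rw [Fin.strictMono_iff_lt_succ]
    intro x
    obtain rfl : x = 0 := Subsingleton.elim _ _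
    change min i (N + 1) < min j (N + 1)
    omega
  have key : ∀ i j, i < j → j ≤ N + 1 → d.lv l (v i) = d.lv l (v 0) ∧
      {s | d.D s ((v i)⁻¹ * v j)} = {s | d.D s ((v 0)⁻¹ * v 1)} ∧
      {s | d.D s ((v j)⁻¹ * v i)} = {s | d.D s ((v 1)⁻¹ * v 0)} ∧
      d.Us ((v i)⁻¹ * v j) = d.Us ((v 0)⁻¹ * v 1) := fun i j a b => by
    have := h3 _ _ (sm i j a b) (sm 0 1 one_pos (by omega))
    simp only [Prod.mk.injEq] at this
    refine ⟨List.map_congr_left fun x hx => ?_, this.2⟩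
    obtain ⟨a, rfl⟩ := List.mem_iff_get.1 hx
    exact congrFun this.1 a
  have hn := hA _ (eA _ (h2 (q 0)))
  obtain ⟨p1, p2⟩ := hPAIR r K d l (v 0) (v 1) (key 1 2 one_lt_two (by omega)).1.symm
    fun a => hn (.inl a)
  refine hn (.inr (hH v _ _ _ l (fun a => ?_) (Set.disjoint_left.2 p1)
    (fun i j a b => (key i j a (by omega)).2) (fun i hi => (key i (N + 1) (by omega) le_rfl).1) p2))
  have := congrArg Fin.val (h1.injective (eI _ (h2 _) _ (h2 _) a))
  change min 0 (N + 1) = min 1 (N + 1) at this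
  omega

end Pool.Agent.P.MP_f30597_gt.DV
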