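import Pool.Agent.P.MP_f30597_gt.DV.Iface

/-! Step REP. -/

set_option autoImplicit false
set_option linter.unusedSectionVars false

namespace Pool.Agent.P.MP_f30597_gt.DV

open Finset SI CP
open scoped Classical

namespace REPx

variable {r : ℕ} (K : SimpleGraph (Fin r))

theorem rf_single (s t : Fin r) :
    rf K s (Pi.single t 1) = Pi.single t 1 - (2 * bf K s t) • Pi.single s 1 := by
  have : ∑ u, bf K s u * (Pi.single t 1 : Fin r → ℤ) u = bf K s t := by
    rw [sum_eq_single t (fun b _ hb => by simp [hb]) (by simp)]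
    simp
  rw [← this]; rfl

theorem bf_self (s : Fin r) : bf K s s = 1 := by simp [bf]

variable {K} in
theorem bf_adj {s t : Fin r} (h : K.Adj s t) : bf K s t = 0 := by simp [bf, h, h.ne]

variable {K} in
theorem bf_non {s t : Fin r} (h1 : s ≠ t) (h : ¬K.Adj s t) : bf K s t = -1 := by
  simp [bf, h, h1]

theorem ext1 {f g : Module.End ℤ (Fin r → ℤ)}
    (h : ∀ t, f (Pi.single t 1) = g (Pi.single t 1)) : f = g :=
  (Pi.basisFun ℤ (Fin r)).ext fun t => by simpa using h t

theorem rf_sq (s : Fin r) : rf K s * rf K s = 1 := ext1 fun t => by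
  rw [Module.End.mul_apply, rf_single, map_sub, map_smul, rf_single, rf_single, bf_self]
  simp only [Module.End.one_apply]
  module

variable {K} in
theorem rf_comm {s t : Fin r} (h : K.Adj s t) : rf K s * rf K t = rf K t * rf K s :=
  ext1 fun u => by
    simp only [Module.End.mul_apply, rf_single, map_sub, map_smul, bf_adj h, bf_adj h.symm]
    module

/-- the reflection as a unit -/
noncomputable def un (s : Fin r) : (Module.End ℤ (Fin r → ℤ))ˣ :=
  ⟨rf K s, rf K s, rf_sq K s, rf_sq K s⟩

theorem un_rel : ∀ x ∈ rels K, FreeGroup.lift (un K) x = 1 := by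
  rintro _ (⟨s, rfl⟩ | ⟨s, t, h, rfl⟩)
  · rw [map_pow, FreeGroup.lift_apply_of, sq]
    exact Units.ext (rf_sq K s)
  · rw [map_pow, map_mul, FreeGroup.lift_apply_of, FreeGroup.lift_apply_of, sq]
    refine Units.ext ?_
    change rf K s * rf K t * (rf K s * rf K t) = 1
    rw [mul_assoc, ← mul_assoc (rf K t), ← rf_comm h, mul_assoc, rf_sq, mul_one, rf_sq]

/-- the representation -/
noncomputable def rho : RAC K →* Module.End ℤ (Fin r → ℤ) :=
  (Units.coeHom _).comp (PresentedGroup.toGroup (un_rel K))

theorem rho_gn (s : Fin r) : rho K (gn K s) = rf K s := by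
  rw [rho, MonoidHom.comp_apply, PresentedGroup.toGroup.of]; rfl

/-- the roots -/
noncomputable def v (g : RAC K) (t : Fin r) : Fin r → ℤ := rho K g (Pi.single t 1)

theorem v_mul (g : RAC K) (s t : Fin r) :
    v K (g * gn K s) t = v K g t - (2 * bf K s t) • v K g s := by
  rw [v, map_mul, rho_gn, Module.End.mul_apply, rf_single, map_sub, map_smul]; rfl

theorem v_self (g : RAC K) (s : Fin r) : v K (g * gn K s) s = -v K g s := by
  rw [v_mul, bf_self]; module

variable {K} in
theorem v_adj (g : RAC K) {s t : Fin r} (h : K.Adj s t) : v K (g * gn K s) t = v K g t := by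
  rw [v_mul, bf_adj h]; module

variable {K} in
theorem v_non (g : RAC K) {s t : Fin r} (h1 : s ≠ t) (h : ¬K.Adj s t) :
    v K (g * gn K s) t = v K g s + v K g t + v K g s := by
  rw [v_mul, bf_non h1 h]; module

theorem v_ne (g : RAC K) (s : Fin r) : v K g s ≠ 0 := fun h => by
  have h1 : rho K g⁻¹ (v K g s) = Pi.single s 1 := by
    rw [v, ← Module.End.mul_apply, ← map_mul, inv_mul_cancel, map_one]; rfl
  rw [h, map_zero] at h1
  simpa using congrFun h1 s

theorem v_one (s : Fin r) : 0 ≤ v K 1 s := by
  rw [v, map_one]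
  exact Pi.single_nonneg.2 zero_le_one

/-- the elements reached by up steps -/
inductive Up : RAC K → Prop
  | one : Up 1
  | step (g : RAC K) (s : Fin r) : 0 ≤ v K g s → Up g → Up (g * gn K s)

theorem inv {g : RAC K} (h : Up K g) : (∀ t, 0 ≤ v K g t ∨ v K g t ≤ 0) ∧
    ∀ s t, s ≠ t → ¬K.Adj s t → 0 ≤ v K g s + v K g t := by
  induction h with
  | one => exact ⟨fun t => Or.inl (v_one K t), fun s t _ _ => add_nonneg (v_one K s) (v_one K t)⟩
  | step g q hq _ ih =>
    have mono : ∀ t, q ≠ t → v K g t ≤ v K (g * gn K q) t := fun t h => by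
      by_cases ha : K.Adj q t
      · rw [v_adj g ha]
      · rw [v_non g h ha]
        exact (le_add_of_nonneg_left hq).trans (le_add_of_nonneg_right hq)
    refine ⟨fun t => ?_, fun s t h1 h2 => ?_⟩
    · by_cases h : q = t
      · subst h; rw [v_self]; exact Or.inr (neg_nonpos.2 hq)
      · by_cases ha : K.Adj q t
        · rw [v_adj g ha]; exact ih.1 t
        · rw [v_non g h ha]; exact Or.inl (add_nonneg (ih.2 q t h ha) hq)
    · by_cases hs : q = s
      · subst hs
        rw [v_self, v_non g h1 h2]
        convert ih.2 q t h1 h2 using 1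
        abel
      · by_cases ht : q = t
        · subst ht
          rw [v_self, v_non g hs fun h => h2 h.symm]
          convert ih.2 s q h1 h2 using 1
          abel
        · exact (ih.2 s t h1 h2).trans (add_le_add (mono s hs) (mono t ht))

theorem clq {g : RAC K} (h : Up K g) {s t : Fin r} (hs : v K g s ≤ 0) (ht : v K g t ≤ 0)
    (h1 : s ≠ t) : K.Adj s t := by_contra fun h2 =>
  v_ne K g s (le_antisymm hs (((inv K h).2 s t h1 h2).trans (add_le_of_nonpos_right ht)))

theorem down {g : RAC K} (h : Up K g) : ∀ q, v K g q ≤ 0 → Up K (g * gn K q) := by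
  induction h with
  | one => exact fun q h => absurd (le_antisymm h (v_one K q)) (v_ne K 1 q)
  | step g s hs hg ih =>
    intro q hq
    by_cases e : q = s
    · rwa [e, mul_assoc, gn_sq, mul_one]
    · have ha : K.Adj q s := clq K (Up.step g s hs hg) hq
        (by rw [v_self]; exact neg_nonpos.2 hs) e
      rw [v_adj g ha.symm] at hq
      rw [mul_assoc, ← gn_comm ha, ← mul_assoc]
      exact Up.step _ s (by rwa [v_adj g ha]) (ih q hq)

theorem up (g : RAC K) : Up K g := by
  have := word_ind K (P := fun g => Up K g⁻¹) (by rw [inv_one]; exact Up.one) (fun s g h => by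
    rw [mul_inv_rev, gn_inv]
    exact ((inv K h).1 s).elim (fun h1 => Up.step _ s h1 h) (down K h s)) g⁻¹
  rwa [inv_inv] at this

end REPx

theorem p_REP :
    S_REP := fun _ K =>
  ⟨⟨REPx.rho K, REPx.rho_gn K, fun g => (REPx.inv K (REPx.up K g)).1,
    fun g _ _ hs ht => REPx.clq K (REPx.up K g) hs ht, fun P h1 h2 g => by
      induction REPx.up K g with
      | one => exact h1
      | step g s hs _ ih => exact h2 s g hs ih⟩⟩

end Pool.Agent.P.MP_f30597_gt.DV
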