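import Pool.Agent.P.MP_f30597_gt.DV.Iface

/-! Step XI. -/

set_option autoImplicit false
set_option linter.unusedSectionVars false

namespace Pool.Agent.P.MP_f30597_gt.DV

open Finset SI CP
open scoped Classical

namespace XIx

variable {r : ℕ} {K : SimpleGraph (Fin r)}

theorem na_sub {I I' : List (Finset (Fin r))} (h : ∀ σ ∈ I', σ ∈ I) (hI : Na K I) : Na K I' :=
  ⟨fun σ hσ => hI.1 σ (h σ hσ), hI.2.imp fun _ ht σ hσ => ht σ (h σ hσ)⟩

theorem ns_sub {I I' : List (Finset (Fin r))} (h : ∀ σ ∈ I', σ ∈ I) (hI : Ns K I) : Ns K I' :=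
  hI.imp (na_sub h) fun ⟨h1, ρ, μ, a, b, c, d⟩ =>
    ⟨fun σ hσ => h1 σ (h σ hσ), ρ, μ, a, b, c, fun σ hσ => d σ (h σ hσ)⟩

theorem ns_cl {I : List (Finset (Fin r))} (hI : Ns K I) : Cl K I := hI.elim And.left And.left

theorem fix {T : Finset (Fin r)} (h : InA K T) {t : Fin r} (ht : t ∈ T) :
    gn K t • ptY K T = ptY K T := by
  rw [ptY, dif_pos h, Sigma.smul_mk]
  congr 1
  change ((gn K t * 1 : RAC K) : RAC K ⧸ par K T) = _
  rw [QuotientGroup.eq, mul_one, mul_one, gn_inv]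
  exact Subgroup.subset_closure ⟨t, ht, rfl⟩

end XIx

open XIx in
theorem p_XI (hACT : S_ACT) (hPHI : S_PHI) (hACY : S_ACY) :
    S_XI := by
  intro r K hr k y hy hb
  obtain ⟨ξ, h1, h2, h3⟩ := hACT _ (Ns K) (Na K) (fun I => Dw (Phi K I))
    ⟨fun _ h => by simp at h, ⟨0, hr⟩, fun _ h => by simp at h⟩
    (fun I hI => ⟨.inl hI, (hPHI r K I hI.1).2.1, hI.2⟩)
    (fun I hI i => ns_sub (fun _ => List.mem_of_mem_eraseIdx) hI)
    (fun I hI i => na_sub (fun _ => List.mem_of_mem_eraseIdx) hI)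
    (fun I hI i l hl => ⟨fun T hT => (hPHI r K I (ns_cl hI)).1 _
      (fun _ => List.mem_of_mem_eraseIdx) (hl.1 T hT), hl.2⟩)
    (hACY r K)
  refine ⟨mp (ptY K) (ξ y), on_map (mp (ptY K) ∘ₗ ξ) _ (fun I hI => ?_) hy, ?_⟩
  · refine mp_on (ptY K) (fun l hl => ⟨?_, by rw [List.length_map, hl.2, hI.2]⟩) (h1 I hI.1)
    obtain ⟨⟨a, t, b⟩, -⟩ := hl
    refine ⟨t, ?_⟩
    rw [List.map_map]
    exact List.map_congr_left fun T hT => fix (a T hT).1 (b T hT)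
  · rw [bd_mp, h2 y (on_mono (fun _ h => h.1) hy), h3 _ hb]

end Pool.Agent.P.MP_f30597_gt.DV
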